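import Pool.Agent.H642.MR.Code

set_option autoImplicit false

/-!
Measurability of the set of good codes.
-/

open Set

namespace Pool.Agent.H642.MR

open Pool.Agent.H642.TV

theorem m_CQ (n : ℕ) (p q : ℚ) : Measurable fun s : Cod => CQ s n p q := by
  have h1 : Measurable fun s : Cod => s n (en p) (en q) := by fun_prop
  have h2 : Measurable fun b : Bool => (b = true : Prop) := Measurable.of_discrete
  exact h2.comp h1

theorem m_LQ (a : Ltr) (p q : ℚ) : Measurable fun s : Cod => LQ s a p q := by
  obtain ⟨n, b⟩ := a
  cases b
  · exact m_CQ n q p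
  · exact m_CQ n p q

theorem m_evC {P : Cod → ℚ → Prop} (hP : ∀ r, Measurable fun s => P s r) (p q : ℚ) :
    Measurable fun s => evC (P s) p q :=
  .exists fun _ => .and measurable_const (.exists fun _ => .and measurable_const
    (.forall fun _ => .imp measurable_const (.imp measurable_const (.not (hP _)))))

theorem m_endRat {M : Cod → ℚ → ℚ → Prop} (hM : ∀ p q, Measurable fun s => M s p q) :
    Measurable fun s => endRat (M s) :=
  .and
    (.forall fun _ => .forall fun _ => .imp measurable_const (.imp (hM _ _) (.imp (.not (hM _ _))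
      (.exists fun _ => .and measurable_const (.and measurable_const (.and (.not (hM _ _))
        (.forall fun _ => .imp measurable_const (.imp measurable_const (hM _ _)))))))))
    (.forall fun _ => .forall fun _ => .imp measurable_const (.imp (hM _ _) (.imp (.not (hM _ _))
      (.exists fun _ => .and measurable_const (.and measurable_const (.and (.not (hM _ _))
        (.forall fun _ => .imp measurable_const (.imp measurable_const (hM _ _)))))))))

theorem m_evL {M : Cod → ℚ → ℚ → Prop} (hM : ∀ p q, Measurable fun s => M s p q) (e : ℚ) :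
    Measurable fun s => evL (M s) e :=
  .and (.not (hM _ _)) (.exists fun _ => .and measurable_const
    (.forall fun _ => .imp measurable_const (.imp measurable_const (hM _ _))))

theorem m_evR {M : Cod → ℚ → ℚ → Prop} (hM : ∀ p q, Measurable fun s => M s p q) (e : ℚ) :
    Measurable fun s => evR (M s) e :=
  .and (.not (hM _ _)) (.exists fun _ => .and measurable_const
    (.forall fun _ => .imp measurable_const (.imp measurable_const (hM _ _))))

theorem m_MonoQ : Measurable fun s : Cod => MonoQ s :=
  .forall fun n => .or
    (.forall fun p => .forall fun q => .forall fun p' => .forall fun q' =>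
      .imp (m_CQ n p q) (.imp (m_CQ n p' q') measurable_const))
    (.forall fun p => .forall fun q => .forall fun p' => .forall fun q' =>
      .imp (m_CQ n p q) (.imp (m_CQ n p' q') measurable_const))

theorem m_evD (a : Ltr) (p q : ℚ) : Measurable fun s : Cod => evD s a p q :=
  m_evC (fun r => .exists fun r' => m_LQ a r r') p q

theorem m_evY (a : Ltr) (p u v : ℚ) : Measurable fun s : Cod => evY s a p u v :=
  .exists fun _ => .forall fun p' => .forall fun q' => .imp measurable_const
    (.imp measurable_const (.imp measurable_const (.not (m_LQ a p' q'))))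

theorem m_stQ (k : ℕ) : ∀ p, Measurable fun s : Cod => stQ s k p := by
  induction k with
  | zero =>
    exact fun p => .exists fun a => .or (.or (m_evL (m_evD a) p) (m_evR (m_evD a) p))
      (.exists fun y => .exists fun y' => .and (m_LQ a p y) (.and (m_LQ a p y') measurable_const))
  | succ k ih =>
    exact fun p => .exists fun a => .exists fun x => .and (ih x)
      (.or (m_evL (m_evY a x) p) (m_evR (m_evY a x) p))

theorem m_JumpRat (a : Ltr) : Measurable fun s : Cod => JumpRat s a :=
  .forall fun _ => .forall fun _ => .imp measurable_const (.imp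
    (.forall fun _ => .exists fun p => .exists fun q => .exists fun p' => .exists fun q' =>
      .and (m_LQ a p q) (.and measurable_const (.and (m_LQ a p' q') (.and measurable_const
        measurable_const))))
    (.exists fun x => .exists fun y1 => .exists fun y2 => .and (m_LQ a x y1)
      (.and (m_LQ a x y2) (.and measurable_const measurable_const))))

theorem ratE_def (s : Cod) : RatE s ↔ (∀ a, endRat (evD s a)) ∧ (∀ a, JumpRat s a) ∧
    ∀ k x, stQ s k x → ∀ a, endRat (evY s a x) :=
  ⟨fun h => ⟨h.1, h.2, h.3⟩, fun ⟨h1, h2, h3⟩ => ⟨h1, h2, h3⟩⟩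

theorem m_RatE : Measurable fun s : Cod => RatE s := by
  simp only [ratE_def]
  exact .and (.forall fun a => m_endRat (m_evD a)) (.and (.forall fun a => m_JumpRat a)
    (.forall fun k => .forall fun x => .imp (m_stQ k x) (.forall fun a => m_endRat (m_evY a x))))

theorem m_evA1 (p q : ℚ) : Measurable fun s : Cod => evA1 s p q :=
  m_evC (fun r => .exists fun k => m_stQ k r) p q

theorem m_PQ (w : List Ltr) : ∀ p q, Measurable fun s : Cod => PQ s w p q := by
  induction w with
  | nil => exact fun p q => .and measurable_const (m_evA1 p p)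
  | cons a w ih =>
    exact fun p q => .exists fun z => .and (.and (m_LQ a p z) (.and (m_evA1 p p) (m_evA1 z z)))
      (ih z q)

theorem m_InvQ : Measurable fun s : Cod => InvQ s :=
  .forall fun a => .forall fun p => .imp (m_evA1 p p) (.imp (.not (m_evD a p p))
    (.exists fun q => m_LQ a p q))

theorem m_evF2 (w : List Ltr) (p q : ℚ) : Measurable fun s : Cod => evF2 s w p q :=
  .and (m_evA1 p q) (.exists fun _ => .forall fun t => .forall fun t' => .imp measurable_const
    (.imp measurable_const (.imp (m_PQ w t t') measurable_const)))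

theorem m_wiQ (u v : ℚ) : Measurable fun s : Cod => wiQ s u v :=
  .and (m_evA1 u v) (.forall fun w => .forall fun t => .forall fun t' => .imp measurable_const
    (.imp measurable_const (.imp measurable_const (.imp measurable_const (.imp (m_PQ w t t')
      measurable_const)))))

theorem m_evN2 (p q : ℚ) : Measurable fun s : Cod => evN2 s p q :=
  .exists fun _ => .forall fun _ => .imp measurable_const (.imp measurable_const (m_wiQ _ _))

theorem m_evE2 (e : ℚ) : Measurable fun s : Cod => evE2 s e :=
  .or (.exists fun k => m_stQ k e) (.or (.or (m_evL m_evA1 e) (m_evR m_evA1 e))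
    (.or (.exists fun w => .or (m_evL (m_evF2 w) e) (m_evR (m_evF2 w) e))
      (.or (m_evL m_evN2 e) (m_evR m_evN2 e))))

theorem m_evA2 (p q : ℚ) : Measurable fun s : Cod => evA2 s p q := m_evC m_evE2 p q

theorem goodC_def (s : Cod) : GoodC s ↔ MonoQ s ∧ (∀ n p q, CQ s n p q ↔ ¬ evY s (n, true) p q q) ∧
    RatE s ∧ InvQ s ∧ endRat (evA1 s) ∧ (∀ w, endRat (evF2 s w)) ∧ endRat (evN2 s) ∧
    endRat (evA2 s) ∧ (∀ p : ℚ, ¬ evA2 s p p → evE2 s p ∨ evL (evA2 s) p ∨ evR (evA2 s) p) ∧
    ∀ p q : ℚ, p ≤ q → ¬ evN2 s p p → evA2 s p q → ∃ w, PQ s w p q :=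
  ⟨fun h => ⟨h.1, h.2, h.3, h.4, h.5, h.6, h.7, h.8, h.9, h.10⟩,
    fun ⟨h1, h2, h3, h4, h5, h6, h7, h8, h9, h10⟩ => ⟨h1, h2, h3, h4, h5, h6, h7, h8, h9, h10⟩⟩

theorem m_goodC : Measurable fun s : Cod => GoodC s := by
  simp only [goodC_def]
  exact .and m_MonoQ (.and (.forall fun n => .forall fun p => .forall fun q => .iff (m_CQ n p q)
    (.not (m_evY (n, true) p q q))) (.and m_RatE (.and m_InvQ (.and (m_endRat m_evA1)
    (.and (.forall fun w => m_endRat (m_evF2 w)) (.and (m_endRat m_evN2) (.and (m_endRat m_evA2)
    (.and (.forall fun p => .imp (.not (m_evA2 p p)) (.or (m_evE2 p) (.or (m_evL m_evA2 p)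
      (m_evR m_evA2 p))))
    (.forall fun p => .forall fun q => .imp measurable_const (.imp (.not (m_evN2 p p))
      (.imp (m_evA2 p q) (.exists fun w => m_PQ w p q))))))))))))

end Pool.Agent.H642.MR
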