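import Pool.Agent.H642.MR.Trans
import Pool.Agent.H642.MR.Meas

set_option autoImplicit false

/-!
The dichotomy for the orientation preserving homeomorphisms of the line, acting on sequences of
closed monotone relations.
-/

open Set TopologicalSpace MeasureTheory

namespace Pool.Agent.H642.MR

open Pool.Agent.H642.TV hiding act

/-- Sequences of closed relations on the line. -/
abbrev RSp : Type := ℕ → Closeds (ℝ × ℝ)

/-- The Effros Borel structure. -/
@[reducible] def borelR : MeasurableSpace RSp :=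
  MeasurableSpace.generateFrom
    {S | ∃ (n : ℕ) (U : Set (ℝ × ℝ)), IsOpen U ∧
      S = {x : RSp | ((x n : Set (ℝ × ℝ)) ∩ U).Nonempty}}

/-- The orbit equivalence relation. -/
def SameR (x y : RSp) : Prop :=
  ∃ g : ℝ ≃o ℝ, ∀ n, (y n : Set (ℝ × ℝ)) = (fun p : ℝ × ℝ => (g p.1, g p.2)) '' (x n : Set (ℝ × ℝ))

/-- The sets of a point of the space. -/
def cs (x : RSp) (n : ℕ) : Set (ℝ × ℝ) := x n

theorem image_iff {g : ℝ ≃o ℝ} {S S' : Set (ℝ × ℝ)} :
    S' = (fun p : ℝ × ℝ => (g p.1, g p.2)) '' S ↔ ∀ x y, (g x, g y) ∈ S' ↔ (x, y) ∈ S := by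
  constructor
  · rintro rfl x y
    constructor
    · rintro ⟨⟨a, b⟩, h, e⟩
      have e1 : g a = g x := congrArg Prod.fst e
      have e2 : g b = g y := congrArg Prod.snd e
      rw [g.injective e1, g.injective e2] at h
      exact h
    · intro h
      exact ⟨(x, y), h, rfl⟩
  · intro h
    ext ⟨x, y⟩
    constructor
    · intro h1
      refine ⟨((g⁻¹ : ℝ ≃o ℝ) x, (g⁻¹ : ℝ ≃o ℝ) y), ?_, ?_⟩
      · rw [← h, app_inv_self, app_inv_self]
        exact h1
      · simp only [app_inv_self]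
    · rintro ⟨⟨a, b⟩, h1, h2⟩
      have e1 : g a = x := congrArg Prod.fst h2
      have e2 : g b = y := congrArg Prod.snd h2
      rw [← e1, ← e2, h]
      exact h1

theorem sameR_iff {x y : RSp} : SameR x y ↔ ∃ g : ℝ ≃o ℝ, Conj2 g (cs x) (cs y) := by
  refine exists_congr fun g => ?_
  constructor
  · intro h n
    exact image_iff.mp (h n)
  · intro h n
    exact image_iff.mpr (h n)

theorem sameR_refl (x : RSp) : SameR x x := by
  rw [sameR_iff]
  exact ⟨1, fun n a b => by simp only [one_app]⟩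

theorem sameR_symm {x y : RSp} (h : SameR x y) : SameR y x := by
  rw [sameR_iff] at h ⊢
  obtain ⟨g, hg⟩ := h
  exact ⟨g⁻¹, hg.symm⟩

theorem sameR_trans {x y z : RSp} (h : SameR x y) (h' : SameR y z) : SameR x z := by
  rw [sameR_iff] at h h' ⊢
  obtain ⟨g, hg⟩ := h
  obtain ⟨g', hg'⟩ := h'
  refine ⟨g' * g, fun n a b => ?_⟩
  rw [mul_app, mul_app, hg', hg]

/-- The point coded by a code. -/
def psi (s : Cod) : RSp := fun n => ⟨CR s n, isClosed_closure⟩

theorem cs_psi (s : Cod) : cs (psi s) = CR s := rfl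

theorem gcont (g : ℝ ≃o ℝ) : Continuous fun p : ℝ × ℝ => (g p.1, g p.2) :=
  (g.continuous.comp continuous_fst).prodMk (g.continuous.comp continuous_snd)

/-- The homeomorphism of the plane. -/
def ghomeo (g : ℝ ≃o ℝ) : ℝ × ℝ ≃ₜ ℝ × ℝ where
  toFun p := (g p.1, g p.2)
  invFun p := ((g⁻¹ : ℝ ≃o ℝ) p.1, (g⁻¹ : ℝ ≃o ℝ) p.2)
  left_inv p := by simp
  right_inv p := by simp
  continuous_toFun := gcont g
  continuous_invFun := gcont g⁻¹

theorem conj_CR {s s' : Cod} {φ : ℚ ≃o ℚ} (hφ : ∀ n p q, CQ s' n (φ p) (φ q) ↔ CQ s n p q)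
    {g : ℝ ≃o ℝ} (hg : ∀ q : ℚ, g q = φ q) (n : ℕ) :
    CR s' n = (fun p : ℝ × ℝ => (g p.1, g p.2)) '' CR s n := by
  have h1 : (fun p : ℝ × ℝ => (g p.1, g p.2)) '' CR s n =
      closure ((fun p : ℝ × ℝ => (g p.1, g p.2)) '' {x | ∃ p q : ℚ, CQ s n p q ∧ x = (↑p, ↑q)}) :=
    (ghomeo g).image_closure _
  rw [h1, CR]
  congr 1
  ext x
  constructor
  · rintro ⟨p, q, h, rfl⟩
    refine ⟨(↑(φ.symm p), ↑(φ.symm q)), ⟨_, _, ?_, rfl⟩, ?_⟩
    · rw [← hφ, φ.apply_symm_apply, φ.apply_symm_apply]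
      exact h
    · show (g _, g _) = _
      rw [hg, hg, φ.apply_symm_apply, φ.apply_symm_apply]
  · rintro ⟨_, ⟨p, q, h, rfl⟩, rfl⟩
    refine ⟨φ p, φ q, (hφ n p q).mpr h, ?_⟩
    show (g _, g _) = _
    rw [hg, hg]

/-- Equivalent codes: the equivalent of a good code is good and codes a point of the same orbit. -/
theorem good_iso {s s' : Cod} (hs : GoodC s) (h : EqQ s s') : GoodC s' ∧ SameR (psi s) (psi s') := by
  obtain ⟨φ, hφ⟩ := h
  obtain ⟨g, hg⟩ := ext_rat φ φ.strictMono φ.surjective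
  have hC : ∀ n, CR s' n = (fun p : ℝ × ℝ => (g p.1, g p.2)) '' CR s n := conj_CR hφ hg
  have hconj : Conj2 g (CR s) (CR s') := fun n => image_iff.mp (hC n)
  refine ⟨?_, g, hC⟩
  obtain ⟨h1, h2, h3⟩ := goodC_iff.mp hs
  rw [goodC_iff]
  refine ⟨fun n => ?_, ?_, ?_⟩
  · rcases h1 n with h4 | h4
    · left
      intro p q p' q' a1 a2 a3
      have b1 := (hφ n (φ.symm p) (φ.symm q)).mp (by
        rw [φ.apply_symm_apply, φ.apply_symm_apply]; exact a1)
      have b2 := (hφ n (φ.symm p') (φ.symm q')).mp (by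
        rw [φ.apply_symm_apply, φ.apply_symm_apply]; exact a2)
      exact φ.symm.le_iff_le.mp (h4 _ _ _ _ b1 b2 (φ.symm.lt_iff_lt.mpr a3))
    · right
      intro p q p' q' a1 a2 a3
      have b1 := (hφ n (φ.symm p) (φ.symm q)).mp (by
        rw [φ.apply_symm_apply, φ.apply_symm_apply]; exact a1)
      have b2 := (hφ n (φ.symm p') (φ.symm q')).mp (by
        rw [φ.apply_symm_apply, φ.apply_symm_apply]; exact a2)
      exact φ.symm.le_iff_le.mp (h4 _ _ _ _ b1 b2 (φ.symm.lt_iff_lt.mpr a3))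
  · have key : ∀ n (p q : ℚ), CQ s' n p q ↔ ((p : ℝ), (q : ℝ)) ∈ CR s' n := by
      intro n p q
      have e1 : CQ s' n p q ↔ CQ s n (φ.symm p) (φ.symm q) := by
        rw [← hφ, φ.apply_symm_apply, φ.apply_symm_apply]
      have e2 : CQ s n (φ.symm p) (φ.symm q) ↔ ((φ.symm p : ℝ), (φ.symm q : ℝ)) ∈ CR s n :=
        h2 (n, true) (φ.symm p) (φ.symm q)
      rw [e1, e2, ← hconj n, hg, hg, φ.apply_symm_apply, φ.apply_symm_apply]
    rintro ⟨n, b⟩ p q
    cases b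
    · exact key n q p
    · exact key n p q
  · have h4 := h3.conj hconj
    have h5 : g '' RQ = RQ := by
      ext x
      constructor
      · rintro ⟨_, ⟨q, rfl⟩, rfl⟩
        exact ⟨φ q, (hg q).symm⟩
      · rintro ⟨r, rfl⟩
        refine ⟨(φ.symm r : ℚ), ⟨_, rfl⟩, ?_⟩
        rw [hg, φ.apply_symm_apply]
    rwa [h5] at h4

/-- Good codes of points of one orbit are equivalent. -/
theorem iso_of_same {s s' : Cod} (hs : GoodC s) (hs' : GoodC s') (h : SameR (psi s) (psi s')) :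
    EqQ s s' := by
  rw [sameR_iff] at h
  obtain ⟨g, hg⟩ := h
  have hg : Conj2 g (CR s) (CR s') := hg
  obtain ⟨m1, h1, h2⟩ := goodC_iff.mp hs
  obtain ⟨m1', h1', h2'⟩ := goodC_iff.mp hs'
  have h3 := h2'.conj hg.symm
  obtain ⟨k, k1, k2, k3⟩ := uniq2 (adm_CR m1) h2 h3 countable_RQ dense_RQ
    (countable_RQ.image _) ((g⁻¹).surjective.denseRange.dense_image (g⁻¹).continuous dense_RQ)
  have hrat : ∀ q : ℚ, ∃ r : ℚ, (g * k) q = r := by
    intro q
    obtain ⟨_, ⟨r, rfl⟩, hr⟩ := k2 q ⟨q, rfl⟩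
    refine ⟨r, ?_⟩
    rw [mul_app, ← hr, app_inv_self]
  choose φ hφ using hrat
  have hmono : StrictMono φ := fun p q hpq => by
    have h4 : (g * k) (p : ℝ) < (g * k) q := (g * k).lt_iff_lt.mpr (by exact_mod_cast hpq)
    rw [hφ, hφ] at h4
    exact_mod_cast h4
  have hsurj : Function.Surjective φ := by
    intro r
    obtain ⟨_, ⟨q, rfl⟩, hq⟩ := k3 ⟨(r : ℝ), ⟨r, rfl⟩, rfl⟩
    refine ⟨q, ?_⟩
    have h4 : (g * k) (q : ℝ) = r := by
      rw [mul_app, hq, app_inv_self]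
    rw [hφ] at h4
    exact_mod_cast h4
  refine ⟨StrictMono.orderIsoOfSurjective φ hmono hsurj, fun n p q => ?_⟩
  show CQ s' n (φ p) (φ q) ↔ CQ s n p q
  have e1 : CQ s' n (φ p) (φ q) ↔ ((φ p : ℝ), (φ q : ℝ)) ∈ CR s' n := h1' (n, true) (φ p) (φ q)
  have e2 : CQ s n p q ↔ ((p : ℝ), (q : ℝ)) ∈ CR s n := h1 (n, true) p q
  rw [e1, e2, ← hφ, ← hφ, mul_app, mul_app, hg n, ← k1]

/-- Every sequence of closed monotone relations is in the orbit of a coded one. -/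
theorem exists_code {x : RSp} (hx : Adm (cs x)) : ∃ s : Cod, GoodC s ∧ SameR (psi s) x := by
  classical
  obtain ⟨D, cD, dD, hD⟩ := exists_good2 hx
  obtain ⟨τ, t1, t2, t3⟩ := cantor cD dD countable_RQ dense_RQ isOpen_univ ordConnected_univ
    univ_nonempty isOpen_univ ordConnected_univ univ_nonempty
  rw [inter_univ, inter_univ] at t3
  rw [inter_univ] at t2
  simp only [inter_univ] at t1
  obtain ⟨g, hg⟩ := ext_dense dD dense_RQ τ t2 t3
  have hgD : g '' D = RQ := by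
    ext y
    constructor
    · rintro ⟨d, hd, rfl⟩
      rw [hg d hd]
      exact t1 d hd
    · intro hy
      obtain ⟨d, hd, rfl⟩ := t3 hy
      exact ⟨d, hd, hg d hd⟩
  set C' : ℕ → Set (ℝ × ℝ) := fun n => (fun p : ℝ × ℝ => (g p.1, g p.2)) '' cs x n with hC'
  have hC : Conj2 g (cs x) C' := fun n => image_iff.mp rfl
  have hG := hD.conj hC
  have hA := hx.conj hC
  rw [hgD] at hG
  set s : Cod := fun n i j => decide (((en.symm i : ℝ), (en.symm j : ℝ)) ∈ C' n) with hs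
  have hQ : ∀ n (p q : ℚ), CQ s n p q ↔ ((p : ℝ), (q : ℝ)) ∈ C' n := fun n p q => by
    simp [CQ, hs]
  have hCR : ∀ n, CR s n = C' n := by
    intro n
    rw [CR, ← hG.closure_eq hA dense_RQ n]
    congr 1
    ext y
    constructor
    · rintro ⟨p, q, h, rfl⟩
      exact ⟨(hQ n p q).mp h, ⟨p, rfl⟩, ⟨q, rfl⟩⟩
    · rintro ⟨h1, ⟨p, hp⟩, ⟨q, hq⟩⟩
      have e : y = ((p : ℝ), (q : ℝ)) := Prod.ext hp.symm hq.symm
      rw [e] at h1
      exact ⟨p, q, (hQ n p q).mpr h1, e⟩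
  have hCR' : CR s = C' := funext hCR
  refine ⟨s, ?_, ?_⟩
  · rw [goodC_iff, hCR']
    refine ⟨fun n => ?_, ?_, hG⟩
    · rcases hA.mono n with h1 | h1
      · left
        intro p q p' q' a1 a2 a3
        have := h1 _ _ _ _ ((hQ n p q).mp a1) ((hQ n p' q').mp a2) (by exact_mod_cast a3)
        exact_mod_cast this
      · right
        intro p q p' q' a1 a2 a3
        have := h1 _ _ _ _ ((hQ n p q).mp a1) ((hQ n p' q').mp a2) (by exact_mod_cast a3)
        exact_mod_cast this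
    · rintro ⟨n, b⟩ p q
      cases b
      · exact hQ n q p
      · exact hQ n p q
  · exact sameR_symm ⟨g, fun n => hCR n⟩

theorem m_psi : @Measurable Cod RSp _ borelR psi := by
  refine measurable_generateFrom ?_
  rintro _ ⟨n, U, hU, rfl⟩
  have h1 : psi ⁻¹' {x : RSp | ((x n : Set (ℝ × ℝ)) ∩ U).Nonempty} =
      {s : Cod | ∃ p q : ℚ, ((p : ℝ), (q : ℝ)) ∈ U ∧ CQ s n p q} := by
    ext s
    show (CR s n ∩ U).Nonempty ↔ ∃ p q : ℚ, ((p : ℝ), (q : ℝ)) ∈ U ∧ CQ s n p q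
    constructor
    · rintro ⟨x, hx, hxU⟩
      obtain ⟨y, hyU, p, q, h, rfl⟩ := mem_closure_iff.mp hx U hU hxU
      exact ⟨p, q, hyU, h⟩
    · rintro ⟨p, q, hU, h⟩
      exact ⟨_, subset_closure ⟨p, q, h, rfl⟩, hU⟩
  rw [h1]
  exact Measurable.setOf (.exists fun p => .exists fun q => .and measurable_const (m_CQ n p q))

/-- All relations are monotone. -/
def MonoR (x : RSp) : Prop := ∀ n, (∀ p ∈ x n, ∀ q ∈ x n, p.1 < q.1 → p.2 ≤ q.2) ∨
  ∀ p ∈ x n, ∀ q ∈ x n, p.1 < q.1 → q.2 ≤ p.2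

theorem adm_of {x : RSp} (h : MonoR x) : Adm (cs x) := by
  refine ⟨fun n => (x n).isClosed, fun n => ?_⟩
  rcases h n with h1 | h1
  · exact Or.inl fun a b a' b' h2 h3 h4 => h1 (a, b) h2 (a', b') h3 h4
  · exact Or.inr fun a b a' b' h2 h3 h4 => h1 (a, b) h2 (a', b') h3 h4

theorem main (B : Set RSp) (hB : MeasurableSet[borelR] B) (hm : ∀ x ∈ B, MonoR x)
    (hE : ∀ x ∈ B, ∀ y, SameR x y → y ∈ B) :
    (∃ f : ℕ → RSp, ∀ x ∈ B, ∃ n, f n ∈ B ∧ SameR (f n) x) ∨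
    (∃ c : (ℕ → Bool) → RSp, Measurable[inferInstance, borelR] c ∧ (∀ a, c a ∈ B) ∧
      ∀ a b, SameR (c a) (c b) → a = b) := by
  set A : Set Cod := {s | GoodC s ∧ psi s ∈ B} with hA
  have hAm : MeasurableSet A := m_goodC.setOf.inter (m_psi hB)
  rcases dich_codes A hAm (fun s hs => hs.1.mono) (fun s hs s' h => by
      obtain ⟨h1, h2⟩ := good_iso hs.1 h
      exact ⟨h1, hE _ hs.2 _ h2⟩) with ⟨f, hf⟩ | ⟨c, hc1, hc2, hc3⟩
  · left
    refine ⟨fun n => psi (f n), fun x hx => ?_⟩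
    obtain ⟨s, hs, hsx⟩ := exists_code (adm_of (hm x hx))
    have hsA : s ∈ A := ⟨hs, hE x hx _ (sameR_symm hsx)⟩
    obtain ⟨n, h1, h2⟩ := hf s hsA
    exact ⟨n, h1.2, sameR_trans (good_iso h1.1 h2).2 hsx⟩
  · right
    have := bsCod
    exact ⟨fun a => psi (c a), m_psi.comp hc1.measurable, fun a => (hc2 a).2, fun a b hab =>
      hc3 a b (iso_of_same (hc2 a).1 (hc2 b).1 hab)⟩

end Pool.Agent.H642.MR
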