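import Pool.Agent.H642.MR.Exist
import Pool.Agent.H642.TV.Code

set_option autoImplicit false

/-!
Coding of sequences of closed monotone relations by relations on the rationals.
-/

open Set

namespace Pool.Agent.H642.MR

open Pool.Agent.H642.TV

/-- Codes. -/
abbrev Cod : Type := ℕ → ℕ → ℕ → Bool

/-- The relations of a code, on the rationals. -/
def CQ (s : Cod) (n : ℕ) (p q : ℚ) : Prop := s n (en p) (en q) = true

/-- The relations of the letters, on the rationals. -/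
def LQ (s : Cod) : Ltr → ℚ → ℚ → Prop
  | (n, true), p, q => CQ s n p q
  | (n, false), p, q => CQ s n q p

theorem LQ_li {s : Cod} (a : Ltr) (p q : ℚ) : LQ s (li a) q p ↔ LQ s a p q := by
  obtain ⟨n, b⟩ := a
  cases b <;> exact Iff.rfl

/-- The closed relations of a code. -/
def CR (s : Cod) (n : ℕ) : Set (ℝ × ℝ) := closure {x | ∃ p q : ℚ, CQ s n p q ∧ x = (↑p, ↑q)}

/-- The relations of a code are monotone. -/
def MonoQ (s : Cod) : Prop := ∀ n,
  (∀ p q p' q', CQ s n p q → CQ s n p' q' → p < p' → q ≤ q') ∨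
  (∀ p q p' q', CQ s n p q → CQ s n p' q' → p < p' → q' ≤ q)

variable {s : Cod}

theorem mem_CR (n : ℕ) (x y : ℝ) : (x, y) ∈ CR s n ↔ ∀ l u l' u', l < x → x < u → l' < y →
    y < u' → ∃ p q : ℚ, CQ s n p q ∧ l < p ∧ p < u ∧ l' < q ∧ q < u' := by
  constructor
  · intro h l u l' u' h1 h2 h3 h4
    obtain ⟨_, ⟨⟨a1, a2⟩, a3, a4⟩, p, q, hpq, rfl⟩ := mem_closure_iff.mp h (Ioo l u ×ˢ Ioo l' u')
      (isOpen_Ioo.prod isOpen_Ioo) ⟨⟨h1, h2⟩, h3, h4⟩
    exact ⟨p, q, hpq, a1, a2, a3, a4⟩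
  · intro h
    rw [CR, mem_closure_iff_nhds]
    intro U hU
    rw [nhds_prod_eq, Filter.mem_prod_iff] at hU
    obtain ⟨V, hV, W, hW, hVW⟩ := hU
    obtain ⟨l, u, ⟨h1, h2⟩, h3⟩ := mem_nhds_iff_exists_Ioo_subset.mp hV
    obtain ⟨l', u', ⟨h1', h2'⟩, h3'⟩ := mem_nhds_iff_exists_Ioo_subset.mp hW
    obtain ⟨p, q, hpq, a1, a2, a3, a4⟩ := h l u l' u' h1 h2 h1' h2'
    exact ⟨(↑p, ↑q), hVW ⟨h3 ⟨a1, a2⟩, h3' ⟨a3, a4⟩⟩, p, q, hpq, rfl⟩

theorem RL_CR (a : Ltr) (x y : ℝ) : RL (CR s) a x y ↔ ∀ l u l' u', l < x → x < u → l' < y →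
    y < u' → ∃ p q : ℚ, LQ s a p q ∧ l < p ∧ p < u ∧ l' < q ∧ q < u' := by
  obtain ⟨n, b⟩ := a
  cases b
  · have h1 : RL (CR s) (n, false) x y ↔ (y, x) ∈ CR s n := Iff.rfl
    rw [h1, mem_CR]
    constructor
    · intro h l u l' u' h1 h2 h3 h4
      obtain ⟨p, q, hpq, a1, a2, a3, a4⟩ := h l' u' l u h3 h4 h1 h2
      exact ⟨q, p, hpq, a3, a4, a1, a2⟩
    · intro h l u l' u' h1 h2 h3 h4
      obtain ⟨p, q, hpq, a1, a2, a3, a4⟩ := h l' u' l u h3 h4 h1 h2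
      exact ⟨q, p, hpq, a3, a4, a1, a2⟩
  · exact mem_CR n x y

theorem RL_of_LQ {a : Ltr} {p q : ℚ} (h : LQ s a p q) : RL (CR s) a p q := by
  rw [RL_CR]
  intro l u l' u' h1 h2 h3 h4
  exact ⟨p, q, h, h1, h2, h3, h4⟩

theorem adm_CR (h : MonoQ s) : Adm (CR s) := by
  refine ⟨fun n => isClosed_closure, fun n => ?_⟩
  have key : ∀ x y x' y' : ℝ, (x, y) ∈ CR s n → (x', y') ∈ CR s n → x < x' → y' < y →
      ∃ p q p' q', CQ s n p q ∧ CQ s n p' q' ∧ p < p' ∧ q' < q := by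
    intro x y x' y' h1 h2 h3 h4
    obtain ⟨m, hm1, hm2⟩ := exists_between h3
    obtain ⟨m', hm1', hm2'⟩ := exists_between h4
    obtain ⟨p, q, a1, _, a2, a3, _⟩ := (mem_CR n x y).mp h1 (x - 1) m m' (y + 1) (by linarith) hm1
      hm2' (by linarith)
    obtain ⟨p', q', b1, b2, _, _, b3⟩ := (mem_CR n x' y').mp h2 m (x' + 1) (y' - 1) m' hm2
      (by linarith) (by linarith) hm1'
    exact ⟨p, q, p', q', a1, b1, by exact_mod_cast a2.trans b2, by exact_mod_cast b3.trans a3⟩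
  rcases h n with hm | hm
  · left
    intro x y x' y' h1 h2 h3
    by_contra hc
    obtain ⟨p, q, p', q', a1, a2, a3, a4⟩ := key x y x' y' h1 h2 h3 (not_le.mp hc)
    exact absurd (hm p q p' q' a1 a2 a3) (not_le.mpr a4)
  · right
    intro x y x' y' h1 h2 h3
    by_contra hc
    have h4 : y < y' := not_le.mp hc
    obtain ⟨m, hm1, hm2⟩ := exists_between h3
    obtain ⟨m', hm1', hm2'⟩ := exists_between h4
    obtain ⟨p, q, a1, _, a2, _, a3⟩ := (mem_CR n x y).mp h1 (x - 1) m (y - 1) m' (by linarith) hm1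
      (by linarith) hm1'
    obtain ⟨p', q', b1, b2, _, b3, _⟩ := (mem_CR n x' y').mp h2 m (x' + 1) m' (y' + 1) hm2
      (by linarith) hm2' (by linarith)
    exact absurd (hm p q p' q' a1 b1 (by exact_mod_cast a2.trans b2))
      (not_le.mpr (by exact_mod_cast a3.trans b3))

/-! ### Events -/

/-- Small numbers. -/
def iv (k : ℕ) : ℚ := 1 / ((k : ℚ) + 1)

theorem small {ε : ℝ} (hε : 0 < ε) : ∃ k : ℕ, (iv k : ℝ) < ε := by
  obtain ⟨k, hk⟩ := exists_nat_one_div_lt hε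
  refine ⟨k, ?_⟩
  unfold iv
  push_cast
  exact hk

theorem iv_pos (k : ℕ) : 0 < iv k := by
  unfold iv
  positivity

theorem inv_pos' (k : ℕ) : (0 : ℝ) < (iv k : ℝ) := by exact_mod_cast iv_pos k

/-- The event for the closure of the domain of a letter. -/
def evD (s : Cod) (a : Ltr) : ℚ → ℚ → Prop := evC fun p => ∃ q, LQ s a p q

/-- The event for a row of a letter. -/
def evY (s : Cod) (a : Ltr) (p u v : ℚ) : Prop :=
  ∃ k : ℕ, ∀ p' q' : ℚ, |p' - p| < iv k → u - iv k < q' →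
    q' < v + iv k → ¬ LQ s a p' q'

theorem rp_D (a : Ltr) : Rp (evD s a) (closure (dom (CR s) a)) := by
  have h := rp_closure fun p : ℚ => ∃ q, LQ s a p q
  have h1 : closure {x : ℝ | ∃ r : ℚ, (∃ q, LQ s a r q) ∧ x = r} = closure (dom (CR s) a) := by
    refine subset_antisymm (closure_mono ?_) (isClosed_closure.closure_subset_iff.mpr ?_)
    · rintro _ ⟨r, ⟨q, hq⟩, rfl⟩
      exact ⟨q, RL_of_LQ hq⟩
    · rintro x ⟨y, hy⟩
      rw [mem_closure_iff_nhds]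
      intro U hU
      obtain ⟨l, u, ⟨h1, h2⟩, h3⟩ := mem_nhds_iff_exists_Ioo_subset.mp hU
      obtain ⟨p, q, hpq, a1, a2, _, _⟩ := (RL_CR a x y).mp hy l u (y - 1) (y + 1) h1 h2
        (by linarith) (by linarith)
      exact ⟨p, h3 ⟨a1, a2⟩, p, ⟨q, hpq⟩, rfl⟩
  rw [h1] at h
  exact h


theorem rp_Y (hm : MonoQ s) (a : Ltr) (p : ℚ) : Rp (evY s a p) {z | RL (CR s) a p z} := by
  intro u v huv
  have huv' : (u : ℝ) ≤ v := by exact_mod_cast huv
  constructor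
  · rintro ⟨k, hk⟩ t ht hR
    have h0 := inv_pos' k
    obtain ⟨p', q', hpq, a1, a2, a3, a4⟩ := (RL_CR a p t).mp hR (p - (iv k : ℝ))
      (p + (iv k : ℝ)) (t - (iv k : ℝ)) (t + (iv k : ℝ))
      (by linarith) (by linarith) (by linarith) (by linarith)
    refine hk p' q' ?_ ?_ ?_ hpq
    · have : |(p' : ℝ) - p| < (iv k : ℝ) := by
        rw [abs_lt]
        constructor <;> linarith
      exact_mod_cast this
    · have : (u : ℝ) - (iv k : ℝ) < q' := by linarith [ht.1]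
      exact_mod_cast this
    · have : (q' : ℝ) < v + (iv k : ℝ) := by linarith [ht.2]
      exact_mod_cast this
  · intro h
    have hO : IsOpen {x : ℝ × ℝ | RL (CR s) a x.1 x.2}ᶜ := ((adm_CR hm).isClosed a).isOpen_compl
    have hsub : ({(p : ℝ)} : Set ℝ) ×ˢ Icc (u : ℝ) v ⊆ {x : ℝ × ℝ | RL (CR s) a x.1 x.2}ᶜ := by
      rintro ⟨x, t⟩ ⟨hx, ht⟩ hR
      have hx' : x = (p : ℝ) := hx
      subst hx'
      exact h t ht hR
    obtain ⟨U, V, hU, hV, hpU, huvV, hUV⟩ :=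
      generalized_tube_lemma isCompact_singleton isCompact_Icc hO hsub
    obtain ⟨l1, u1, ⟨b1, b2⟩, b3⟩ := mem_nhds_iff_exists_Ioo_subset.mp
      (hU.mem_nhds (hpU rfl))
    obtain ⟨l2, u2, ⟨c1, c2⟩, c3⟩ := mem_nhds_iff_exists_Ioo_subset.mp
      (hV.mem_nhds (huvV (left_mem_Icc.mpr huv')))
    obtain ⟨l3, u3, ⟨d1, d2⟩, d3⟩ := mem_nhds_iff_exists_Ioo_subset.mp
      (hV.mem_nhds (huvV (right_mem_Icc.mpr huv')))
    obtain ⟨k, hk⟩ := small (lt_min (lt_min (sub_pos.mpr b1) (sub_pos.mpr b2))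
      (lt_min (sub_pos.mpr c1) (sub_pos.mpr d2)))
    have k1 : (iv k : ℝ) < p - l1 := hk.trans_le ((min_le_left _ _).trans (min_le_left _ _))
    have k2 : (iv k : ℝ) < u1 - p :=
      hk.trans_le ((min_le_left _ _).trans (min_le_right _ _))
    have k3 : (iv k : ℝ) < u - l2 :=
      hk.trans_le ((min_le_right _ _).trans (min_le_left _ _))
    have k4 : (iv k : ℝ) < u3 - v :=
      hk.trans_le ((min_le_right _ _).trans (min_le_right _ _))
    refine ⟨k, fun p' q' e1 e2 e3 hL => ?_⟩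
    have e1' : |(p' : ℝ) - p| < (iv k : ℝ) := by exact_mod_cast e1
    have e2' : (u : ℝ) - (iv k : ℝ) < q' := by exact_mod_cast e2
    have e3' : (q' : ℝ) < v + (iv k : ℝ) := by exact_mod_cast e3
    rw [abs_lt] at e1'
    have f1 : (p' : ℝ) ∈ U := b3 ⟨by linarith, by linarith⟩
    have f2 : (q' : ℝ) ∈ V := by
      rcases lt_or_ge (q' : ℝ) u with g | g
      · exact c3 ⟨by linarith, g.trans c2⟩
      · rcases le_or_gt (q' : ℝ) v with g' | g'
        · exact huvV ⟨g, g'⟩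
        · exact d3 ⟨d1.trans g', by linarith⟩
    exact hUV (show ((p' : ℝ), (q' : ℝ)) ∈ U ×ˢ V from ⟨f1, f2⟩)
      (show ((p' : ℝ), (q' : ℝ)) ∈ {x : ℝ × ℝ | RL (CR s) a x.1 x.2} from RL_of_LQ hL)

/-- The stages of the first marked points, for a code. -/
def stQ (s : Cod) : ℕ → ℚ → Prop
  | 0, p => ∃ a, (evL (evD s a) p ∨ evR (evD s a) p) ∨ ∃ y y', LQ s a p y ∧ LQ s a p y' ∧ y ≠ y'
  | k + 1, p => ∃ a, ∃ x, stQ s k x ∧ (evL (evY s a x) p ∨ evR (evY s a x) p)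

/-- The jumps are rational. -/
def JumpRat (s : Cod) (a : Ltr) : Prop := ∀ z1 z2 : ℚ, z1 < z2 →
  (∀ k : ℕ, ∃ p q p' q', LQ s a p q ∧ q < z1 ∧ LQ s a p' q' ∧ z2 < q' ∧
    |p - p'| < iv k) →
  ∃ x y1 y2, LQ s a x y1 ∧ LQ s a x y2 ∧ y1 ≤ z1 ∧ z2 ≤ y2

/-- The first marked points are rational. -/
structure RatE (s : Cod) : Prop where
  ratD : ∀ a, endRat (evD s a)
  jump : ∀ a, JumpRat s a
  ratY : ∀ k x, stQ s k x → ∀ a, endRat (evY s a x)

theorem stQ_St (hm : MonoQ s) (k : ℕ) : ∀ p, stQ s k p → (p : ℝ) ∈ St (CR s) k := by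
  induction k with
  | zero =>
    rintro p ⟨a, h1 | ⟨y, y', h1, h2, h3⟩⟩
    · refine ⟨a, Or.inl ?_⟩
      rw [(rp_D a).evL_iff, (rp_D a).evR_iff] at h1
      exact h1
    · exact ⟨a, Or.inr ⟨y, y', RL_of_LQ h1, RL_of_LQ h2, by exact_mod_cast h3⟩⟩
  | succ k ih =>
    rintro p ⟨a, x, hx, h1⟩
    refine ⟨a, x, ih x hx, ?_⟩
    rw [(rp_Y hm a x).evL_iff, (rp_Y hm a x).evR_iff] at h1
    exact h1

theorem St_stQ (hm : MonoQ s) (hr : RatE s) (k : ℕ) :
    ∀ x ∈ St (CR s) k, ∃ p : ℚ, x = p ∧ stQ s k p := by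
  have hA := adm_CR hm
  induction k with
  | zero =>
    rintro x ⟨a, h1 | ⟨y, y', h1, h2, h3⟩⟩
    · obtain ⟨p, rfl⟩ := ((rp_D a).endRat_iff isClosed_closure).mp (hr.ratD a) x h1
      refine ⟨p, rfl, a, Or.inl ?_⟩
      rw [(rp_D a).evL_iff, (rp_D a).evR_iff]
      exact h1
    · have key : ∀ y y' : ℝ, RL (CR s) a x y → RL (CR s) a x y' → y < y' →
          ∃ p : ℚ, x = p ∧ stQ s 0 p := by
        intro y y' h1 h2 h3
        obtain ⟨z1, e1, e2⟩ := exists_rat_btwn h3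
        obtain ⟨z2, e3, e4⟩ := exists_rat_btwn e2
        have e3' : z1 < z2 := by exact_mod_cast e3
        obtain ⟨x0, y1, y2, f1, f2, f3, f4⟩ := hr.jump a z1 z2 e3' fun k => by
          have h0 := inv_pos' k
          obtain ⟨p, q, g1, g2, g3, _, g4⟩ := (RL_CR a x y).mp h1 (x - (iv k : ℝ) / 2)
            (x + (iv k : ℝ) / 2) (y - 1) z1 (by linarith) (by linarith) (by linarith) e1
          obtain ⟨p', q', g1', g2', g3', g4', _⟩ := (RL_CR a x y').mp h2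
            (x - (iv k : ℝ) / 2) (x + (iv k : ℝ) / 2) z2 (y' + 1)
            (by linarith) (by linarith) e4 (by linarith)
          refine ⟨p, q, p', q', g1, by exact_mod_cast g4, g1', by exact_mod_cast g4', ?_⟩
          have : |(p : ℝ) - p'| < (iv k : ℝ) := by
            rw [abs_lt]
            constructor <;> linarith
          exact_mod_cast this
        have f1' := RL_of_LQ f1
        have f2' := RL_of_LQ f2
        have f3' : (y1 : ℝ) ≤ z1 := by exact_mod_cast f3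
        have f4' : (z2 : ℝ) ≤ y2 := by exact_mod_cast f4
        refine ⟨x0, ?_, a, Or.inr ⟨y1, y2, f1, f2, fun hc => ?_⟩⟩
        · rcases lt_trichotomy x x0 with h | h | h
          · exfalso
            rcases hA.inc_or_dec a with hi | hi
            · have := hi _ _ _ _ h2 f1' h
              linarith
            · have := hi _ _ _ _ h1 f2' h
              linarith
          · exact h
          · exfalso
            rcases hA.inc_or_dec a with hi | hi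
            · have := hi _ _ _ _ f2' h1 h
              linarith
            · have := hi _ _ _ _ f1' h2 h
              linarith
        · subst hc
          exact absurd (f4.trans f3) (not_le.mpr e3')
      rcases lt_or_gt_of_ne h3 with h4 | h4
      · exact key y y' h1 h2 h4
      · exact key y' y h2 h1 h4
  | succ k ih =>
    rintro y ⟨a, x, hx, h1⟩
    obtain ⟨p, rfl, hp⟩ := ih x hx
    obtain ⟨q, rfl⟩ := ((rp_Y hm a p).endRat_iff (hA.isClosed_row a p)).mp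
      (hr.ratY k p hp a) y h1
    refine ⟨q, rfl, a, p, hp, ?_⟩
    rw [(rp_Y hm a p).evL_iff, (rp_Y hm a p).evR_iff]
    exact h1

/-- Near a point of a closed set with rational end points there are rational points of the set. -/
theorem rat_near {S : Set ℝ} (hS : IsClosed S) (hr : ∀ t, LEnd S t ∨ REnd S t → ∃ p : ℚ, t = p)
    {y l u : ℝ} (hy : y ∈ S) (hl : l < y) (hu : y < u) : ∃ q : ℚ, (q : ℝ) ∈ S ∧ l < q ∧ q < u := by
  by_cases hsub : Ioo l u ⊆ S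
  · obtain ⟨q, h1, h2⟩ := exists_rat_btwn (hl.trans hu)
    exact ⟨q, hsub ⟨h1, h2⟩, h1, h2⟩
  · obtain ⟨w, hw, hwS⟩ := not_subset.mp hsub
    by_contra hc
    push Not at hc
    refine hwS (const (A := {t | LEnd S t ∨ REnd S t}) hS (fun t ht => ht) (fun t ht ht' => ?_) hy)
    obtain ⟨q, rfl⟩ := hr t ht'
    have h1 : (q : ℝ) ∈ S := by rcases ht' with h | h <;> exact h.1
    have h2 : (q : ℝ) ∈ Ioo l u := ordConnected_Ioo.uIcc_subset ⟨hl, hu⟩ hw ht
    exact absurd h2.2 (not_lt.mpr (hc q h1 h2.1))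

theorem isClosed_proj' {C : ℕ → Set (ℝ × ℝ)} (h : Adm C) (a : Ltr) (x1 x2 y1 y2 : ℝ) {V : Set ℝ}
    (hV : IsClosed V) : IsClosed {x | x ∈ Icc x1 x2 ∧ ∃ y ∈ Icc y1 y2, y ∈ V ∧ RL C a x y} := by
  have h1 : IsCompact ({p : ℝ × ℝ | RL C a p.1 p.2} ∩ Icc x1 x2 ×ˢ (V ∩ Icc y1 y2)) :=
    (isCompact_Icc.prod (isCompact_Icc.inter_left hV)).inter_left (h.isClosed a)
  have h2 : {x | x ∈ Icc x1 x2 ∧ ∃ y ∈ Icc y1 y2, y ∈ V ∧ RL C a x y} =
      Prod.fst '' ({p : ℝ × ℝ | RL C a p.1 p.2} ∩ Icc x1 x2 ×ˢ (V ∩ Icc y1 y2)) := by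
    ext x
    constructor
    · rintro ⟨hx, y, hy, hyV, hxy⟩
      exact ⟨(x, y), ⟨hxy, hx, hyV, hy⟩, rfl⟩
    · rintro ⟨⟨x', y⟩, ⟨hxy, hx, hyV, hy⟩, rfl⟩
      exact ⟨hx, y, hy, hyV, hxy⟩
  rw [h2]
  exact (h1.image continuous_fst).isClosed

/-- Two parts of a relation that approach each other meet in a jump. -/
theorem jump_limit {C : ℕ → Set (ℝ × ℝ)} (h : Adm C) (a : Ltr) {V1 V2 : Set ℝ}
    (hV1 : IsClosed V1) (hV2 : IsClosed V2)
    (hle : ∀ t y t' y', RL C a t y → y ∈ V1 → RL C a t' y' → y' ∈ V2 → t ≤ t')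
    (happ : ∀ ε : ℝ, 0 < ε → ∃ t y t' y', RL C a t y ∧ y ∈ V1 ∧ RL C a t' y' ∧ y' ∈ V2 ∧
      t' < t + ε) : ∃ x y y', RL C a x y ∧ y ∈ V1 ∧ RL C a x y' ∧ y' ∈ V2 := by
  obtain ⟨t0, y0, t1, y1, a1, a2, a3, a4, _⟩ := happ 1 one_pos
  set U1 : Set ℝ := {t | ∃ y ∈ V1, RL C a t y} with hU1
  have hne : U1.Nonempty := ⟨t0, y0, a2, a1⟩
  have hbd : BddAbove U1 := ⟨t1, fun t ⟨y, hy, hty⟩ => hle t y t1 y1 hty hy a3 a4⟩
  set x := sSup U1 with hx
  have hx1 : ∀ t y, RL C a t y → y ∈ V1 → t ≤ x := fun t y hty hy => le_csSup hbd ⟨y, hy, hty⟩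
  have hx2 : ∀ t y, RL C a t y → y ∈ V2 → x ≤ t := fun t y hty hy =>
    csSup_le hne fun t' ⟨y', hy', hty'⟩ => hle t' y' t y hty' hy' hty hy
  have hxU : ∃ y ∈ V1, RL C a x y := by
    by_contra hc
    have h1 : x ∈ closure (U1 ∩ Ioo t0 t1) := by
      rw [mem_closure_iff_nhds]
      intro U hU
      obtain ⟨l, u, ⟨b1, b2⟩, b3⟩ := mem_nhds_iff_exists_Ioo_subset.mp hU
      have ht0 : t0 < x := lt_of_le_of_ne (hx1 t0 y0 a1 a2)
        (fun e => hc ⟨y0, a2, e ▸ a1⟩)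
      obtain ⟨t, ht, htl⟩ := exists_lt_of_lt_csSup hne (max_lt b1 ht0)
      obtain ⟨y, hy, hty⟩ := ht
      have htx : t < x := lt_of_le_of_ne (hx1 t y hty hy) (fun e => hc ⟨y, hy, e ▸ hty⟩)
      exact ⟨t, b3 ⟨lt_of_le_of_lt (le_max_left _ _) htl, htx.trans b2⟩, ⟨y, hy, hty⟩,
        lt_of_le_of_lt (le_max_right _ _) htl, htx.trans_le (hx2 t1 y1 a3 a4)⟩
    have h2 : x ∈ {t | t ∈ Icc t0 t1 ∧ ∃ y ∈ Icc (min y0 y1) (max y0 y1), y ∈ V1 ∧ RL C a t y} := by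
      refine (isClosed_proj' h a t0 t1 _ _ hV1).closure_subset_iff.mpr ?_ h1
      rintro t ⟨⟨y, hy, hty⟩, ht0, ht1⟩
      exact ⟨⟨ht0.le, ht1.le⟩, y, h.between a a1 a3 hty ht0 ht1, hy, hty⟩
    obtain ⟨_, y, _, hy, hty⟩ := h2
    exact hc ⟨y, hy, hty⟩
  obtain ⟨yx, hyx, hxyx⟩ := hxU
  refine ⟨x, yx, ?_⟩
  by_contra hc
  push Not at hc
  have hc' : ∀ y', RL C a x y' → y' ∉ V2 := fun y' e => hc y' hxyx hyx e
  have hxt1 : x < t1 := lt_of_le_of_ne (hx2 t1 y1 a3 a4) (fun e => hc' y1 (e ▸ a3) a4)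
  have h1 : x ∈ closure ({t | ∃ y ∈ V2, RL C a t y} ∩ Ioo x t1) := by
    rw [mem_closure_iff_nhds]
    intro U hU
    obtain ⟨l, u, ⟨b1, b2⟩, b3⟩ := mem_nhds_iff_exists_Ioo_subset.mp hU
    obtain ⟨t, y, t', y', c1, c2, c3, c4, c5⟩ := happ (min (u - x) (t1 - x))
      (lt_min (by linarith) (by linarith))
    have d1 := hx1 t y c1 c2
    have d2 : x < t' := lt_of_le_of_ne (hx2 t' y' c3 c4) (fun e => hc' y' (e ▸ c3) c4)
    have d3 : t' < u := by linarith [min_le_left (u - x) (t1 - x)]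
    have d4 : t' < t1 := by linarith [min_le_right (u - x) (t1 - x)]
    exact ⟨t', b3 ⟨b1.trans d2, d3⟩, ⟨y', c4, c3⟩, d2, d4⟩
  have h2 : x ∈ {t | t ∈ Icc x t1 ∧ ∃ y ∈ Icc (min yx y1) (max yx y1), y ∈ V2 ∧ RL C a t y} := by
    refine (isClosed_proj' h a x t1 _ _ hV2).closure_subset_iff.mpr ?_ h1
    rintro t ⟨⟨y, hy, hty⟩, ht0, ht1⟩
    exact ⟨⟨ht0.le, ht1.le⟩, y, h.between a hxyx a3 hty ht0 ht1, hy, hty⟩
  obtain ⟨_, y, _, hy, hty⟩ := h2
  exact hc' y hty hy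

/-- If the first marked points are rational, then the conditions hold. -/
theorem ratE_of (hm : MonoQ s) (hcl : ∀ a p q, LQ s a p q ↔ RL (CR s) a p q)
    (hE : ∀ x ∈ E1 (CR s), ∃ p : ℚ, x = p) : RatE s := by
  have hA := adm_CR hm
  have hrow : ∀ (x : ℝ), x ∈ E1 (CR s) → ∀ a t, LEnd {z | RL (CR s) a x z} t ∨
      REnd {z | RL (CR s) a x z} t → ∃ p : ℚ, t = p := fun x hx a t ht => hE t (E1.img hx ht)
  refine ⟨fun a => ?_, fun a => ?_, fun k x hx a => ?_⟩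
  · rw [(rp_D a).endRat_iff isClosed_closure]
    exact fun t ht => hE t (E1.ofDom ht)
  · intro z1 z2 hz happ
    have hz' : (z1 : ℝ) < z2 := by exact_mod_cast hz
    have hjump : ∃ x y y', RL (CR s) a x y ∧ y ≤ z1 ∧ RL (CR s) a x y' ∧ z2 ≤ y' := by
      rcases hA.inc_or_dec a with hi | hi
      · obtain ⟨x, y, y', h1, h2, h3, h4⟩ := jump_limit hA a (V1 := Iic (z1 : ℝ))
          (V2 := Ici (z2 : ℝ)) isClosed_Iic isClosed_Ici (fun t y t' y' h1 h2 h3 h4 => by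
            by_contra hc
            have h5 := hi _ _ _ _ h3 h1 (not_le.mp hc)
            have h2' : y ≤ z1 := h2
            have h4' : (z2 : ℝ) ≤ y' := h4
            linarith) (fun ε hε => by
            obtain ⟨k, hk⟩ := small hε
            obtain ⟨p, q, p', q', e1, e2, e3, e4, e5⟩ := happ k
            refine ⟨p, q, p', q', RL_of_LQ e1, ?_, RL_of_LQ e3, ?_, ?_⟩
            · show (q : ℝ) ≤ z1
              exact_mod_cast e2.le
            · show (z2 : ℝ) ≤ q'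
              exact_mod_cast e4.le
            · have e6 : |(p : ℝ) - p'| < (iv k : ℝ) := by exact_mod_cast e5
              rw [abs_lt] at e6
              linarith)
        exact ⟨x, y, y', h1, h2, h3, h4⟩
      · obtain ⟨x, y, y', h1, h2, h3, h4⟩ := jump_limit hA a (V1 := Ici (z2 : ℝ))
          (V2 := Iic (z1 : ℝ)) isClosed_Ici isClosed_Iic (fun t y t' y' h1 h2 h3 h4 => by
            by_contra hc
            have h5 := hi _ _ _ _ h3 h1 (not_le.mp hc)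
            have h2' : (z2 : ℝ) ≤ y := h2
            have h4' : y' ≤ (z1 : ℝ) := h4
            linarith) (fun ε hε => by
            obtain ⟨k, hk⟩ := small hε
            obtain ⟨p, q, p', q', e1, e2, e3, e4, e5⟩ := happ k
            refine ⟨p', q', p, q, RL_of_LQ e3, ?_, RL_of_LQ e1, ?_, ?_⟩
            · show (z2 : ℝ) ≤ q'
              exact_mod_cast e4.le
            · show (q : ℝ) ≤ z1
              exact_mod_cast e2.le
            · have e6 : |(p : ℝ) - p'| < (iv k : ℝ) := by exact_mod_cast e5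
              rw [abs_lt] at e6
              linarith)
        exact ⟨x, y', y, h3, h4, h1, h2⟩
    obtain ⟨x, y, y', h1, h2, h3, h4⟩ := hjump
    have hxE : x ∈ E1 (CR s) := E1.ofJump h1 h3 (by intro e; linarith)
    obtain ⟨x0, rfl⟩ := hE x hxE
    have hr := hrow x0 hxE a
    have hcl' := hA.isClosed_row a x0
    obtain ⟨y1, hy1, hy1'⟩ : ∃ y1 : ℚ, RL (CR s) a x0 y1 ∧ y1 ≤ z1 := by
      rcases h2.eq_or_lt with e | e
      · exact ⟨z1, e ▸ h1, le_rfl⟩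
      · obtain ⟨q, e1, _, e3⟩ := rat_near hcl' hr (show y ∈ {z | RL (CR s) a x0 z} from h1)
          (sub_one_lt y) e
        exact ⟨q, e1, by exact_mod_cast e3.le⟩
    obtain ⟨y2, hy2, hy2'⟩ : ∃ y2 : ℚ, RL (CR s) a x0 y2 ∧ z2 ≤ y2 := by
      rcases h4.eq_or_lt with e | e
      · exact ⟨z2, e ▸ h3, le_rfl⟩
      · obtain ⟨q, e1, e2, _⟩ := rat_near hcl' hr (show y' ∈ {z | RL (CR s) a x0 z} from h3)
          e (lt_add_one y')
        exact ⟨q, e1, by exact_mod_cast e2.le⟩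
    exact ⟨x0, y1, y2, (hcl a x0 y1).mpr hy1, (hcl a x0 y2).mpr hy2, hy1', hy2'⟩
  · rw [(rp_Y hm a x).endRat_iff (hA.isClosed_row a x)]
    exact hrow x ⟨k, stQ_St hm k x hx⟩ a

theorem E1_rat (hm : MonoQ s) (hr : RatE s) (p : ℚ) :
    (p : ℝ) ∈ E1 (CR s) ↔ ∃ k, stQ s k p := by
  constructor
  · rintro ⟨k, hk⟩
    obtain ⟨q, hq, hq'⟩ := St_stQ hm hr k _ hk
    have : p = q := by exact_mod_cast hq
    exact ⟨k, this ▸ hq'⟩
  · rintro ⟨k, hk⟩
    exact ⟨k, stQ_St hm k p hk⟩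

/-- The event for the closure of the first marked points. -/
def evA1 (s : Cod) : ℚ → ℚ → Prop := evC fun p => ∃ k, stQ s k p

theorem rp_A1 (hm : MonoQ s) (hr : RatE s) : Rp (evA1 s) (A1 (CR s)) := by
  have h := rp_closure fun p : ℚ => ∃ k, stQ s k p
  have h1 : {x : ℝ | ∃ r : ℚ, (∃ k, stQ s k r) ∧ x = r} = E1 (CR s) := by
    ext x
    constructor
    · rintro ⟨r, hr', rfl⟩
      exact (E1_rat hm hr r).mpr hr'
    · rintro ⟨k, hk⟩
      obtain ⟨q, rfl, hq'⟩ := St_stQ hm hr k _ hk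
      exact ⟨q, ⟨k, hq'⟩, rfl⟩
  rw [h1] at h
  exact h

/-- Words on the rationals. -/
def PQ (s : Cod) : List Ltr → ℚ → ℚ → Prop
  | [], t, y => t = y ∧ evA1 s t t
  | a :: w, t, y => ∃ z, (LQ s a t z ∧ evA1 s t t ∧ evA1 s z z) ∧ PQ s w z y

/-- The rationals are invariant. -/
def InvQ (s : Cod) : Prop := ∀ a p, evA1 s p p → ¬ evD s a p p → ∃ q, LQ s a p q

/-- The standing assumptions. -/
structure Std (s : Cod) : Prop where
  mono : MonoQ s
  cl : ∀ a p q, LQ s a p q ↔ RL (CR s) a p q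
  rat : RatE s
  inv : InvQ s

theorem PL_rat (h : Std s) {a : Ltr} {p : ℚ} {y : ℝ} (hp : PL (CR s) a p y) :
    ∃ q : ℚ, y = q ∧ LQ s a p q := by
  have h1 : evA1 s p p := ((rp_A1 h.mono h.rat).pt p).mpr hp.2.1
  have h2 : ¬ evD s a p p := ((rp_D a).pt' p).mpr (subset_closure ⟨y, hp.1⟩)
  obtain ⟨q, hq⟩ := h.inv a p h1 h2
  exact ⟨q, val_unique (fun hc => hp.2.1 (E1_sub_A1 hc)) hp.1 (RL_of_LQ hq), hq⟩

theorem PW_rat (h : Std s) {w : List Ltr} : ∀ {p : ℚ} {y : ℝ}, PW (CR s) w p y →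
    ∃ q : ℚ, y = q ∧ PQ s w p q := by
  induction w with
  | nil =>
    rintro p y ⟨h1, h2⟩
    exact ⟨p, h1.symm, rfl, ((rp_A1 h.mono h.rat).pt p).mpr h2⟩
  | cons a w ih =>
    rintro p y ⟨z, hz, h2⟩
    obtain ⟨q, rfl, hq⟩ := PL_rat h hz
    obtain ⟨q', h3, h4⟩ := ih h2
    exact ⟨q', h3, q, ⟨hq, ((rp_A1 h.mono h.rat).pt p).mpr hz.2.1,
      ((rp_A1 h.mono h.rat).pt q).mpr hz.2.2⟩, h4⟩

theorem PQ_PW (h : Std s) {w : List Ltr} : ∀ {p q : ℚ}, PQ s w p q → PW (CR s) w p q := by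
  induction w with
  | nil =>
    rintro p q ⟨rfl, h2⟩
    exact ⟨rfl, ((rp_A1 h.mono h.rat).pt p).mp h2⟩
  | cons a w ih =>
    rintro p q ⟨z, ⟨h1, h2, h3⟩, h4⟩
    exact ⟨z, ⟨RL_of_LQ h1, ((rp_A1 h.mono h.rat).pt p).mp h2,
      ((rp_A1 h.mono h.rat).pt z).mp h3⟩, ih h4⟩

theorem PQ_iff (h : Std s) {w : List Ltr} {p q : ℚ} : PQ s w p q ↔ PW (CR s) w p q := by
  refine ⟨PQ_PW h, fun h1 => ?_⟩
  obtain ⟨q', h2, h3⟩ := PW_rat h h1
  have : q = q' := by exact_mod_cast h2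
  rwa [this]

/-- Rational points near a point of a rational interval, in the interval. -/
theorem rat_in {p q : ℚ} {t l u : ℝ} (ht : t ∈ Icc (p : ℝ) q) (hl : l < t) (hu : t < u) :
    ∃ x : ℚ, p ≤ x ∧ x ≤ q ∧ l < x ∧ x < u := by
  rcases ht.2.eq_or_lt with h1 | h1
  · exact ⟨q, by exact_mod_cast ht.1.trans ht.2, le_rfl, h1 ▸ hl, h1 ▸ hu⟩
  · obtain ⟨x, hx1, hx2⟩ := exists_rat_btwn (lt_min h1 hu)
    have h2 : (x : ℝ) < q := lt_of_lt_of_le hx2 (min_le_left _ _)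
    exact ⟨x, by exact_mod_cast (lt_of_le_of_lt ht.1 hx1).le, by exact_mod_cast h2.le,
      hl.trans hx1, lt_of_lt_of_le hx2 (min_le_right _ _)⟩

/-- The event for the fixed points of a word. -/
def evF2 (s : Cod) (w : List Ltr) (p q : ℚ) : Prop := evA1 s p q ∧
  ∃ k : ℕ, ∀ t t', p ≤ t → t ≤ q → PQ s w t t' → iv k ≤ |t' - t|

theorem rp_F2 (h : Std s) (w : List Ltr) : Rp (evF2 s w) (FixS (CR s) w) := by
  have hA := adm_CR h.mono
  intro p q hpq
  have hpq' : (p : ℝ) ≤ q := by exact_mod_cast hpq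
  constructor
  · rintro ⟨h1, k, hk⟩ t ht hF
    rw [rp_A1 h.mono h.rat p q hpq] at h1
    rcases hF with hF | hF
    · exact h1 t ht hF
    · have h0 := inv_pos' k
      obtain ⟨l', u', e1, e2, _, e4⟩ := hA.PW_cont (show PW (CR s) w t t from hF)
        (show t - (iv k : ℝ) / 2 < t by linarith)
        (show t < t + (iv k : ℝ) / 2 by linarith)
      obtain ⟨x, x1, x2, x3, x4⟩ := rat_in ht
        (max_lt e1 (show t - (iv k : ℝ) / 2 < t by linarith))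
        (lt_min e2 (show t < t + (iv k : ℝ) / 2 by linarith))
      obtain ⟨z, hz, z1, z2⟩ := e4 x ((le_max_left _ _).trans x3.le)
        (x4.le.trans (min_le_left _ _))
      obtain ⟨z', rfl, hz'⟩ := PW_rat h hz
      have h3 : (iv k : ℝ) ≤ |(z' : ℝ) - x| := by exact_mod_cast hk x z' x1 x2 hz'
      have x3' := lt_of_le_of_lt (le_max_right _ _) x3
      have x4' := lt_of_lt_of_le x4 (min_le_right _ _)
      have h4 : |(z' : ℝ) - x| < (iv k : ℝ) := by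
        rw [abs_lt]
        constructor <;> linarith
      linarith
  · intro hF
    have h1 : ∀ t ∈ Icc (p : ℝ) q, t ∉ A1 (CR s) := fun t ht hc => hF t ht (Or.inl hc)
    have hG : ∀ t ∈ Icc (p : ℝ) q, SG (A1 (CR s)) p t := by
      intro t ht x hx
      rw [uIcc_of_le ht.1] at hx
      exact h1 x ⟨hx.1, hx.2.trans ht.2⟩
    refine ⟨(rp_A1 h.mono h.rat p q hpq).mpr h1, ?_⟩
    by_cases hdef : ∃ y, PW (CR s) w p y
    · obtain ⟨y, hy⟩ := hdef
      have hdef' : ∀ t ∈ Icc (p : ℝ) q, ∃ z, PW (CR s) w t z := fun t ht => by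
        obtain ⟨z, hz, _⟩ := hA.PW_gap hy (hG t ht)
        exact ⟨z, hz⟩
      have hc : ContinuousOn (fun t : ℝ => |vf (CR s) w t - t|) (Icc (p : ℝ) q) := by
        intro t ht
        obtain ⟨z, hz⟩ := hdef' t ht
        exact ((hA.vf_cont hz).sub continuousAt_id).abs.continuousWithinAt
      obtain ⟨m, hm, hmin⟩ := isCompact_Icc.exists_isMinOn ⟨(p : ℝ), left_mem_Icc.mpr hpq'⟩ hc
      obtain ⟨zm, hzm⟩ := hdef' m hm
      have hpos : 0 < |vf (CR s) w m - m| := by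
        rw [abs_pos, vf_spec hzm]
        intro hc
        have : zm = m := by linarith
        subst this
        exact hF zm hm (Or.inr hzm)
      obtain ⟨k, hk⟩ := small hpos
      refine ⟨k, fun t t' ht1 ht2 htt => ?_⟩
      have h2 := PQ_PW h htt
      have ht : (t : ℝ) ∈ Icc (p : ℝ) q := ⟨by exact_mod_cast ht1, by exact_mod_cast ht2⟩
      have h3 : |vf (CR s) w m - m| ≤ |vf (CR s) w t - t| := hmin ht
      rw [vf_spec h2] at h3
      have h4 : (iv k : ℝ) ≤ |(t' : ℝ) - t| := by linarith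
      exact_mod_cast h4
    · refine ⟨0, fun t t' ht1 ht2 htt => ?_⟩
      have h2 := PQ_PW h htt
      have ht : (t : ℝ) ∈ Icc (p : ℝ) q := ⟨by exact_mod_cast ht1, by exact_mod_cast ht2⟩
      obtain ⟨z, hz, _⟩ := hA.PW_gap h2 (hG t ht).symm
      exact absurd ⟨z, hz⟩ hdef

/-- Wandering intervals with rational end points. -/
def wiQ (s : Cod) (u v : ℚ) : Prop := evA1 s u v ∧
  ∀ w t t', u < t → t < v → u < t' → t' < v → PQ s w t t' → t = t'

/-- The event for the nonwandering set. -/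
def evN2 (s : Cod) (p q : ℚ) : Prop :=
  ∃ k : ℕ, ∀ x, p ≤ x → x ≤ q → wiQ s (x - iv k) (x + iv k)

theorem wiQ_iff (h : Std s) {u v : ℚ} (huv : u ≤ v) : wiQ s u v ↔ WI2 (CR s) u v := by
  have hA := adm_CR h.mono
  constructor
  · rintro ⟨h1, h2⟩
    rw [rp_A1 h.mono h.rat u v huv] at h1
    refine ⟨fun t ht1 ht2 => h1 t ⟨ht1, ht2⟩, fun w t t' a1 a2 a3 a4 hw => ?_⟩
    by_contra hne
    obtain ⟨m1, m2, n1, n2, b1, b2, b3, b4, b5⟩ : ∃ m1 m2 n1 n2 : ℝ, m1 < t ∧ t < m2 ∧ n1 < t' ∧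
        t' < n2 ∧ ∀ x z, m1 < x → x < m2 → n1 < z → z < n2 → x ≠ z := by
      rcases lt_or_gt_of_ne hne with e | e
      · obtain ⟨m, hm1, hm2⟩ := exists_between e
        exact ⟨t - 1, m, m, t' + 1, by linarith, hm1, hm2, by linarith, fun x z _ c1 c2 _ =>
          (c1.trans c2).ne⟩
      · obtain ⟨m, hm1, hm2⟩ := exists_between e
        exact ⟨m, t + 1, t' - 1, m, hm2, by linarith, by linarith, hm1, fun x z c1 _ _ c2 =>
          (c2.trans c1).ne'⟩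
    obtain ⟨l', u', e1, e2, _, e4⟩ := hA.PW_cont hw (max_lt a3 b3) (lt_min a4 b4)
    obtain ⟨x, hx1, hx2⟩ := exists_rat_btwn (show max (max l' u) m1 < min (min u' v) m2 from
      (max_lt (max_lt e1 a1) b1).trans (lt_min (lt_min e2 a2) b2))
    have x1 : max l' (u : ℝ) < x := lt_of_le_of_lt (le_max_left _ _) hx1
    have x2 : m1 < x := lt_of_le_of_lt (le_max_right _ _) hx1
    have x3 : (x : ℝ) < min u' v := lt_of_lt_of_le hx2 (min_le_left _ _)
    have x4 : (x : ℝ) < m2 := lt_of_lt_of_le hx2 (min_le_right _ _)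
    have x5 : l' < x := lt_of_le_of_lt (le_max_left _ _) x1
    have x6 : (u : ℝ) < x := lt_of_le_of_lt (le_max_right _ _) x1
    have x7 : (x : ℝ) < u' := lt_of_lt_of_le x3 (min_le_left _ _)
    have x8 : (x : ℝ) < v := lt_of_lt_of_le x3 (min_le_right _ _)
    obtain ⟨z, hz, z1, z2⟩ := e4 x x5.le x7.le
    obtain ⟨z', rfl, hz'⟩ := PW_rat h hz
    have z3 : (u : ℝ) < z' := lt_of_le_of_lt (le_max_left _ _) z1
    have z4 : n1 < z' := lt_of_le_of_lt (le_max_right _ _) z1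
    have z5 : (z' : ℝ) < v := lt_of_lt_of_le z2 (min_le_left _ _)
    have z6 : (z' : ℝ) < n2 := lt_of_lt_of_le z2 (min_le_right _ _)
    have h3 := h2 w x z' (by exact_mod_cast x6) (by exact_mod_cast x8) (by exact_mod_cast z3)
      (by exact_mod_cast z5) hz'
    exact b5 x z' x2 x4 z4 z6 (by rw [h3])
  · rintro ⟨h1, h2⟩
    refine ⟨(rp_A1 h.mono h.rat u v huv).mpr fun t ht => h1 t ht.1 ht.2,
      fun w t t' a1 a2 a3 a4 hw => ?_⟩
    have := h2 w t t' (by exact_mod_cast a1) (by exact_mod_cast a2) (by exact_mod_cast a3)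
      (by exact_mod_cast a4) (PQ_PW h hw)
    exact_mod_cast this

theorem WI2.mono {C : ℕ → Set (ℝ × ℝ)} {u v u' v' : ℝ} (h : WI2 C u v) (h1 : u ≤ u')
    (h2 : v' ≤ v) : WI2 C u' v' :=
  ⟨fun t a1 a2 => h.1 t (h1.trans a1) (a2.trans h2), fun w t t' a1 a2 a3 a4 hw =>
    h.2 w t t' (lt_of_le_of_lt h1 a1) (lt_of_lt_of_le a2 h2) (lt_of_le_of_lt h1 a3)
      (lt_of_lt_of_le a4 h2) hw⟩

theorem rp_N2 (h : Std s) : Rp (evN2 s) (NWS (CR s)) := by
  intro p q hpq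
  constructor
  · rintro ⟨k, hk⟩ t ht hmem
    have hn0 := inv_pos' k
    have hn0' : (0 : ℚ) < iv k := iv_pos k
    obtain ⟨x, hx1, hx2, hx3, hx4⟩ := rat_in ht (show t - (iv k : ℝ) < t by linarith)
      (show t < t + (iv k : ℝ) by linarith)
    have hW := (wiQ_iff h (by linarith)).mp (hk x hx1 hx2)
    push_cast at hW
    exact hmem _ _ (by linarith) (by linarith) hW
  · intro hF
    have hopen : ∀ i : {w : ℝ × ℝ // WI2 (CR s) w.1 w.2}, IsOpen (Ioo i.1.1 i.1.2) :=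
      fun i => isOpen_Ioo
    have hcov : Icc (p : ℝ) q ⊆ ⋃ i : {w : ℝ × ℝ // WI2 (CR s) w.1 w.2}, Ioo i.1.1 i.1.2 := by
      intro t ht
      have h1 : ¬ ∀ u v, u < t → t < v → ¬ WI2 (CR s) u v := hF t ht
      push Not at h1
      obtain ⟨u, v, hu, hv, hW⟩ := h1
      exact mem_iUnion.mpr ⟨⟨(u, v), hW⟩, hu, hv⟩
    obtain ⟨δ, hδ, hδ'⟩ := lebesgue_number_lemma_of_metric isCompact_Icc hopen hcov
    obtain ⟨k, hk⟩ := small hδ
    refine ⟨k, fun x hx1 hx2 => ?_⟩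
    have hn0' : (0 : ℚ) < iv k := iv_pos k
    rw [wiQ_iff h (by linarith)]
    obtain ⟨i, hi⟩ := hδ' x ⟨by exact_mod_cast hx1, by exact_mod_cast hx2⟩
    rw [Real.ball_eq_Ioo] at hi
    have hlt : (x : ℝ) - δ < x + δ := by linarith
    obtain ⟨h1, h2⟩ := (Ioo_subset_Ioo_iff hlt).mp hi
    push_cast
    refine WI2.mono i.2 ?_ ?_
    · linarith
    · linarith

/-- The event that `e` is an end point of a member of the second family. -/
def evE2 (s : Cod) (e : ℚ) : Prop :=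
  (∃ k, stQ s k e) ∨ (evL (evA1 s) e ∨ evR (evA1 s) e) ∨
  (∃ w, evL (evF2 s w) e ∨ evR (evF2 s w) e) ∨ evL (evN2 s) e ∨ evR (evN2 s) e

/-- The event for the closure of the marked points. -/
def evA2 (s : Cod) : ℚ → ℚ → Prop := evC (evE2 s)

/-- Good codes. -/
structure GoodC (s : Cod) : Prop where
  mono : MonoQ s
  cl : ∀ n p q, CQ s n p q ↔ ¬ evY s (n, true) p q q
  rat : RatE s
  inv : InvQ s
  ratA1 : endRat (evA1 s)
  ratF : ∀ w, endRat (evF2 s w)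
  ratN : endRat (evN2 s)
  ratA2 : endRat (evA2 s)
  inter : ∀ p : ℚ, ¬ evA2 s p p → evE2 s p ∨ evL (evA2 s) p ∨ evR (evA2 s) p
  tr : ∀ p q : ℚ, p ≤ q → ¬ evN2 s p p → evA2 s p q → ∃ w, PQ s w p q

theorem cl_iff (hm : MonoQ s) : (∀ n p q, CQ s n p q ↔ ¬ evY s (n, true) p q q) ↔
    ∀ a p q, LQ s a p q ↔ RL (CR s) a p q := by
  constructor
  · intro h a p q
    obtain ⟨n, b⟩ := a
    cases b
    · have h1 : RL (CR s) (n, false) (p : ℝ) q ↔ RL (CR s) (n, true) (q : ℝ) p := Iff.rfl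
      have h2 : LQ s (n, false) p q ↔ CQ s n q p := Iff.rfl
      rw [h1, h2, h n q p, (rp_Y hm (n, true) q).pt']
      exact Iff.rfl
    · have h2 : LQ s (n, true) p q ↔ CQ s n p q := Iff.rfl
      rw [h2, h n p q, (rp_Y hm (n, true) p).pt']
      exact Iff.rfl
  · intro h n p q
    rw [(rp_Y hm (n, true) p).pt']
    exact h (n, true) p q

theorem GoodC.std (h : GoodC s) : Std s :=
  ⟨h.mono, (cl_iff h.mono).mp h.cl, h.rat, h.inv⟩

theorem evE2_iff (h : Std s) (e : ℚ) : evE2 s e ↔ (e : ℝ) ∈ EE (Fam2 (CR s)) := by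
  have r1 := rp_A1 h.mono h.rat
  unfold evE2
  rw [r1.evL_iff, r1.evR_iff, (rp_N2 h).evL_iff, (rp_N2 h).evR_iff, ← E1_rat h.mono h.rat e]
  constructor
  · rintro (h1 | h1 | ⟨w, h1⟩ | h1)
    · exact E1_sub_EE h1
    · exact ⟨_, Fam2.a1, h1⟩
    · rw [(rp_F2 h w).evL_iff, (rp_F2 h w).evR_iff] at h1
      exact ⟨_, Fam2.fix w, h1⟩
    · exact ⟨_, Fam2.nws, h1⟩
  · rintro ⟨S, hS, he⟩
    rcases hS with ((⟨e', he1, rfl⟩ | hS) | ⟨w, rfl⟩) | hS
    · left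
      have : (e : ℝ) ∈ ({e'} : Set ℝ) := by rcases he with he | he <;> exact he.1
      rw [mem_singleton_iff.mp this]
      exact he1
    · rw [mem_singleton_iff.mp hS] at he
      exact Or.inr (Or.inl he)
    · right; right; left
      refine ⟨w, ?_⟩
      rw [(rp_F2 h w).evL_iff, (rp_F2 h w).evR_iff]
      exact he
    · rw [mem_singleton_iff.mp hS] at he
      exact Or.inr (Or.inr (Or.inr he))

theorem rat_EE2_iff (h : Std s) :
    (endRat (evA1 s) ∧ (∀ w, endRat (evF2 s w)) ∧ endRat (evN2 s)) ↔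
      ∀ t ∈ EE (Fam2 (CR s)), ∃ p : ℚ, t = p := by
  have hA := adm_CR h.mono
  have r1 := rp_A1 h.mono h.rat
  rw [r1.endRat_iff isClosed_A1, (rp_N2 h).endRat_iff isClosed_NWS]
  constructor
  · rintro ⟨h1, h2, h3⟩ t ⟨S, hS, he⟩
    rcases hS with ((⟨e', he1, rfl⟩ | hS) | ⟨w, rfl⟩) | hS
    · have : t ∈ ({e'} : Set ℝ) := by rcases he with he | he <;> exact he.1
      obtain ⟨k, hk⟩ := he1
      obtain ⟨p, hp, _⟩ := St_stQ h.mono h.rat k e' hk
      exact ⟨p, (mem_singleton_iff.mp this).trans hp⟩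
    · rw [mem_singleton_iff.mp hS] at he
      exact h1 t he
    · exact ((rp_F2 h w).endRat_iff (hA.isClosed_FixS w)).mp (h2 w) t he
    · rw [mem_singleton_iff.mp hS] at he
      exact h3 t he
  · intro h1
    refine ⟨fun t ht => h1 t ⟨_, Fam2.a1, ht⟩, fun w => ?_, fun t ht => h1 t ⟨_, Fam2.nws, ht⟩⟩
    rw [(rp_F2 h w).endRat_iff (hA.isClosed_FixS w)]
    exact fun t ht => h1 t ⟨_, Fam2.fix w, ht⟩

theorem rp_A2 (h : Std s) (hrat : ∀ t ∈ EE (Fam2 (CR s)), ∃ p : ℚ, t = p) :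
    Rp (evA2 s) (A2 (CR s)) := by
  have h0 := rp_closure (evE2 s)
  have h1 : {x : ℝ | ∃ r : ℚ, evE2 s r ∧ x = r} = EE (Fam2 (CR s)) := by
    ext x
    constructor
    · rintro ⟨r, hr, rfl⟩
      exact (evE2_iff h r).mp hr
    · intro hx
      obtain ⟨p, rfl⟩ := hrat x hx
      exact ⟨p, (evE2_iff h p).mpr hx, rfl⟩
  rw [h1] at h0
  exact h0

theorem goodC_iff : GoodC s ↔ MonoQ s ∧ (∀ a p q, LQ s a p q ↔ RL (CR s) a p q) ∧
    Good2 (CR s) RQ := by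
  constructor
  · intro h
    have hs := h.std
    have hA := adm_CR h.mono
    have hrat := (rat_EE2_iff hs).mp ⟨h.ratA1, h.ratF, h.ratN⟩
    have rA := rp_A2 hs hrat
    have hratA := (rA.endRat_iff (isClosed_AA _)).mp h.ratA2
    refine ⟨h.mono, hs.cl, ?_, ?_, ?_, ?_⟩
    · rintro p (hp | hp)
      · obtain ⟨q, rfl⟩ := hrat p hp
        exact ⟨q, rfl⟩
      · obtain ⟨q, rfl⟩ := hratA p hp
        exact ⟨q, rfl⟩
    · rintro _ ⟨q, rfl⟩ hq
      have h1 : ¬ evA2 s q q := (rA.pt' q).mpr hq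
      rcases h.inter q h1 with h2 | h2
      · exact Or.inl ((evE2_iff hs q).mp h2)
      · rw [rA.evL_iff, rA.evR_iff] at h2
        exact Or.inr h2
    · rintro w _ y hw ⟨q, rfl⟩
      obtain ⟨q', rfl, _⟩ := PW_rat hs hw
      exact ⟨q', rfl⟩
    · rintro _ ⟨p, rfl⟩ _ ⟨q, rfl⟩ hN hG
      have hG : SG (A2 (CR s)) (p : ℝ) q := hG
      have hN : (p : ℝ) ∈ NWS (CR s) := hN
      have key : ∀ p q : ℚ, p ≤ q → (p : ℝ) ∈ NWS (CR s) → SG (A2 (CR s)) (p : ℝ) q →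
          ∃ w, PW (CR s) w p q := by
        intro p q hpq hN hG
        have h1 : evA2 s p q := by
          rw [rA p q hpq]
          intro t ht
          refine hG t ?_
          rw [uIcc_of_le (by exact_mod_cast hpq)]
          exact ht
        obtain ⟨w, hw⟩ := h.tr p q hpq (((rp_N2 hs).pt' p).mpr hN) h1
        exact ⟨w, PQ_PW hs hw⟩
      rcases le_total p q with h1 | h1
      · exact key p q h1 hN hG
      · obtain ⟨w, hw⟩ := key q p h1 (hA.nws_const hG hN) hG.symm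
        exact ⟨wi w, PW_wi.mpr hw⟩
  · rintro ⟨hm, hcl, hD⟩
    have hA := adm_CR hm
    have hratE : ∀ t ∈ E1 (CR s), ∃ p : ℚ, t = p := by
      intro t ht
      obtain ⟨q, rfl⟩ := hD.ofE1 ht
      exact ⟨q, rfl⟩
    have hR := ratE_of hm hcl hratE
    have hinv : InvQ s := by
      intro a p h1 h2
      have h1' : (p : ℝ) ∉ A1 (CR s) := ((rp_A1 hm hR).pt p).mp h1
      have h2' : (p : ℝ) ∈ closure (dom (CR s) a) := ((rp_D a).pt' p).mp h2
      have h3 : (p : ℝ) ∈ dom (CR s) a := by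
        by_contra hc
        exact h1' (E1_sub_A1 (E1.ofDom (hA.dom_end a h2' hc)))
      obtain ⟨y, hy⟩ := h3
      by_cases hyE : y ∈ E1 (CR s)
      · obtain ⟨q, rfl⟩ := hratE y hyE
        exact ⟨q, (hcl a p q).mpr hy⟩
      · obtain ⟨q, rfl⟩ := hD.inv [a] p y (PW_single.mpr ⟨hy, h1', hA.not_A1 hy h1' hyE⟩)
          ⟨p, rfl⟩
        exact ⟨q, (hcl a p q).mpr hy⟩
    have hs : Std s := ⟨hm, hcl, hR, hinv⟩
    have hrat : ∀ t ∈ EE (Fam2 (CR s)), ∃ p : ℚ, t = p := by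
      intro t ht
      obtain ⟨q, rfl⟩ := hD.sub t (Or.inl ht)
      exact ⟨q, rfl⟩
    have rA := rp_A2 hs hrat
    obtain ⟨r1, r2, r3⟩ := (rat_EE2_iff hs).mpr hrat
    refine ⟨hm, (cl_iff hm).mpr hcl, hR, hinv, r1, r2, r3, ?_, ?_, ?_⟩
    · rw [rA.endRat_iff (isClosed_AA _)]
      intro t ht
      obtain ⟨q, rfl⟩ := hD.sub t (Or.inr ht)
      exact ⟨q, rfl⟩
    · intro p hp
      rw [rA.pt'] at hp
      rcases hD.inter p ⟨p, rfl⟩ hp with h3 | h3
      · exact Or.inl ((evE2_iff hs p).mpr h3)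
      · rw [rA.evL_iff, rA.evR_iff]
        exact Or.inr h3
    · intro p q hpq hN hpqA
      rw [(rp_N2 hs).pt'] at hN
      rw [rA p q hpq] at hpqA
      have hG : SG (A2 (CR s)) (p : ℝ) q := by
        intro t ht
        rw [uIcc_of_le (by exact_mod_cast hpq)] at ht
        exact hpqA t ht
      obtain ⟨w, hw⟩ := hD.tr p ⟨p, rfl⟩ q ⟨q, rfl⟩ hN hG
      exact ⟨w, (PQ_iff hs).mpr hw⟩

end Pool.Agent.H642.MR
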