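import Pool.Agent.H642.MR.Uniq

set_option autoImplicit false

/-!
Existence of good countable dense sets for a sequence of closed monotone relations, and naturality.
-/

open Set

namespace Pool.Agent.H642.MR

open Pool.Agent.H642.TV

variable {C C' : ℕ → Set (ℝ × ℝ)} {D : Set ℝ} {g : ℝ ≃o ℝ}

theorem exists_good2 (h : Adm C) : ∃ D : Set ℝ, D.Countable ∧ Dense D ∧ Good2 C D := by
  set D1 : Set ℝ := {d | ∃ (w : List Ltr) (x : ℚ), (x : ℝ) ∉ A2 C ∧ (x : ℝ) ∉ NWS C ∧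
    PW C w x d} with hD1
  set D2 : Set ℝ := {d | ∃ (w : List Ltr) (x : ℚ), (x : ℝ) ∉ A2 C ∧ (x : ℝ) ∈ NWS C ∧
    PW C w (rep2 h x) d} with hD2
  have hrepA : ∀ d, d ∉ A2 C → rep2 h d ∉ A2 C := fun d hd => by
    obtain ⟨_, _, _, h2⟩ := rep2_spec h hd
    exact h2.right
  have hrepN : ∀ d, d ∉ A2 C → (rep2 h d ∈ NWS C ↔ d ∈ NWS C) := by
    intro d hd
    obtain ⟨w, y, h1, h2⟩ := rep2_spec h hd
    rw [h.nws_iff h1]
    exact ⟨fun h3 => h.nws_const h2.symm h3, fun h3 => h.nws_const h2 h3⟩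
  have hD1A : ∀ d ∈ D1, d ∉ A2 C ∧ d ∉ NWS C := by
    rintro d ⟨w, x, h1, h2, h3⟩
    exact ⟨fun hc => h1 ((h.A2_inv h3).mpr hc), fun hc => h2 ((h.nws_iff h3).mpr hc)⟩
  have hD2A : ∀ d ∈ D2, d ∉ A2 C ∧ d ∈ NWS C := by
    rintro d ⟨w, x, h1, h2, h3⟩
    exact ⟨fun hc => hrepA _ h1 ((h.A2_inv h3).mpr hc),
      (h.nws_iff h3).mp ((hrepN _ h1).mpr h2)⟩
  refine ⟨DZ (Fam2 C) ∪ D1 ∪ D2, ?_, ?_, ?_⟩
  · refine ((countable_DZ (countable_fam h)).union ?_).union ?_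
    · refine (countable_range fun p : List Ltr × ℚ => vf C p.1 (p.2 : ℝ)).mono ?_
      rintro d ⟨w, x, _, _, h3⟩
      exact ⟨(w, x), vf_spec h3⟩
    · refine (countable_range fun p : List Ltr × ℚ => vf C p.1 (rep2 h (p.2 : ℝ))).mono ?_
      rintro d ⟨w, x, _, _, h3⟩
      exact ⟨(w, x), vf_spec h3⟩
  · rw [dense_iff_exists_between]
    intro u v huv
    by_cases hA : ∃ a ∈ A2 C, u < a ∧ a < v
    · obtain ⟨a, ha, h1, h2⟩ := hA
      have h3 : (Ioo u v ∩ EE (Fam2 C)).Nonempty :=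
        mem_closure_iff.mp ha (Ioo u v) isOpen_Ioo ⟨h1, h2⟩
      obtain ⟨e, he1, he2⟩ := h3
      exact ⟨e, Or.inl (Or.inl (Or.inl he2)), he1.1, he1.2⟩
    · push Not at hA
      obtain ⟨x, hx1, hx2⟩ := exists_rat_btwn huv
      have hxA : (x : ℝ) ∉ A2 C := fun h => absurd hx2 (not_lt.mpr (hA _ h hx1))
      have hxA1 : (x : ℝ) ∉ A1 C := fun h => hxA (A1_sub_A2 h)
      by_cases hxN : (x : ℝ) ∈ NWS C
      · obtain ⟨w, y, h1, h2⟩ := rep2_spec h hxA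
        obtain ⟨p, h3, h4⟩ := h.PW_gap2 (PW_wi.mpr h1) h2
        obtain ⟨y0, hy1, hy2⟩ := exists_between hx1
        have hxy : SG (A2 C) y0 x := by
          intro s hs hsA
          rw [uIcc_of_le hy2.le] at hs
          exact absurd (lt_of_le_of_lt hs.2 hx2) (not_lt.mpr (hA s hsA (hy1.trans_le hs.1)))
        have hpN : p ∈ NWS C := h.nws_const h4 hxN
        obtain ⟨v', z, h5, h6, h7⟩ := h.minim hpN hy2 (h4.symm.trans hxy.symm) h4.symm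
        exact ⟨z, Or.inr ⟨wi w ++ v', x, hxA, hxN, PW_append.mpr ⟨p, h3, h5⟩⟩, hy1.trans h6,
          h7.trans hx2⟩
      · exact ⟨x, Or.inl (Or.inr ⟨[], x, hxA, hxN, rfl, hxA1⟩), hx1, hx2⟩
  · refine ⟨fun p hp => Or.inl (Or.inl hp), ?_, ?_, ?_⟩
    · rintro p ((hp | hp) | hp) hA
      · exact hp
      · exact absurd hA (hD1A p hp).1
      · exact absurd hA (hD2A p hp).1
    · rintro w t y hty ((hp | hp) | hp)
      · exact Or.inl (Or.inl (h.DZ_inv hty hp))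
      · obtain ⟨v, x, h1, h2, h3⟩ := hp
        exact Or.inl (Or.inr ⟨v ++ w, x, h1, h2, PW_append.mpr ⟨t, h3, hty⟩⟩)
      · obtain ⟨v, x, h1, h2, h3⟩ := hp
        exact Or.inr ⟨v ++ w, x, h1, h2, PW_append.mpr ⟨t, h3, hty⟩⟩
    · intro p hp q hq hpN hpq
      have hpA := hpq.left
      have hqA := hpq.right
      have hqN : q ∈ NWS C := h.nws_const hpq hpN
      have key : ∀ z ∈ DZ (Fam2 C) ∪ D1 ∪ D2, z ∉ A2 C → z ∈ NWS C → z ∈ D2 := by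
        rintro z ((hz | hz) | hz) h1 h2
        · exact absurd (DZ_sub_AA _ hz) h1
        · exact absurd h2 (hD1A z hz).2
        · exact hz
      obtain ⟨w, x, hx1, hx2, hx3⟩ := key p hp hpA hpN
      obtain ⟨v, y, hy1, hy2, hy3⟩ := key q hq hqA hqN
      have hE := RR2.equivalence h
      have a1 : RR2 C x (rep2 h x) := hE.symm (rep2_rel h _)
      have a2 : RR2 C (rep2 h x) p := Or.inr ⟨w, p, hx3, SG.refl hpA⟩
      have a3 : RR2 C p q := Or.inr ⟨[], p, ⟨rfl, (sg21 hpq).left⟩, hpq⟩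
      have a4 : RR2 C (rep2 h y) q := Or.inr ⟨v, q, hy3, SG.refl hqA⟩
      have a5 : RR2 C (rep2 h y) y := rep2_rel h _
      have h1 : rep2 h x = rep2 h y :=
        rep2_eq h (hE.trans a1 (hE.trans a2 (hE.trans a3 (hE.trans (hE.symm a4) a5))))
      rw [← h1] at hy3
      exact ⟨wi w ++ v, PW_append.mpr ⟨_, PW_wi.mpr hx3, hy3⟩⟩

/-! ### Naturality -/

/-- `g` maps the relations `C` onto the relations `C'`. -/
def Conj2 (g : ℝ ≃o ℝ) (C C' : ℕ → Set (ℝ × ℝ)) : Prop :=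
  ∀ n x y, (g x, g y) ∈ C' n ↔ (x, y) ∈ C n

theorem Conj2.symm (hg : Conj2 g C C') : Conj2 g⁻¹ C' C := by
  intro n x y
  rw [← hg n, app_inv_self, app_inv_self]

theorem Conj2.RL (hg : Conj2 g C C') (a : Ltr) (x y : ℝ) : RL C' a (g x) (g y) ↔ RL C a x y := by
  obtain ⟨n, b⟩ := a
  cases b
  · exact hg n y x
  · exact hg n x y

theorem Conj2.RL' (hg : Conj2 g C C') (a : Ltr) (x y : ℝ) :
    MR.RL C' a x y ↔ MR.RL C a (g⁻¹ x) (g⁻¹ y) := by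
  rw [← hg.RL, app_inv_self, app_inv_self]

theorem Conj2.dom (hg : Conj2 g C C') (a : Ltr) : g '' dom C a = dom C' a := by
  ext x
  rw [mem_image_iso]
  constructor
  · rintro ⟨y, hy⟩
    have := (hg.RL a _ _).mpr hy
    rw [app_inv_self] at this
    exact ⟨_, this⟩
  · rintro ⟨y, hy⟩
    exact ⟨g⁻¹ y, (hg.RL' a x y).mp hy⟩

theorem Conj2.row (hg : Conj2 g C C') (a : Ltr) (x : ℝ) :
    g '' {z | MR.RL C a x z} = {z | MR.RL C' a (g x) z} := by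
  ext z
  rw [mem_image_iso]
  show MR.RL C a x (g⁻¹ z) ↔ MR.RL C' a (g x) z
  rw [hg.RL' a (g x) z, inv_app_self]

theorem end_map {S : Set ℝ} {p : ℝ} (h : LEnd S p ∨ REnd S p) (g : ℝ ≃o ℝ) :
    LEnd (g '' S) (g p) ∨ REnd (g '' S) (g p) := by
  rcases h with h | h
  · exact Or.inl (h.map g)
  · exact Or.inr (h.map g)

theorem Conj2.St (hg : Conj2 g C C') (k : ℕ) : ∀ x ∈ St C k, g x ∈ MR.St C' k := by
  induction k with
  | zero =>
    rintro x ⟨a, h1 | ⟨y, y', h1, h2, h3⟩⟩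
    · refine ⟨a, Or.inl ?_⟩
      have := end_map h1 g
      rwa [image_closure_iso, hg.dom] at this
    · exact ⟨a, Or.inr ⟨g y, g y', (hg.RL a x y).mpr h1, (hg.RL a x y').mpr h2,
        fun hc => h3 (g.injective hc)⟩⟩
  | succ k ih =>
    rintro y ⟨a, x, hx, h1⟩
    refine ⟨a, g x, ih x hx, ?_⟩
    have := end_map h1 g
    rwa [hg.row] at this

theorem Conj2.E1_eq (hg : Conj2 g C C') : g '' E1 C = E1 C' :=
  image_eq_of (fun p ⟨k, hp⟩ => ⟨k, hg.St k p hp⟩) (fun p ⟨k, hp⟩ => ⟨k, hg.symm.St k p hp⟩)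

theorem Conj2.A1_eq (hg : Conj2 g C C') : g '' A1 C = A1 C' := by
  rw [A1, image_closure_iso, hg.E1_eq]
  rfl

theorem Conj2.A1_mem (hg : Conj2 g C C') (x : ℝ) : g x ∈ A1 C' ↔ x ∈ A1 C := by
  rw [← hg.A1_eq, mem_image_iso, inv_app_self]

theorem Conj2.PW (hg : Conj2 g C C') {w : List Ltr} : ∀ {x y : ℝ},
    MR.PW C w x y → MR.PW C' w (g x) (g y) := by
  induction w with
  | nil =>
    rintro x y ⟨rfl, h⟩
    exact ⟨rfl, fun hc => h ((hg.A1_mem x).mp hc)⟩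
  | cons a w ih =>
    rintro x y ⟨z, ⟨h1, h2, h3⟩, h4⟩
    exact ⟨g z, ⟨(hg.RL a x z).mpr h1, fun hc => h2 ((hg.A1_mem x).mp hc),
      fun hc => h3 ((hg.A1_mem z).mp hc)⟩, ih h4⟩

theorem Conj2.PW_iff (hg : Conj2 g C C') {w : List Ltr} {x y : ℝ} :
    MR.PW C' w (g x) (g y) ↔ MR.PW C w x y := by
  refine ⟨fun h => ?_, hg.PW⟩
  have := hg.symm.PW h
  rwa [inv_app_self, inv_app_self] at this

theorem Conj2.FixS (hg : Conj2 g C C') (w : List Ltr) : g '' FixS C w = MR.FixS C' w := by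
  have key : ∀ {g : ℝ ≃o ℝ} {C C' : ℕ → Set (ℝ × ℝ)}, Conj2 g C C' → ∀ p ∈ MR.FixS C w,
      g p ∈ MR.FixS C' w := by
    intro g C C' hg p hp
    rcases hp with hp | hp
    · exact Or.inl ((hg.A1_mem p).mpr hp)
    · exact Or.inr (hg.PW hp)
  exact image_eq_of (key hg) (key hg.symm)

theorem Conj2.NWS (hg : Conj2 g C C') : g '' NWS C = MR.NWS C' := by
  have key : ∀ {g : ℝ ≃o ℝ} {C C' : ℕ → Set (ℝ × ℝ)}, Conj2 g C C' → ∀ p ∈ MR.NWS C,
      g p ∈ MR.NWS C' := by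
    intro g C C' hg p hp u v hu hv hW
    refine hp (g⁻¹ u) (g⁻¹ v) (inv_app_lt.mpr hu) (lt_inv_app.mpr hv) ⟨fun t h1 h2 h3 => ?_,
      fun w t t' h1 h2 h3 h4 h5 => ?_⟩
    · exact hW.1 (g t) (inv_app_le.mp h1) (le_inv_app.mp h2) ((hg.A1_mem t).mpr h3)
    · exact g.injective (hW.2 w (g t) (g t') (inv_app_lt.mp h1) (lt_inv_app.mp h2)
        (inv_app_lt.mp h3) (lt_inv_app.mp h4) (hg.PW h5))
  exact image_eq_of (key hg) (key hg.symm)

theorem Conj2.comp (hg : Conj2 g C C') : Comp g (Fam2 C) (Fam2 C') := by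
  have key : ∀ {g : ℝ ≃o ℝ} {C C' : ℕ → Set (ℝ × ℝ)}, Conj2 g C C' → ∀ S ∈ Fam2 C,
      g '' S ∈ Fam2 C' := by
    intro g C C' hg S hS
    rcases hS with ((⟨e, he, rfl⟩ | hS) | ⟨w, rfl⟩) | hS
    · show g '' {e} ∈ _
      rw [image_singleton]
      refine Fam2.single ?_
      rw [← hg.E1_eq]
      exact mem_image_of_mem g he
    · rw [mem_singleton_iff.mp hS, hg.A1_eq]
      exact Fam2.a1
    · rw [hg.FixS]
      exact Fam2.fix w
    · rw [mem_singleton_iff.mp hS, hg.NWS]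
      exact Fam2.nws
  exact ⟨key hg, key hg.symm⟩

theorem Good2.conj (hD : Good2 C D) (hg : Conj2 g C C') : Good2 C' (g '' D) := by
  have hc := hg.comp
  refine ⟨fun p hp => ?_, ?_, ?_, ?_⟩
  · rw [mem_image_iso]
    exact hD.sub _ (hc.symm.DZ_mem hp)
  · rintro _ ⟨p, hp, rfl⟩ hA
    exact hc.DZ_mem (hD.inter p hp (hc.AA_mem.mp hA))
  · rintro w _ y hty ⟨t, ht, rfl⟩
    rw [mem_image_iso]
    refine hD.inv w t (g⁻¹ y) ?_ ht
    rw [← hg.PW_iff, app_inv_self]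
    exact hty
  · rintro _ ⟨p, hp, rfl⟩ _ ⟨q, hq, rfl⟩ hN hG
    have hN' : p ∈ MR.NWS C := by
      rw [← hg.NWS, mem_image_iso, inv_app_self] at hN
      exact hN
    obtain ⟨w, hw⟩ := hD.tr p hp q hq hN' (hc.SG_iff.mp hG)
    exact ⟨w, hg.PW hw⟩

theorem Adm.conj (h : Adm C) (hg : Conj2 g C C') : Adm C' := by
  refine ⟨fun n => ?_, fun n => ?_⟩
  · have h1 : C' n = (fun p : ℝ × ℝ => ((g⁻¹ : ℝ ≃o ℝ) p.1, (g⁻¹ : ℝ ≃o ℝ) p.2)) ⁻¹' C n := by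
      ext ⟨x, y⟩
      exact (hg.symm n x y).symm
    rw [h1]
    exact (h.cl n).preimage (((g⁻¹ : ℝ ≃o ℝ).continuous.comp continuous_fst).prodMk
      ((g⁻¹ : ℝ ≃o ℝ).continuous.comp continuous_snd))
  · rcases h.mono n with h1 | h1
    · left
      intro x y x' y' h2 h3 h4
      have := h1 _ _ _ _ ((hg.symm n x y).mpr h2) ((hg.symm n x' y').mpr h3)
        ((g⁻¹).lt_iff_lt.mpr h4)
      exact (g⁻¹).le_iff_le.mp this
    · right
      intro x y x' y' h2 h3 h4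
      have := h1 _ _ _ _ ((hg.symm n x y).mpr h2) ((hg.symm n x' y').mpr h3)
        ((g⁻¹).lt_iff_lt.mpr h4)
      exact (g⁻¹).le_iff_le.mp this

end Pool.Agent.H642.MR
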