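import Pool.Agent.H642.TV.Gap

set_option autoImplicit false

/-!
A group of automorphisms of the line that acts freely (up to the kernel) on an interval, and
equivariant isomorphisms between countable dense invariant subsets of the interval.
-/

open Set

namespace Pool.Agent.H642.MR

open Pool.Agent.H642.TV

/-- The group `K` acts on the open interval `J`, and an element with a fixed point in `J` fixes `J`
pointwise. -/
structure GapG (J : Set ℝ) (K : Subgroup (ℝ ≃o ℝ)) : Prop where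
  op : IsOpen J
  oc : J.OrdConnected
  maps : ∀ f ∈ K, ∀ t ∈ J, f t ∈ J
  fix : ∀ f ∈ K, ∀ t ∈ J, ∀ s ∈ J, f t = t → f s = s

variable {J : Set ℝ} {K : Subgroup (ℝ ≃o ℝ)} {D D' : Set ℝ}

theorem GapG.sign (h : GapG J K) {f : ℝ ≃o ℝ} (hf : f ∈ K) {t s : ℝ} (ht : t ∈ J) (hs : s ∈ J)
    (hlt : t < f t) : s < f s := by
  by_contra hcon
  have hcon' : f s - s ≤ 0 := by linarith [not_lt.mp hcon]
  have hp' : 0 ≤ f t - t := by linarith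
  have hc : ContinuousOn (fun x : ℝ => f x - x) (uIcc t s) :=
    (f.continuous.sub continuous_id).continuousOn
  have h0 : (0 : ℝ) ∈ uIcc (f t - t) (f s - s) := by
    rw [uIcc_of_ge (hcon'.trans hp')]
    exact ⟨hcon', hp'⟩
  obtain ⟨x, hx, hx0⟩ := intermediate_value_uIcc hc h0
  have h1 : f x = x := by linarith [show f x - x = 0 from hx0]
  have h2 := h.fix f hf x (h.oc.uIcc_subset ht hs hx) t ht h1
  linarith

theorem GapG.esc (h : GapG J K) {f : ℝ ≃o ℝ} (hf : f ∈ K) {p q : ℝ} (hp : p ∈ J) (hq : q ∈ J)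
    (hlt : p < f p) : ∃ n : ℤ, (f ^ n) p ≤ q ∧ q < (f ^ (n + 1)) p :=
  TV.esc h.oc (fun t ht => h.maps f hf t ht) (fun t ht => h.maps f⁻¹ (K.inv_mem hf) t ht)
    (fun _ ht => h.sign hf hp ht hlt) hp hq

theorem GapG.zpow (h : GapG J K) {f : ℝ ≃o ℝ} (hf : f ∈ K) {p a : ℝ} (hp : p ∈ J) (ha : a ∈ J)
    (hlt : p < f p) : (∀ n : ℤ, (f ^ n) a ∈ J) ∧ StrictMono fun n : ℤ => (f ^ n) a :=
  TV.zpow_strictMono (fun t ht => h.maps f hf t ht) (fun t ht => h.maps f⁻¹ (K.inv_mem hf) t ht)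
    (fun _ ht => h.sign hf hp ht hlt) ha

/-- A group without accumulation of orbits in `J` is cyclic on `J`. -/
theorem GapG.gen (h : GapG J K)
    (hw : ∀ s ∈ J, ∃ u v, u < s ∧ s < v ∧ ∀ f ∈ K, ∀ t ∈ J, u < t → t < v → u < f t → f t < v →
      f t = t) {r : ℝ} (hr : r ∈ J) {κ : ℝ ≃o ℝ} (hκ : κ ∈ K) (hκ' : κ r ≠ r) :
    ∃ t ∈ K, r < t r ∧ ∀ κ ∈ K, ∃ n : ℤ, κ r = (t ^ n) r := by
  set O : Set ℝ := {x | ∃ κ ∈ K, x = κ r ∧ r < x} with hO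
  have hne : O.Nonempty := by
    rcases lt_or_gt_of_ne hκ' with h1 | h1
    · exact ⟨κ⁻¹ r, κ⁻¹, K.inv_mem hκ, rfl, lt_inv_app.mpr h1⟩
    · exact ⟨κ r, κ, hκ, rfl, h1⟩
  have hbd : BddBelow O := ⟨r, fun x hx => by
    obtain ⟨_, _, _, h⟩ := hx
    exact h.le⟩
  set s := sInf O with hs
  have hrs : r < s := by
    obtain ⟨u, v, hu, hv, hW⟩ := hw r hr
    refine lt_of_lt_of_le hv (le_csInf hne fun x hx => ?_)
    obtain ⟨δ, hδK, rfl, hδ⟩ := hx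
    by_contra hc
    exact hδ.ne' (hW δ hδK r hr hu hv (hu.trans hδ) (not_le.mp hc))
  have hsJ : s ∈ J := by
    obtain ⟨x, hx⟩ := hne
    have h1 : s ≤ x := csInf_le hbd hx
    obtain ⟨δ, hδ, rfl, _⟩ := hx
    exact h.oc.out hr (h.maps δ hδ r hr) ⟨hrs.le, h1⟩
  have hsO : s ∈ O := by
    by_contra hsO
    obtain ⟨u, v, hu, hv, hW⟩ := hw s hsJ
    obtain ⟨x1, hx1, h1⟩ := exists_lt_of_csInf_lt hne hv
    have hs1 : s < x1 := lt_of_le_of_ne (csInf_le hbd hx1) (fun h => hsO (h ▸ hx1))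
    obtain ⟨x2, hx2, h2⟩ := exists_lt_of_csInf_lt hne hs1
    have hs2 : s < x2 := lt_of_le_of_ne (csInf_le hbd hx2) (fun h => hsO (h ▸ hx2))
    obtain ⟨κ₁, hκ₁, rfl, _⟩ := hx1
    obtain ⟨κ₂, hκ₂, rfl, _⟩ := hx2
    have hδ : (κ₁ * κ₂⁻¹) (κ₂ r) = κ₁ r := by
      rw [mul_app, inv_app_self]
    have h3 := hW (κ₁ * κ₂⁻¹) (K.mul_mem hκ₁ (K.inv_mem hκ₂)) (κ₂ r) (h.maps κ₂ hκ₂ r hr)
      (hu.trans hs2) (h2.trans h1) (by rw [hδ]; exact hu.trans hs1) (by rw [hδ]; exact h1)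
    rw [hδ] at h3
    exact h2.ne h3.symm
  obtain ⟨t, ht, ht2, -⟩ := hsO
  refine ⟨t, ht, by rw [← ht2]; exact hrs, fun κ hκ => ?_⟩
  obtain ⟨n, hn1, hn2⟩ := h.esc ht hr (h.maps κ hκ r hr) (by rw [← ht2]; exact hrs)
  refine ⟨n, ?_⟩
  have h1 : r ≤ ((t ^ n)⁻¹ * κ) r := by
    rw [mul_app]
    exact le_inv_app.mpr hn1
  have h2 : ((t ^ n)⁻¹ * κ) r < s := by
    rw [mul_app, inv_app_lt, ht2, ← mul_app, ← zpow_add_one]
    exact hn2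
  have h3 : ((t ^ n)⁻¹ * κ) r = r := by
    by_contra hne'
    have h4 : r < ((t ^ n)⁻¹ * κ) r := lt_of_le_of_ne h1 (Ne.symm hne')
    have h5 : ((t ^ n)⁻¹ * κ) r ∈ O :=
      ⟨_, K.mul_mem (K.inv_mem (K.zpow_mem ht n)) hκ, rfl, h4⟩
    exact absurd (csInf_le hbd h5) (not_le.mpr h2)
  have h4 := congrArg (t ^ n) h3
  rw [← mul_app, mul_inv_cancel_left] at h4
  exact h4

/-- `τ` is an isomorphism from the points of `D` in `J` to the points of `D'` in `J`. -/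
structure TauK (J : Set ℝ) (K : Subgroup (ℝ ≃o ℝ)) (D D' : Set ℝ) (τ : ℝ → ℝ) : Prop where
  maps : ∀ d ∈ D, d ∈ J → τ d ∈ D' ∧ τ d ∈ J
  mono : ∀ d ∈ D, ∀ e ∈ D, d ∈ J → e ∈ J → d < e → τ d < τ e
  surj : ∀ e ∈ D', e ∈ J → ∃ d ∈ D, d ∈ J ∧ τ d = e
  equi : ∀ f ∈ K, ∀ d ∈ D, d ∈ J → τ (f d) = f (τ d)

theorem tauK_m (h : GapG J K) (nJ : J.Nonempty) (iD : ∀ f ∈ K, ∀ d ∈ D, d ∈ J → f d ∈ D)
    (iD' : ∀ f ∈ K, ∀ d ∈ D', d ∈ J → f d ∈ D') (dD : Dense D) (dD' : Dense D')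
    (tD : ∀ p ∈ D, ∀ q ∈ D, p ∈ J → q ∈ J → ∃ f ∈ K, f p = q)
    (tD' : ∀ p ∈ D', ∀ q ∈ D', p ∈ J → q ∈ J → ∃ f ∈ K, f p = q) : ∃ τ, TauK J K D D' τ := by
  obtain ⟨p, hpD, hp⟩ := dD.exists_mem_open h.op nJ
  obtain ⟨q, hqD, hq⟩ := dD'.exists_mem_open h.op nJ
  classical
  set τ : ℝ → ℝ := fun d => if h : ∃ f ∈ K, f p = d then h.choose q else 0 with hτ
  have key : ∀ f ∈ K, τ (f p) = f q := by
    intro f hf
    have h0 : ∃ g ∈ K, g p = f p := ⟨f, hf, rfl⟩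
    have h1 : τ (f p) = h0.choose q := by
      simp only [hτ]
      rw [dif_pos h0]
    rw [h1]
    have h2 : (f⁻¹ * h0.choose) p = p := by
      rw [mul_app, h0.choose_spec.2, inv_app_self]
    have h3 := h.fix _ (K.mul_mem (K.inv_mem hf) h0.choose_spec.1) p hp q hq h2
    rw [mul_app] at h3
    have h4 := congrArg f h3
    rwa [app_inv_self] at h4
  refine ⟨τ, ?_, ?_, ?_, ?_⟩
  · intro d hd hdJ
    obtain ⟨f, hf, rfl⟩ := tD p hpD d hd hp hdJ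
    rw [key f hf]
    exact ⟨iD' f hf q hqD hq, h.maps f hf q hq⟩
  · intro d hd e he hdJ heJ hde
    obtain ⟨f, hf, rfl⟩ := tD p hpD d hd hp hdJ
    obtain ⟨g, hg, rfl⟩ := tD p hpD e he hp heJ
    rw [key f hf, key g hg]
    have h1 : p < (f⁻¹ * g) p := lt_inv_app.mpr hde
    have h2 := h.sign (K.mul_mem (K.inv_mem hf) hg) hp hq h1
    exact lt_inv_app.mp h2
  · intro e he heJ
    obtain ⟨f, hf, rfl⟩ := tD' q hqD e he hq heJ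
    exact ⟨f p, iD f hf p hpD hp, h.maps f hf p hp, key f hf⟩
  · intro f hf d hd hdJ
    obtain ⟨g, hg, rfl⟩ := tD p hpD d hd hp hdJ
    rw [← mul_app, key _ (K.mul_mem hf hg), key g hg, mul_app]

theorem tauK_w0 (h : GapG J K) (nJ : J.Nonempty) (cD : D.Countable) (dD : Dense D)
    (cD' : D'.Countable) (dD' : Dense D') (h0 : ∀ f ∈ K, ∀ t ∈ J, f t = t) :
    ∃ τ, TauK J K D D' τ := by
  obtain ⟨τ, h1, h2, h3⟩ := cantor cD dD cD' dD' h.op h.oc nJ h.op h.oc nJ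
  refine ⟨τ, fun d hd hdJ => h1 d ⟨hd, hdJ⟩, fun d hd e he hdJ heJ hde =>
    h2 ⟨hd, hdJ⟩ ⟨he, heJ⟩ hde, fun e he heJ => ?_, fun f hf d hd hdJ => ?_⟩
  · obtain ⟨d, ⟨hd1, hd2⟩, hd3⟩ := h3 ⟨he, heJ⟩
    exact ⟨d, hd1, hd2, hd3⟩
  · rw [h0 f hf d hdJ, h0 f hf _ (h1 d ⟨hd, hdJ⟩).2]

theorem tauK_w1 (h : GapG J K) (nJ : J.Nonempty) (iD : ∀ f ∈ K, ∀ d ∈ D, d ∈ J → f d ∈ D)
    (iD' : ∀ f ∈ K, ∀ d ∈ D', d ∈ J → f d ∈ D') (cD : D.Countable) (dD : Dense D)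
    (cD' : D'.Countable) (dD' : Dense D') {t : ℝ ≃o ℝ} (ht : t ∈ K) {r : ℝ} (hr : r ∈ J)
    (ht' : r < t r) (hgen : ∀ κ ∈ K, ∃ n : ℤ, κ r = (t ^ n) r) : ∃ τ, TauK J K D D' τ := by
  obtain ⟨p, hpD, hp⟩ := dD.exists_mem_open h.op nJ
  obtain ⟨q, hqD, hq⟩ := dD'.exists_mem_open h.op nJ
  have hptp : p < t p := h.sign ht hr hp ht'
  have hqtq : q < t q := h.sign ht hr hq ht'
  obtain ⟨e, he1, he2, he3⟩ := cantor cD dD cD' dD' (I := Ioo p (t p)) (I' := Ioo q (t q))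
    isOpen_Ioo ordConnected_Ioo (nonempty_Ioo.mpr hptp) isOpen_Ioo ordConnected_Ioo
    (nonempty_Ioo.mpr hqtq)
  classical
  obtain ⟨τ₀, hτ1, hτ2, hτ3⟩ : ∃ τ₀ : ℝ → ℝ,
      (∀ x ∈ D, p ≤ x → x < t p → τ₀ x ∈ D' ∧ q ≤ τ₀ x ∧ τ₀ x < t q) ∧
      (∀ x ∈ D, ∀ y ∈ D, p ≤ x → x < y → y < t p → τ₀ x < τ₀ y) ∧
      (∀ z ∈ D', q ≤ z → z < t q → ∃ x ∈ D, p ≤ x ∧ x < t p ∧ τ₀ x = z) := by
    refine ⟨fun x => if x = p then q else e x, ?_, ?_, ?_⟩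
    · intro x hx h1 h2
      rcases h1.eq_or_lt with h | h
      · simp only [if_pos h.symm]
        exact ⟨hqD, le_rfl, hqtq⟩
      · simp only [if_neg h.ne']
        have := he1 x ⟨hx, h, h2⟩
        exact ⟨this.1, this.2.1.le, this.2.2⟩
    · intro x hx y hy h1 h2 h3
      have hy' : p < y := lt_of_le_of_lt h1 h2
      simp only [if_neg hy'.ne']
      rcases h1.eq_or_lt with h | h
      · simp only [if_pos h.symm]
        exact (he1 y ⟨hy, hy', h3⟩).2.1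
      · simp only [if_neg h.ne']
        exact he2 ⟨hx, h, h2.trans h3⟩ ⟨hy, hy', h3⟩ h2
    · intro z hz h1 h2
      rcases h1.eq_or_lt with h | h
      · exact ⟨p, hpD, le_rfl, hptp, by simp [h]⟩
      · obtain ⟨x, ⟨hx1, hx2, hx3⟩, hx4⟩ := he3 ⟨hz, h, h2⟩
        exact ⟨x, hx1, hx2.le, hx3, by simp [hx2.ne', hx4]⟩
  obtain ⟨hpz, hpm⟩ := h.zpow ht hr hp ht'
  obtain ⟨hqz, hqm⟩ := h.zpow ht hr hq ht'
  have hz : ∀ n : ℤ, t ^ n ∈ K := fun n => K.zpow_mem ht n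
  set N : ℝ → ℤ → Prop := fun d n => (t ^ n) p ≤ d ∧ d < (t ^ (n + 1)) p with hN
  have hNuniq : ∀ d n m, N d n → N d m → n ≤ m := by
    intro d n m hn hm
    have h1 : n < m + 1 := hpm.lt_iff_lt.mp (lt_of_le_of_lt hn.1 hm.2)
    omega
  have hNex : ∀ d, d ∈ J → ∃ n, N d n := fun d hd => by
    obtain ⟨n, h1, h2⟩ := h.esc ht hp hd hptp
    exact ⟨n, h1, h2⟩
  set τ : ℝ → ℝ := fun d => if h : ∃ n, N d n then
    (t ^ h.choose) (τ₀ ((t ^ h.choose)⁻¹ d)) else 0 with hτ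
  have key : ∀ d n, N d n → τ d = (t ^ n) (τ₀ ((t ^ n)⁻¹ d)) := by
    intro d n hn
    have h0 : ∃ n, N d n := ⟨n, hn⟩
    have h1 : h0.choose = n := le_antisymm (hNuniq _ _ _ h0.choose_spec hn)
      (hNuniq _ _ _ hn h0.choose_spec)
    simp only [hτ]
    rw [dif_pos h0, h1]
  have hmul : ∀ (n : ℤ) (x : ℝ), (t ^ (n + 1)) x = (t ^ n) (t x) := fun n x => by
    rw [zpow_add_one, mul_app]
  have hdom : ∀ d ∈ D, d ∈ J → ∀ n, N d n → (t ^ n)⁻¹ d ∈ D ∧ p ≤ (t ^ n)⁻¹ d ∧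
      (t ^ n)⁻¹ d < t p := by
    intro d hd hdJ n hn
    refine ⟨iD _ (K.inv_mem (hz n)) d hd hdJ, le_inv_app.mpr hn.1, inv_app_lt.mpr ?_⟩
    rw [← hmul]
    exact hn.2
  have hbnd : ∀ d ∈ D, d ∈ J → ∀ n, N d n →
      τ d ∈ D' ∧ (t ^ n) q ≤ τ d ∧ τ d < (t ^ (n + 1)) q := by
    intro d hd hdJ n hn
    obtain ⟨h1, h2, h3⟩ := hdom d hd hdJ n hn
    obtain ⟨h4, h5, h6⟩ := hτ1 _ h1 h2 h3
    rw [key d n hn]
    have h7 : τ₀ ((t ^ n)⁻¹ d) ∈ J := h.oc.out hq (h.maps t ht q hq) ⟨h5, h6.le⟩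
    refine ⟨iD' _ (hz n) _ h4 h7, (t ^ n).le_iff_le.mpr h5, ?_⟩
    rw [hmul]
    exact (t ^ n).lt_iff_lt.mpr h6
  refine ⟨τ, ?_, ?_, ?_, ?_⟩
  · intro d hd hdJ
    obtain ⟨n, hn⟩ := hNex d hdJ
    obtain ⟨h1, h2, h3⟩ := hbnd d hd hdJ n hn
    exact ⟨h1, h.oc.out (hqz n) (hqz (n + 1)) ⟨h2, h3.le⟩⟩
  · intro d hd d' hd' hdJ hdJ' hdd
    obtain ⟨n, hn⟩ := hNex d hdJ
    obtain ⟨m, hm⟩ := hNex d' hdJ'
    have hnm : n < m + 1 := hpm.lt_iff_lt.mp (lt_of_le_of_lt hn.1 (hdd.trans hm.2))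
    rcases (Int.lt_add_one_iff.mp hnm).eq_or_lt with h' | h'
    · subst h'
      obtain ⟨h1, h2, h3⟩ := hdom d hd hdJ n hn
      obtain ⟨h4, h5, h6⟩ := hdom d' hd' hdJ' n hm
      rw [key d n hn, key d' n hm]
      refine (t ^ n).lt_iff_lt.mpr (hτ2 _ h1 _ h4 h2 ?_ h6)
      exact ((t ^ n)⁻¹).lt_iff_lt.mpr hdd
    · have h1 := (hbnd d hd hdJ n hn).2.2
      have h2 := (hbnd d' hd' hdJ' m hm).2.1
      have h3 : (t ^ (n + 1)) q ≤ (t ^ m) q := hqm.monotone (by omega)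
      linarith
  · intro z hz' hzJ
    obtain ⟨n, h1, h2⟩ := h.esc ht hq hzJ hqtq
    have h3 : q ≤ (t ^ n)⁻¹ z := le_inv_app.mpr h1
    have h4 : (t ^ n)⁻¹ z < t q := by
      rw [inv_app_lt, ← hmul]
      exact h2
    have h5 : (t ^ n)⁻¹ z ∈ D' := iD' _ (K.inv_mem (hz n)) z hz' hzJ
    obtain ⟨x, hx1, hx2, hx3, hx4⟩ := hτ3 _ h5 h3 h4
    have hxJ : x ∈ J := h.oc.out hp (h.maps t ht p hp) ⟨hx2, hx3.le⟩
    have hn : N ((t ^ n) x) n := by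
      refine ⟨(t ^ n).le_iff_le.mpr hx2, ?_⟩
      rw [hmul]
      exact (t ^ n).lt_iff_lt.mpr hx3
    refine ⟨(t ^ n) x, iD _ (hz n) x hx1 hxJ, h.maps _ (hz n) x hxJ, ?_⟩
    rw [key _ n hn, inv_app_self, hx4, app_inv_self]
  · intro f hf d hd hdJ
    obtain ⟨m, hm⟩ := hgen f hf
    have hfix : ∀ x, x ∈ J → f x = (t ^ m) x := by
      intro x hx
      have h1 : ((t ^ m)⁻¹ * f) r = r := by
        rw [mul_app, hm, inv_app_self]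
      have h2 := h.fix _ (K.mul_mem (K.inv_mem (hz m)) hf) r hr x hx h1
      rw [mul_app] at h2
      have h3 := congrArg (t ^ m) h2
      rwa [app_inv_self] at h3
    obtain ⟨n, hn⟩ := hNex d hdJ
    have h1 := hbnd d hd hdJ n hn
    have hG : τ d ∈ J := h.oc.out (hqz n) (hqz (n + 1)) ⟨h1.2.1, h1.2.2.le⟩
    rw [hfix d hdJ, hfix _ hG]
    have hn' : N ((t ^ m) d) (m + n) := by
      refine ⟨?_, ?_⟩
      · rw [zpow_add, mul_app]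
        exact (t ^ m).le_iff_le.mpr hn.1
      · rw [add_assoc, zpow_add, mul_app]
        exact (t ^ m).lt_iff_lt.mpr hn.2
    rw [key _ _ hn', key _ _ hn, zpow_add, mul_app, mul_inv_rev, mul_app, inv_app_self]

theorem exists_tauK (h : GapG J K) (nJ : J.Nonempty) (iD : ∀ f ∈ K, ∀ d ∈ D, d ∈ J → f d ∈ D)
    (iD' : ∀ f ∈ K, ∀ d ∈ D', d ∈ J → f d ∈ D') (cD : D.Countable) (dD : Dense D)
    (cD' : D'.Countable) (dD' : Dense D')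
    (hmode : ((∀ p ∈ D, ∀ q ∈ D, p ∈ J → q ∈ J → ∃ f ∈ K, f p = q) ∧
      ∀ p ∈ D', ∀ q ∈ D', p ∈ J → q ∈ J → ∃ f ∈ K, f p = q) ∨
      ∀ s ∈ J, ∃ u v, u < s ∧ s < v ∧ ∀ f ∈ K, ∀ t ∈ J, u < t → t < v → u < f t → f t < v →
        f t = t) : ∃ τ, TauK J K D D' τ := by
  rcases hmode with ⟨h1, h2⟩ | hw
  · exact tauK_m h nJ iD iD' dD dD' h1 h2
  · by_cases h0 : ∀ f ∈ K, ∀ t ∈ J, f t = t
    · exact tauK_w0 h nJ cD dD cD' dD' h0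
    · push Not at h0
      obtain ⟨κ, h1, r, hr, h2⟩ := h0
      obtain ⟨t, h3, h4, h5⟩ := h.gen hw hr h1 h2
      exact tauK_w1 h nJ iD iD' cD dD cD' dD' h3 hr h4 h5

end Pool.Agent.H642.MR
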