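import Pool.Graph.R_pool_sql_team_seeded_63374d34.Results.MP_5607ba_lc.PiecewiseMonotone

set_option autoImplicit false

/-!
Countable linear orders with countably many monotone relations: the dichotomy.
-/

open Set

namespace Pool.Agent.H642.MR

open Pool.Agent.Results.MP_5607ba_lc.PiecewiseMonotone (StrictLinear Alternates Changes MonotoneOn
  IsPiecewiseMonotone CountableOrPerfect Iso)

/-- Structures with binary relations. -/
abbrev BStr : Type := Pool.Agent.Results.MP_5607ba_lc.PiecewiseMonotone.Str fun _ => 2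

/-- The order of a structure. -/
def blt (x : BStr) (m n : ℕ) : Prop := x 0 ![m, n] = true

/-- The relations of a structure. -/
def brel (x : BStr) (i m n : ℕ) : Prop := x (i + 1) ![m, n] = true

/-- The relation `R` is increasing. -/
def IncN (lt R : ℕ → ℕ → Prop) : Prop := ∀ m n m' n', R m n → R m' n' → lt m m' → n = n' ∨ lt n n'

/-- The relation `R` is decreasing. -/
def DecN (lt R : ℕ → ℕ → Prop) : Prop := ∀ m n m' n', R m n → R m' n' → lt m m' → n = n' ∨ lt n' n

theorem ite01 {P Q : Prop} [Decidable P] [Decidable Q] (h : Q → P) :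
    (if P then 0 else 1) ≤ (if Q then 0 else 1) := by
  by_cases hQ : Q
  · rw [if_pos hQ, if_pos (h hQ)]
  · rw [if_neg hQ]
    by_cases hP : P
    · rw [if_pos hP]
      norm_num
    · rw [if_neg hP]

theorem ite10 {P Q : Prop} [Decidable P] [Decidable Q] (h : P → Q) :
    (if P then 1 else 0) ≤ (if Q then 1 else 0) := by
  by_cases hP : P
  · rw [if_pos hP, if_pos (h hP)]
  · rw [if_neg hP]
    exact Nat.zero_le _

theorem alt_two {lt R : ℕ → ℕ → Prop} {C : ℕ → Prop}
    (h1 : (∀ m n n', lt n n' → R m n → R m n') ∨ (∀ m n n', lt n n' → R m n' → R m n)) :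
    ∀ k m u, ¬ Alternates lt R C (k + 2) m u := by
  rintro k m u ⟨_, v, ⟨_, w, _, hwv, hwv'⟩, hvu, hvu'⟩
  rcases h1 with h1 | h1
  · have a1 := h1 m w v hwv
    have a2 := h1 m v u hvu
    tauto
  · have a1 := h1 m w v hwv
    have a2 := h1 m v u hvu
    tauto

/-- Relations that change at most once, with one direction. -/
theorem pm_of {lt R : ℕ → ℕ → Prop} (hL : StrictLinear lt)
    (h1 : (∀ m n n', lt n n' → R m n → R m n') ∨ (∀ m n n', lt n n' → R m n' → R m n))
    (h2 : (∀ m m' n, lt m m' → R m n → R m' n) ∨ (∀ m m' n, lt m m' → R m' n → R m n)) :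
    IsPiecewiseMonotone lt R (fun _ => True) (fun _ => True) := by
  classical
  refine ⟨fun m _ => ⟨2, fun n hn => ?_⟩, fun k => ?_⟩
  · obtain ⟨u, hu, _⟩ := hn
    exact alt_two h1 0 m u hu
  · rcases Nat.lt_or_ge k 2 with hk | hk
    · have hk' : k = 0 ∨ k = 1 := by omega
      rcases hk' with rfl | rfl
      · exact ⟨1, fun _ => 0, fun _ => by norm_num, fun _ _ _ _ _ => le_rfl, fun t =>
          Or.inl fun m m' _ _ _ n h => h⟩
      · -- one change
        have hch : ∀ m n, Changes lt R (fun _ => True) 1 m n ↔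
            ∃ v u, lt v u ∧ (R m v ↔ ¬ R m u) ∧ (u = n ∨ lt u n) := by
          intro m n
          constructor
          · rintro ⟨u, ⟨_, v, _, h3, h4⟩, h5⟩
            exact ⟨v, u, h3, h4, h5⟩
          · rintro ⟨v, u, h3, h4, h5⟩
            exact ⟨u, ⟨trivial, v, trivial, h3, h4⟩, h5⟩
        have hle : ∀ {a b c : ℕ}, (a = b ∨ lt a b) → (b = c ∨ lt b c) → (a = c ∨ lt a c) := by
          rintro a b c (rfl | h) (rfl | h')
          · exact Or.inl rfl
          · exact Or.inr h'
          · exact Or.inr h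
          · exact Or.inr (hL.trans _ _ _ h h')
        rcases h1 with h1 | h1
        · -- final segments
          have hle1 : ∀ m n n', (n = n' ∨ lt n n') → R m n → R m n' := by
            rintro m n n' (rfl | h) h'
            · exact h'
            · exact h1 m n n' h h'
          have hch' : ∀ m n, Changes lt R (fun _ => True) 1 m n ↔ (∃ v, ¬ R m v) ∧ R m n := by
            intro m n
            rw [hch]
            constructor
            · rintro ⟨v, u, h3, h4, h5⟩
              have h6 := h1 m v u h3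
              have h7 : R m u := by tauto
              have h8 : ¬ R m v := by tauto
              exact ⟨⟨v, h8⟩, hle1 m u n h5 h7⟩
            · rintro ⟨⟨v, hv⟩, hn⟩
              refine ⟨v, n, ?_, by tauto, Or.inl rfl⟩
              rcases hL.total v n with h | h | h
              · exact absurd (h ▸ hn) hv
              · exact h
              · exact absurd (h1 m n v h hn) hv
          rcases h2 with h2 | h2
          · -- growing
            refine ⟨2, fun m => if ∃ v, ¬ R m v then 0 else 1, fun m => ?_, fun m m' _ _ hmm => ?_,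
              fun t => ?_⟩
            · dsimp only
              split_ifs <;> norm_num
            · exact ite01 fun ⟨v, hv⟩ => ⟨v, fun h => hv (h2 m m' v hmm h)⟩
            · refine Or.inl fun m m' hm hm' hmm n hn => ?_
              rw [hch'] at hn ⊢
              refine ⟨?_, h2 m m' n hmm hn.2⟩
              by_contra hc
              have e1 : (if ∃ v, ¬ R m v then 0 else 1) = t := hm.2
              have e2 : (if ∃ v, ¬ R m' v then 0 else 1) = t := hm'.2
              rw [if_pos hn.1] at e1
              rw [if_neg hc] at e2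
              omega
          · -- shrinking
            refine ⟨2, fun m => if ∃ v, ¬ R m v then 1 else 0, fun m => ?_, fun m m' _ _ hmm => ?_,
              fun t => ?_⟩
            · dsimp only
              split_ifs <;> norm_num
            · exact ite10 fun ⟨v, hv⟩ => ⟨v, fun h => hv (h2 m m' v hmm h)⟩
            · refine Or.inr fun m m' hm hm' hmm n hn => ?_
              rw [hch'] at hn ⊢
              refine ⟨?_, h2 m m' n hmm hn.2⟩
              by_contra hc
              have e1 : (if ∃ v, ¬ R m v then 1 else 0) = t := hm.2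
              have e2 : (if ∃ v, ¬ R m' v then 1 else 0) = t := hm'.2
              rw [if_neg hc] at e1
              rw [if_pos hn.1] at e2
              omega
        · -- initial segments
          have hle1 : ∀ m n n', (n = n' ∨ lt n n') → R m n' → R m n := by
            rintro m n n' (rfl | h) h'
            · exact h'
            · exact h1 m n n' h h'
          have hch' : ∀ m n, Changes lt R (fun _ => True) 1 m n ↔ (∃ v, R m v) ∧ ¬ R m n := by
            intro m n
            rw [hch]
            constructor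
            · rintro ⟨v, u, h3, h4, h5⟩
              have h6 := h1 m v u h3
              have h7 : ¬ R m u := by tauto
              have h8 : R m v := by tauto
              exact ⟨⟨v, h8⟩, fun h => h7 (hle1 m u n h5 h)⟩
            · rintro ⟨⟨v, hv⟩, hn⟩
              refine ⟨v, n, ?_, by tauto, Or.inl rfl⟩
              rcases hL.total v n with h | h | h
              · exact absurd (h ▸ hv) hn
              · exact h
              · exact absurd (h1 m n v h hv) hn
          rcases h2 with h2 | h2
          · -- growing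
            refine ⟨2, fun m => if ∃ v, R m v then 1 else 0, fun m => ?_, fun m m' _ _ hmm => ?_,
              fun t => ?_⟩
            · dsimp only
              split_ifs <;> norm_num
            · exact ite10 fun ⟨v, hv⟩ => ⟨v, h2 m m' v hmm hv⟩
            · refine Or.inr fun m m' hm hm' hmm n hn => ?_
              rw [hch'] at hn ⊢
              refine ⟨?_, fun h => hn.2 (h2 m m' n hmm h)⟩
              by_contra hc
              have e1 : (if ∃ v, R m v then 1 else 0) = t := hm.2
              have e2 : (if ∃ v, R m' v then 1 else 0) = t := hm'.2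
              rw [if_neg hc] at e1
              rw [if_pos hn.1] at e2
              omega
          · -- shrinking
            refine ⟨2, fun m => if ∃ v, R m v then 0 else 1, fun m => ?_, fun m m' _ _ hmm => ?_,
              fun t => ?_⟩
            · dsimp only
              split_ifs <;> norm_num
            · exact ite01 fun ⟨v, hv⟩ => ⟨v, h2 m m' v hmm hv⟩
            · refine Or.inl fun m m' hm hm' hmm n hn => ?_
              rw [hch'] at hn ⊢
              refine ⟨?_, fun h => hn.2 (h2 m m' n hmm h)⟩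
              by_contra hc
              have e1 : (if ∃ v, R m v then 0 else 1) = t := hm.2
              have e2 : (if ∃ v, R m' v then 0 else 1) = t := hm'.2
              rw [if_pos hn.1] at e1
              rw [if_neg hc] at e2
              omega
    · obtain ⟨l, rfl⟩ : ∃ l, k = l + 2 := ⟨k - 2, by omega⟩
      refine ⟨1, fun _ => 0, fun _ => by norm_num, fun _ _ _ _ _ => le_rfl, fun t =>
        Or.inl fun m m' _ _ _ n h => ?_⟩
      obtain ⟨u, hu, _⟩ := h
      exact absurd hu (alt_two h1 l m u)

theorem pm_unary {lt : ℕ → ℕ → Prop} (P : ℕ → Prop) :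
    IsPiecewiseMonotone lt (fun m _ => P m) (fun _ => True) (fun _ => True) := by
  have h0 : ∀ k m u, ¬ Alternates lt (fun m _ => P m) (fun _ => True) (k + 1) m u := by
    rintro k m u ⟨_, v, _, _, h⟩
    have h' : P m ↔ ¬ P m := h
    tauto
  refine ⟨fun m _ => ⟨1, fun n ⟨u, hu, _⟩ => h0 0 m u hu⟩, fun k => ⟨1, fun _ => 0,
    fun _ => by norm_num, fun _ _ _ _ _ => le_rfl, fun t => Or.inl fun m m' _ _ _ n h => ?_⟩⟩
  cases k with
  | zero => exact h
  | succ k =>
    obtain ⟨u, hu, _⟩ := h
    exact absurd hu (h0 k m u)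

/-! ### The definable relations -/

/-- The reflexive order. -/
def ble (x : BStr) (m n : ℕ) : Prop := m = n ∨ blt x m n

/-- The relations defined from one relation. -/
def DE (r i : ℕ) (x : BStr) (m n : ℕ) : Prop :=
  match r with
  | 0 => ∃ m' n', brel x i m' n' ∧ ble x m' m ∧ ble x n n'
  | 1 => ∃ m' n', brel x i m' n' ∧ ble x m m' ∧ ble x n' n
  | 2 => ∃ m' n', brel x i m' n' ∧ ble x m' m ∧ ble x n' n
  | 3 => ∃ m' n', brel x i m' n' ∧ ble x m m' ∧ ble x n n'
  | 4 => ∃ n', brel x i m n'
  | _ => ∃ m', brel x i m' m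

/-- The definable relations. -/
def DD (k : ℕ) (x : BStr) (m n : ℕ) : Prop :=
  match k with
  | 0 => blt x m n
  | k + 1 => DE (k % 6) (k / 6) x m n

theorem m_x (i : ℕ) (v : Fin 2 → ℕ) : Measurable fun x : BStr => (x i v = true : Prop) := by
  have h1 : Measurable fun x : BStr => x i v := (measurable_pi_apply v).comp (measurable_pi_apply i)
  have h2 : Measurable fun b : Bool => (b = true : Prop) := Measurable.of_discrete
  exact h2.comp h1

theorem m_blt (m n : ℕ) : Measurable fun x : BStr => blt x m n := m_x 0 _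

theorem m_brel (i m n : ℕ) : Measurable fun x : BStr => brel x i m n := m_x (i + 1) _

theorem m_ble (m n : ℕ) : Measurable fun x : BStr => ble x m n := .or measurable_const (m_blt m n)

theorem m_DE (r i m n : ℕ) : Measurable fun x : BStr => DE r i x m n := by
  rcases r with _ | _ | _ | _ | _ | r
  · exact .exists fun _ => .exists fun _ => .and (m_brel _ _ _) (.and (m_ble _ _) (m_ble _ _))
  · exact .exists fun _ => .exists fun _ => .and (m_brel _ _ _) (.and (m_ble _ _) (m_ble _ _))
  · exact .exists fun _ => .exists fun _ => .and (m_brel _ _ _) (.and (m_ble _ _) (m_ble _ _))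
  · exact .exists fun _ => .exists fun _ => .and (m_brel _ _ _) (.and (m_ble _ _) (m_ble _ _))
  · exact .exists fun _ => m_brel _ _ _
  · exact .exists fun _ => m_brel _ _ _

theorem m_DD (k m n : ℕ) : Measurable fun x : BStr => DD k x m n := by
  cases k with
  | zero => exact m_blt m n
  | succ k => exact m_DE _ _ m n

open Pool.Agent.Results.MP_5607ba_lc.PiecewiseMonotone (act Definable DefinableSet Determined)

theorem blt_act (σ : Equiv.Perm ℕ) (x : BStr) (m n : ℕ) :
    blt (act σ x) (σ m) (σ n) ↔ blt x m n := by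
  have h : ⇑σ.symm ∘ ![σ m, σ n] = ![m, n] := by
    funext i
    fin_cases i <;> simp
  unfold blt act
  rw [h]

theorem brel_act (σ : Equiv.Perm ℕ) (x : BStr) (i m n : ℕ) :
    brel (act σ x) i (σ m) (σ n) ↔ brel x i m n := by
  have h : ⇑σ.symm ∘ ![σ m, σ n] = ![m, n] := by
    funext i
    fin_cases i <;> simp
  unfold brel act
  rw [h]

theorem ble_act (σ : Equiv.Perm ℕ) (x : BStr) (m n : ℕ) :
    ble (act σ x) (σ m) (σ n) ↔ ble x m n := by
  unfold ble
  rw [blt_act, σ.injective.eq_iff]

theorem DE_act (σ : Equiv.Perm ℕ) (r i : ℕ) (x : BStr) (m n : ℕ) :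
    DE r i (act σ x) (σ m) (σ n) ↔ DE r i x m n := by
  rcases r with _ | _ | _ | _ | _ | r
  · show (∃ m' n', brel (act σ x) i m' n' ∧ ble (act σ x) m' (σ m) ∧
      ble (act σ x) (σ n) n') ↔ ∃ m' n', brel x i m' n' ∧ ble x m' m ∧ ble x n n'
    rw [σ.surjective.exists]
    refine exists_congr fun m' => ?_
    rw [σ.surjective.exists]
    simp only [brel_act, ble_act]
  · show (∃ m' n', brel (act σ x) i m' n' ∧ ble (act σ x) (σ m) m' ∧
      ble (act σ x) n' (σ n)) ↔ ∃ m' n', brel x i m' n' ∧ ble x m m' ∧ ble x n' n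
    rw [σ.surjective.exists]
    refine exists_congr fun m' => ?_
    rw [σ.surjective.exists]
    simp only [brel_act, ble_act]
  · show (∃ m' n', brel (act σ x) i m' n' ∧ ble (act σ x) m' (σ m) ∧
      ble (act σ x) n' (σ n)) ↔ ∃ m' n', brel x i m' n' ∧ ble x m' m ∧ ble x n' n
    rw [σ.surjective.exists]
    refine exists_congr fun m' => ?_
    rw [σ.surjective.exists]
    simp only [brel_act, ble_act]
  · show (∃ m' n', brel (act σ x) i m' n' ∧ ble (act σ x) (σ m) m' ∧
      ble (act σ x) (σ n) n') ↔ ∃ m' n', brel x i m' n' ∧ ble x m m' ∧ ble x n n'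
    rw [σ.surjective.exists]
    refine exists_congr fun m' => ?_
    rw [σ.surjective.exists]
    simp only [brel_act, ble_act]
  · show (∃ n', brel (act σ x) i (σ m) n') ↔ ∃ n', brel x i m n'
    rw [σ.surjective.exists]
    simp only [brel_act]
  · show (∃ m', brel (act σ x) i m' (σ m)) ↔ ∃ m', brel x i m' m
    rw [σ.surjective.exists]
    simp only [brel_act]

theorem DD_act (σ : Equiv.Perm ℕ) (k : ℕ) (x : BStr) (m n : ℕ) :
    DD k (act σ x) (σ m) (σ n) ↔ DD k x m n := by
  cases k with
  | zero => exact blt_act σ x m n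
  | succ k => exact DE_act σ _ _ x m n

theorem definable (k : ℕ) : Definable fun (_ : List ℕ) (x : BStr) => DD k x :=
  ⟨fun _ m n => (m_DD k m n).setOf, fun _ x σ m n => DD_act σ k x m n⟩

/-- Linear orders with monotone relations. -/
def MonoB (x : BStr) : Prop := StrictLinear (blt x) ∧ ∀ i, IncN (blt x) (brel x i) ∨ DecN (blt x) (brel x i)

section
variable {x : BStr}

theorem ble_trans (hL : StrictLinear (blt x)) {a b c : ℕ} (h : ble x a b) (h' : ble x b c) :
    ble x a c := by
  rcases h with rfl | h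
  · exact h'
  · rcases h' with rfl | h'
    · exact Or.inr h
    · exact Or.inr (hL.trans _ _ _ h h')

theorem ble_antisymm (hL : StrictLinear (blt x)) {a b : ℕ} (h : ble x a b) (h' : ble x b a) :
    a = b := by
  rcases h with rfl | h
  · rfl
  · rcases h' with rfl | h'
    · rfl
    · exact absurd (hL.trans _ _ _ h h') (hL.irrefl _)

theorem ble_total (hL : StrictLinear (blt x)) (a b : ℕ) : ble x a b ∨ ble x b a := by
  rcases hL.total a b with h | h | h
  · exact Or.inl (Or.inl h)
  · exact Or.inl (Or.inr h)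
  · exact Or.inr (Or.inr h)

theorem pm_DE (hL : StrictLinear (blt x)) (r i : ℕ) :
    IsPiecewiseMonotone (blt x) (DE r i x) (fun _ => True) (fun _ => True) := by
  have t := @ble_trans x hL
  rcases r with _ | _ | _ | _ | _ | r
  · show IsPiecewiseMonotone (blt x) (fun m n => ∃ m' n', brel x i m' n' ∧ ble x m' m ∧
      ble x n n') _ _
    exact pm_of hL (Or.inr fun m n n' h ⟨a, b, h1, h2, h3⟩ => ⟨a, b, h1, h2, t (Or.inr h) h3⟩)
      (Or.inl fun m m' n h ⟨a, b, h1, h2, h3⟩ => ⟨a, b, h1, t h2 (Or.inr h), h3⟩)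
  · show IsPiecewiseMonotone (blt x) (fun m n => ∃ m' n', brel x i m' n' ∧ ble x m m' ∧
      ble x n' n) _ _
    exact pm_of hL (Or.inl fun m n n' h ⟨a, b, h1, h2, h3⟩ => ⟨a, b, h1, h2, t h3 (Or.inr h)⟩)
      (Or.inr fun m m' n h ⟨a, b, h1, h2, h3⟩ => ⟨a, b, h1, t (Or.inr h) h2, h3⟩)
  · show IsPiecewiseMonotone (blt x) (fun m n => ∃ m' n', brel x i m' n' ∧ ble x m' m ∧
      ble x n' n) _ _
    exact pm_of hL (Or.inl fun m n n' h ⟨a, b, h1, h2, h3⟩ => ⟨a, b, h1, h2, t h3 (Or.inr h)⟩)
      (Or.inl fun m m' n h ⟨a, b, h1, h2, h3⟩ => ⟨a, b, h1, t h2 (Or.inr h), h3⟩)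
  · show IsPiecewiseMonotone (blt x) (fun m n => ∃ m' n', brel x i m' n' ∧ ble x m m' ∧
      ble x n n') _ _
    exact pm_of hL (Or.inr fun m n n' h ⟨a, b, h1, h2, h3⟩ => ⟨a, b, h1, h2, t (Or.inr h) h3⟩)
      (Or.inr fun m m' n h ⟨a, b, h1, h2, h3⟩ => ⟨a, b, h1, t (Or.inr h) h2, h3⟩)
  · exact pm_unary fun m => ∃ n', brel x i m n'
  · exact pm_unary fun m => ∃ m', brel x i m' m

theorem pm_DD (hL : StrictLinear (blt x)) (k : ℕ) :
    IsPiecewiseMonotone (blt x) (DD k x) (fun _ => True) (fun _ => True) := by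
  cases k with
  | zero =>
    exact pm_of hL (Or.inl fun m n n' h h' => hL.trans m n n' h' h)
      (Or.inr fun m m' n h h' => hL.trans m m' n h h')
  | succ k => exact pm_DE hL _ _

theorem inc_char (hL : StrictLinear (blt x)) {i : ℕ} (h : IncN (blt x) (brel x i)) (m n : ℕ) :
    brel x i m n ↔ (∃ n', brel x i m n') ∧ (∃ m', brel x i m' n) ∧
      (∃ m' n', brel x i m' n' ∧ ble x m' m ∧ ble x n n') ∧
      ∃ m' n', brel x i m' n' ∧ ble x m m' ∧ ble x n' n := by
  constructor
  · intro h1
    exact ⟨⟨n, h1⟩, ⟨m, h1⟩, ⟨m, n, h1, Or.inl rfl, Or.inl rfl⟩, m, n, h1, Or.inl rfl, Or.inl rfl⟩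
  · rintro ⟨⟨b, hb⟩, ⟨a, ha⟩, ⟨m1, n1, h1, h1m, h1n⟩, m2, n2, h2, h2m, h2n⟩
    have an := @ble_antisymm x hL
    have tr := @ble_trans x hL
    rcases hL.total m a with e | e | e
    · exact e ▸ ha
    · -- `m < a`, hence `b ≤ n`
      have hbn : ble x b n := h m b a n hb ha e
      rcases h1m with rfl | h1m
      · -- `C m n1`, `n ≤ n1`; also `n1 ≤ n` as `m < a`
        have h3 : ble x n1 n := h m1 n1 a n h1 ha e
        exact an h1n h3 ▸ h1
      · have h3 : ble x n1 b := h m1 n1 m b h1 hb h1m
        have h4 : n = b := an (tr h1n h3) hbn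
        exact h4 ▸ hb
    · -- `a < m`, hence `n ≤ b`
      have hbn : ble x n b := h a n m b ha hb e
      rcases h2m with rfl | h2m
      · have h3 : ble x n n2 := h a n m n2 ha h2 e
        exact an h3 h2n ▸ h2
      · have h3 : ble x b n2 := h m b m2 n2 hb h2 h2m
        have h4 : n = b := an hbn (tr h3 h2n)
        exact h4 ▸ hb

theorem dec_char (hL : StrictLinear (blt x)) {i : ℕ} (h : DecN (blt x) (brel x i)) (m n : ℕ) :
    brel x i m n ↔ (∃ n', brel x i m n') ∧ (∃ m', brel x i m' n) ∧
      (∃ m' n', brel x i m' n' ∧ ble x m' m ∧ ble x n' n) ∧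
      ∃ m' n', brel x i m' n' ∧ ble x m m' ∧ ble x n n' := by
  have h' : ∀ m n m' n', brel x i m n → brel x i m' n' → blt x m m' → ble x n' n := by
    intro m n m' n' h1 h2 h3
    rcases h m n m' n' h1 h2 h3 with e | e
    · exact Or.inl e.symm
    · exact Or.inr e
  constructor
  · intro h1
    exact ⟨⟨n, h1⟩, ⟨m, h1⟩, ⟨m, n, h1, Or.inl rfl, Or.inl rfl⟩, m, n, h1, Or.inl rfl, Or.inl rfl⟩
  · rintro ⟨⟨b, hb⟩, ⟨a, ha⟩, ⟨m1, n1, h1, h1m, h1n⟩, m2, n2, h2, h2m, h2n⟩
    have an := @ble_antisymm x hL
    have tr := @ble_trans x hL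
    rcases hL.total m a with e | e | e
    · exact e ▸ ha
    · -- `m < a`, hence `n ≤ b`
      have hbn : ble x n b := h' m b a n hb ha e
      rcases h1m with rfl | h1m
      · have h3 : ble x n n1 := h' m1 n1 a n h1 ha e
        exact an h3 h1n ▸ h1
      · have h3 : ble x b n1 := h' m1 n1 m b h1 hb h1m
        have h4 : n = b := an hbn (tr h3 h1n)
        exact h4 ▸ hb
    · -- `a < m`, hence `b ≤ n`
      have hbn : ble x b n := h' a n m b ha hb e
      rcases h2m with rfl | h2m
      · have h3 : ble x n2 n := h' a n m n2 ha h2 e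
        exact an h2n h3 ▸ h2
      · have h3 : ble x n2 b := h' m b m2 n2 hb h2 h2m
        have h4 : n = b := an (tr h2n h3) hbn
        exact h4 ▸ hb

theorem det_DD (hx : MonoB x) (i : ℕ) : ∃ J : Finset ℕ, Determined x i (fun j => DD j x) J := by
  have hv : ∀ v : Fin 2 → ℕ, v = ![v 0, v 1] := by
    intro v
    funext i
    fin_cases i <;> rfl
  cases i with
  | zero =>
    refine ⟨{0}, fun v w h => ?_⟩
    have h1 : blt x (v 0) (v 1) ↔ blt x (w 0) (w 1) := h 0 (Finset.mem_singleton_self 0) 0 1
    unfold blt at h1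
    rw [hv v, hv w]
    exact Bool.eq_iff_iff.mpr h1
  | succ i =>
    refine ⟨{6 * i + 1, 6 * i + 2, 6 * i + 3, 6 * i + 4, 6 * i + 5, 6 * i + 6}, fun v w h => ?_⟩
    have a0 : (6 * i) % 6 = 0 := by omega
    have b0 : (6 * i) / 6 = i := by omega
    have a1 : (6 * i + 1) % 6 = 1 := by omega
    have b1 : (6 * i + 1) / 6 = i := by omega
    have a2 : (6 * i + 2) % 6 = 2 := by omega
    have b2 : (6 * i + 2) / 6 = i := by omega
    have a3 : (6 * i + 3) % 6 = 3 := by omega
    have b3 : (6 * i + 3) / 6 = i := by omega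
    have a4 : (6 * i + 4) % 6 = 4 := by omega
    have b4 : (6 * i + 4) / 6 = i := by omega
    have a5 : (6 * i + 5) % 6 = 5 := by omega
    have b5 : (6 * i + 5) / 6 = i := by omega
    have c0 : (∃ m' n', brel x i m' n' ∧ ble x m' (v 0) ∧ ble x (v 1) n') ↔
        ∃ m' n', brel x i m' n' ∧ ble x m' (w 0) ∧ ble x (w 1) n' := by
      have := h (6 * i + 1) (by simp) 0 1
      simp only [DD, DE, a0, b0] at this
      exact this
    have c1 : (∃ m' n', brel x i m' n' ∧ ble x (v 0) m' ∧ ble x n' (v 1)) ↔
        ∃ m' n', brel x i m' n' ∧ ble x (w 0) m' ∧ ble x n' (w 1) := by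
      have := h (6 * i + 2) (by simp) 0 1
      simp only [DD, DE, a1, b1] at this
      exact this
    have c2 : (∃ m' n', brel x i m' n' ∧ ble x m' (v 0) ∧ ble x n' (v 1)) ↔
        ∃ m' n', brel x i m' n' ∧ ble x m' (w 0) ∧ ble x n' (w 1) := by
      have := h (6 * i + 3) (by simp) 0 1
      simp only [DD, DE, a2, b2] at this
      exact this
    have c3 : (∃ m' n', brel x i m' n' ∧ ble x (v 0) m' ∧ ble x (v 1) n') ↔
        ∃ m' n', brel x i m' n' ∧ ble x (w 0) m' ∧ ble x (w 1) n' := by
      have := h (6 * i + 4) (by simp) 0 1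
      simp only [DD, DE, a3, b3] at this
      exact this
    have c4 : (∃ n', brel x i (v 0) n') ↔ ∃ n', brel x i (w 0) n' := by
      have := h (6 * i + 5) (by simp) 0 1
      simp only [DD, DE, a4, b4] at this
      exact this
    have c5 : (∃ m', brel x i m' (v 1)) ↔ ∃ m', brel x i m' (w 1) := by
      have := h (6 * i + 6) (by simp) 1 0
      simp only [DD, DE, a5, b5] at this
      exact this
    have h1 : brel x i (v 0) (v 1) ↔ brel x i (w 0) (w 1) := by
      rcases hx.2 i with h2 | h2
      · rw [inc_char hx.1 h2, inc_char hx.1 h2, c0, c1, c4, c5]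
      · rw [dec_char hx.1 h2, dec_char hx.1 h2, c2, c3, c4, c5]
    unfold brel at h1
    rw [hv v, hv w]
    exact Bool.eq_iff_iff.mpr h1

end

/-- The dichotomy for linear orders with monotone relations. -/
theorem dich_inf (B : Set BStr) (hB : MeasurableSet B) (hi : ∀ x y, Iso x y → (x ∈ B ↔ y ∈ B))
    (hm : ∀ x ∈ B, MonoB x) : CountableOrPerfect B := by
  refine Pool.Agent.Results.MP_5607ba_lc.PiecewiseMonotone.result.1 (fun _ => 2)
    (fun k _ x => DD k x) (fun _ _ _ _ => True) definable
    (fun _ => ⟨fun _ _ => MeasurableSet.univ, fun _ _ _ _ => Iff.rfl⟩) B hB hi fun x hx => ?_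
  refine ⟨0, [], (hm x hx).1, fun i => ?_⟩
  obtain ⟨J, hJ⟩ := det_DD (hm x hx) i
  exact ⟨J, fun j _ m n => ⟨0, 0, trivial, trivial, pm_DD (hm x hx).1 j⟩, hJ⟩

end Pool.Agent.H642.MR
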