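import Pool.Agent.H642.MR.Rel
import Pool.Agent.H642.MR.GapGrp

set_option autoImplicit false

/-!
The second set of marked points of a sequence of closed monotone relations, its invariance under the
partial action of the words, and the group of a gap.
-/

open Set

namespace Pool.Agent.H642.MR

open Pool.Agent.H642.TV

variable {C : ℕ → Set (ℝ × ℝ)}

theorem Adm.PW_gap' (h : Adm C) {w : List Ltr} {t y x : ℝ} (hty : PW C w t y)
    (hG : SG (A1 C) y x) : ∃ s, PW C w s x ∧ SG (A1 C) t s := by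
  obtain ⟨s, h1, h2⟩ := h.PW_gap (PW_wi.mpr hty) hG
  exact ⟨s, PW_wi.mp h1, h2⟩

/-- Words act continuously. -/
theorem Adm.PW_cont (h : Adm C) {w : List Ltr} {t y l u : ℝ} (hty : PW C w t y) (hl : l < y)
    (hu : y < u) : ∃ l' u', l' < t ∧ t < u' ∧ (∀ s, l' ≤ s → s ≤ u' → SG (A1 C) t s) ∧
      ∀ s, l' ≤ s → s ≤ u' → ∃ z, PW C w s z ∧ l < z ∧ z < u := by
  have hopen := isOpen_gap (isClosed_A1 (C := C)) y
  obtain ⟨l1, u1, ⟨hl1, hu1⟩, hsub⟩ := mem_nhds_iff_exists_Ioo_subset.mp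
    (hopen.mem_nhds (show y ∈ {q | SG (A1 C) y q} from SG.refl hty.right))
  obtain ⟨y1, hy1, hy1'⟩ := exists_between (max_lt hl hl1)
  obtain ⟨y2, hy2, hy2'⟩ := exists_between (lt_min hu hu1)
  have ly1 : l < y1 := lt_of_le_of_lt (le_max_left _ _) hy1
  have ly1' : l1 < y1 := lt_of_le_of_lt (le_max_right _ _) hy1
  have ly2 : y2 < u := lt_of_lt_of_le hy2' (min_le_left _ _)
  have ly2' : y2 < u1 := lt_of_lt_of_le hy2' (min_le_right _ _)
  obtain ⟨s1, hs1, hs1'⟩ := h.PW_gap' hty (show SG (A1 C) y y1 from hsub ⟨ly1', hy1'.trans hu1⟩)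
  obtain ⟨s2, hs2, hs2'⟩ := h.PW_gap' hty (show SG (A1 C) y y2 from hsub ⟨hl1.trans hy2, ly2'⟩)
  have ht : SG (A1 C) t t := SG.refl hty.left
  rcases h.incAt_or_decAt hty with hm | hm
  · have h1 : s1 < t := by
      rcases lt_trichotomy s1 t with e | e | e
      · exact e
      · subst e
        exact absurd (hs1.unique hty) hy1'.ne
      · exact absurd (hm _ _ _ _ ht hs1' hty hs1 e) (not_lt.mpr hy1'.le)
    have h2 : t < s2 := by
      rcases lt_trichotomy s2 t with e | e | e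
      · exact absurd (hm _ _ _ _ hs2' ht hs2 hty e) (not_lt.mpr hy2.le)
      · subst e
        exact absurd (hs2.unique hty) hy2.ne'
      · exact e
    have hin : ∀ s, s1 ≤ s → s ≤ s2 → SG (A1 C) t s := fun s e1 e2 => hs1'.between hs2' e1 e2
    refine ⟨s1, s2, h1, h2, hin, fun s e1 e2 => ?_⟩
    obtain ⟨z, hz, _⟩ := h.PW_gap hty (hin s e1 e2)
    refine ⟨z, hz, ?_, ?_⟩
    · rcases e1.eq_or_lt with e | e
      · subst e
        rw [hz.unique hs1]
        exact ly1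
      · exact ly1.trans (hm _ _ _ _ hs1' (hin s e1 e2) hs1 hz e)
    · rcases e2.eq_or_lt with e | e
      · subst e
        rw [hz.unique hs2]
        exact ly2
      · exact (hm _ _ _ _ (hin s e1 e2) hs2' hz hs2 e).trans ly2
  · have h1 : t < s1 := by
      rcases lt_trichotomy s1 t with e | e | e
      · exact absurd (hm _ _ _ _ hs1' ht hs1 hty e) (not_lt.mpr hy1'.le)
      · subst e
        exact absurd (hs1.unique hty) hy1'.ne
      · exact e
    have h2 : s2 < t := by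
      rcases lt_trichotomy s2 t with e | e | e
      · exact e
      · subst e
        exact absurd (hs2.unique hty) hy2.ne'
      · exact absurd (hm _ _ _ _ ht hs2' hty hs2 e) (not_lt.mpr hy2.le)
    have hin : ∀ s, s2 ≤ s → s ≤ s1 → SG (A1 C) t s := fun s e1 e2 => hs2'.between hs1' e1 e2
    refine ⟨s2, s1, h2, h1, hin, fun s e1 e2 => ?_⟩
    obtain ⟨z, hz, _⟩ := h.PW_gap hty (hin s e1 e2)
    refine ⟨z, hz, ?_, ?_⟩
    · rcases e2.eq_or_lt with e | e
      · subst e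
        rw [hz.unique hs1]
        exact ly1
      · exact ly1.trans (hm _ _ _ _ (hin s e1 e2) hs1' hz hs1 e)
    · rcases e1.eq_or_lt with e | e
      · subst e
        rw [hz.unique hs2]
        exact ly2
      · exact (hm _ _ _ _ hs2' (hin s e1 e2) hs2 hz e).trans ly2

/-- Points between two points of a gap are mapped between the images. -/
theorem Adm.PW_between (h : Adm C) {w : List Ltr} {t y s z x : ℝ} (hty : PW C w t y)
    (hG : SG (A1 C) t s) (hsz : PW C w s z) (hx : x ∈ uIcc y z) :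
    ∃ r ∈ uIcc t s, PW C w r x := by
  have hyz : SG (A1 C) y z := by
    obtain ⟨z', h1, h2⟩ := h.PW_gap hty hG
    rw [hsz.unique h1]
    exact h2
  obtain ⟨r, hr, hr'⟩ := h.PW_gap' hty (hyz.mem hx)
  refine ⟨r, ?_, hr⟩
  have ht : SG (A1 C) t t := SG.refl hty.left
  have key : ∀ p q yp yq, SG (A1 C) t p → SG (A1 C) t q → PW C w p yp → PW C w q yq →
      ((yp < yq ↔ p < q) ∨ (yp < yq ↔ q < p)) := by
    intro p q yp yq hp hq hpy hqy
    rcases h.incAt_or_decAt hty with hm | hm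
    · left
      constructor
      · intro e
        rcases lt_trichotomy p q with e1 | e1 | e1
        · exact e1
        · subst e1
          exact absurd (hpy.unique hqy) e.ne
        · exact absurd (hm _ _ _ _ hq hp hqy hpy e1) (not_lt.mpr e.le)
      · exact hm _ _ _ _ hp hq hpy hqy
    · right
      constructor
      · intro e
        rcases lt_trichotomy p q with e1 | e1 | e1
        · exact absurd (hm _ _ _ _ hp hq hpy hqy e1) (not_lt.mpr e.le)
        · subst e1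
          exact absurd (hpy.unique hqy) e.ne
        · exact e1
      · intro e
        exact hm _ _ _ _ hq hp hqy hpy e
  rw [mem_uIcc] at hx ⊢
  rcases h.incAt_or_decAt hty with hm | hm
  · have mono : ∀ p q yp yq, SG (A1 C) t p → SG (A1 C) t q → PW C w p yp → PW C w q yq →
        yp ≤ yq → p ≤ q := by
      intro p q yp yq hp hq hpy hqy e
      by_contra hc
      exact absurd (hm _ _ _ _ hq hp hqy hpy (not_le.mp hc)) (not_lt.mpr e)
    rcases hx with ⟨e1, e2⟩ | ⟨e1, e2⟩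
    · exact Or.inl ⟨mono _ _ _ _ ht hr' hty hr e1, mono _ _ _ _ hr' hG hr hsz e2⟩
    · exact Or.inr ⟨mono _ _ _ _ hG hr' hsz hr e1, mono _ _ _ _ hr' ht hr hty e2⟩
  · have mono : ∀ p q yp yq, SG (A1 C) t p → SG (A1 C) t q → PW C w p yp → PW C w q yq →
        yp ≤ yq → q ≤ p := by
      intro p q yp yq hp hq hpy hqy e
      by_contra hc
      exact absurd (hm _ _ _ _ hp hq hpy hqy (not_le.mp hc)) (not_lt.mpr e)
    rcases hx with ⟨e1, e2⟩ | ⟨e1, e2⟩
    · exact Or.inr ⟨mono _ _ _ _ hr' hG hr hsz e2, mono _ _ _ _ ht hr' hty hr e1⟩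
    · exact Or.inl ⟨mono _ _ _ _ hr' ht hr hty e2, mono _ _ _ _ hG hr' hsz hr e1⟩

/-! ### The second family of closed sets -/

/-- The fixed points of a word, together with the closure of the first marked points. -/
def FixS (C : ℕ → Set (ℝ × ℝ)) (w : List Ltr) : Set ℝ := A1 C ∪ {t | PW C w t t}

/-- Wandering intervals: they meet each orbit at most once. -/
def WI2 (C : ℕ → Set (ℝ × ℝ)) (u v : ℝ) : Prop :=
  (∀ t, u ≤ t → t ≤ v → t ∉ A1 C) ∧
    ∀ w t t', u < t → t < v → u < t' → t' < v → PW C w t t' → t = t'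

/-- The nonwandering set. -/
def NWS (C : ℕ → Set (ℝ × ℝ)) : Set ℝ := {t | ∀ u v, u < t → t < v → ¬ WI2 C u v}

/-- The second family. -/
def Fam2 (C : ℕ → Set (ℝ × ℝ)) : Set (Set ℝ) :=
  ((fun e : ℝ => ({e} : Set ℝ)) '' E1 C) ∪ {A1 C} ∪ range (FixS C) ∪ {NWS C}

theorem Fam2.single {e : ℝ} (he : e ∈ E1 C) : ({e} : Set ℝ) ∈ Fam2 C :=
  Or.inl (Or.inl (Or.inl ⟨e, he, rfl⟩))

theorem Fam2.a1 : A1 C ∈ Fam2 C := Or.inl (Or.inl (Or.inr rfl))

theorem Fam2.fix (w : List Ltr) : FixS C w ∈ Fam2 C := Or.inl (Or.inr ⟨w, rfl⟩)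

theorem Fam2.nws : NWS C ∈ Fam2 C := Or.inr rfl

/-- The closure of all marked points. -/
abbrev A2 (C : ℕ → Set (ℝ × ℝ)) : Set ℝ := AA (Fam2 C)

theorem isClosed_NWS : IsClosed (NWS C) := by
  rw [← isOpen_compl_iff, isOpen_iff_mem_nhds]
  intro t ht
  have ht' : ¬ ∀ u v, u < t → t < v → ¬ WI2 C u v := ht
  push Not at ht'
  obtain ⟨u, v, h1, h2, h3⟩ := ht'
  refine Filter.mem_of_superset (Ioo_mem_nhds h1 h2) fun s hs hs' => ?_
  exact hs' u v hs.1 hs.2 h3

theorem Adm.isClosed_FixS (h : Adm C) (w : List Ltr) : IsClosed (FixS C w) := by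
  rw [← isOpen_compl_iff, isOpen_iff_mem_nhds]
  intro t ht
  have h1 : t ∉ A1 C := fun hc => ht (Or.inl hc)
  have h2 : ¬ PW C w t t := fun hc => ht (Or.inr hc)
  by_cases h3 : ∃ y, PW C w t y
  · obtain ⟨y, hy⟩ := h3
    have hne : y ≠ t := fun e => h2 (e ▸ hy)
    obtain ⟨l, u, l2, u2, e1, e2, e3, e4, e5⟩ : ∃ l u l2 u2 : ℝ, l < y ∧ y < u ∧ l2 < t ∧ t < u2 ∧
        ∀ s z, l2 < s → s < u2 → l < z → z < u → s ≠ z := by
      rcases lt_or_gt_of_ne hne with e | e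
      · obtain ⟨m, hm1, hm2⟩ := exists_between e
        exact ⟨y - 1, m, m, t + 1, by linarith, hm1, hm2, by linarith, fun s z a _ _ b =>
          (b.trans a).ne'⟩
      · obtain ⟨m, hm1, hm2⟩ := exists_between e
        exact ⟨m, y + 1, t - 1, m, hm2, by linarith, by linarith, hm1, fun s z _ a b _ =>
          (a.trans b).ne⟩
    obtain ⟨l', u', a1, a2, a3, a4⟩ := h.PW_cont hy e1 e2
    refine Filter.mem_of_superset (Ioo_mem_nhds (max_lt a1 e3) (lt_min a2 e4)) fun s hs hs' => ?_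
    have b1 : l' < s := lt_of_le_of_lt (le_max_left _ _) hs.1
    have b2 : l2 < s := lt_of_le_of_lt (le_max_right _ _) hs.1
    have b3 : s < u' := lt_of_lt_of_le hs.2 (min_le_left _ _)
    have b4 : s < u2 := lt_of_lt_of_le hs.2 (min_le_right _ _)
    rcases hs' with hs' | hs'
    · exact (a3 s b1.le b3.le).right hs'
    · obtain ⟨z, hz, c1, c2⟩ := a4 s b1.le b3.le
      exact e5 s z b2 b4 c1 c2 (PW.unique hs' hz)
  · have hopen := isOpen_gap (isClosed_A1 (C := C)) t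
    refine Filter.mem_of_superset (hopen.mem_nhds (show t ∈ {q | SG (A1 C) t q} from SG.refl h1))
      fun s hs hs' => ?_
    have hs : SG (A1 C) t s := hs
    rcases hs' with hs' | hs'
    · exact hs.right hs'
    · obtain ⟨z, hz, _⟩ := h.PW_gap (show PW C w s s from hs') hs.symm
      exact h3 ⟨z, hz⟩

theorem Adm.isClosed_fam (h : Adm C) {S : Set ℝ} (hS : S ∈ Fam2 C) : IsClosed S := by
  rcases hS with ((⟨e, _, rfl⟩ | hS) | ⟨w, rfl⟩) | hS
  · exact isClosed_singleton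
  · rw [mem_singleton_iff.mp hS]
    exact isClosed_A1
  · exact h.isClosed_FixS w
  · rw [mem_singleton_iff.mp hS]
    exact isClosed_NWS

theorem countable_fam (h : Adm C) : (Fam2 C).Countable :=
  ((((countable_E1 h).image _).union (countable_singleton _)).union (countable_range _)).union
    (countable_singleton _)

theorem E1_sub_EE {e : ℝ} (he : e ∈ E1 C) : e ∈ EE (Fam2 C) :=
  ⟨{e}, Fam2.single he, Or.inl ⟨rfl, e - 1, by linarith, fun t _ ht hte => ht.ne hte⟩⟩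

theorem A1_sub_A2 {t : ℝ} (ht : t ∈ A1 C) : t ∈ A2 C :=
  closure_mono (fun _ he => E1_sub_EE he) ht

theorem sg21 {t s : ℝ} (h : SG (A2 C) t s) : SG (A1 C) t s := fun x hx hxA =>
  h x hx (A1_sub_A2 hxA)

theorem Adm.fam_const (h : Adm C) {S : Set ℝ} (hS : S ∈ Fam2 C) {t s : ℝ} (hG : SG (A2 C) t s)
    (ht : t ∈ S) : s ∈ S := by
  refine const (h.isClosed_fam hS) (fun x hx => ?_) hG ht
  have h1 : x ∈ EE (Fam2 C) := ⟨S, hS, hx⟩
  exact subset_closure h1

theorem Adm.fix_const (h : Adm C) {w : List Ltr} {t s : ℝ} (hG : SG (A2 C) t s)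
    (ht : PW C w t t) : PW C w s s := by
  have h1 : s ∈ FixS C w := h.fam_const (Fam2.fix w) hG (Or.inr ht)
  rcases h1 with h1 | h1
  · exact absurd (A1_sub_A2 h1) hG.right
  · exact h1

theorem Adm.nws_const (h : Adm C) {t s : ℝ} (hG : SG (A2 C) t s) (ht : t ∈ NWS C) : s ∈ NWS C :=
  h.fam_const Fam2.nws hG ht

/-! ### Invariance -/

/-- Transport of end points by a word. -/
theorem Adm.end_transfer (h : Adm C) {w : List Ltr} {t y : ℝ} (hty : PW C w t y) {S S' : Set ℝ}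
    (hS : ∀ s z, SG (A1 C) t s → PW C w s z → (s ∈ S ↔ z ∈ S'))
    (he : LEnd S t ∨ REnd S t) : LEnd S' y ∨ REnd S' y := by
  have ht : SG (A1 C) t t := SG.refl hty.left
  have hy : y ∈ S' := (hS t y ht hty).mp (by rcases he with he | he <;> exact he.1)
  have hopen := isOpen_gap (isClosed_A1 (C := C)) t
  obtain ⟨l1, u1, ⟨hl1, hu1⟩, hsub⟩ := mem_nhds_iff_exists_Ioo_subset.mp
    (hopen.mem_nhds (show t ∈ {q | SG (A1 C) t q} from ht))
  rcases he with ⟨_, u, hu, hu'⟩ | ⟨_, v, hv, hv'⟩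
  · obtain ⟨u2, e1, e2⟩ := exists_between (max_lt hu hl1)
    have e3 : u < u2 := lt_of_le_of_lt (le_max_left _ _) e1
    have e4 : SG (A1 C) t u2 := hsub ⟨lt_of_le_of_lt (le_max_right _ _) e1, e2.trans hu1⟩
    obtain ⟨y2, hy2, hy2'⟩ := h.PW_gap hty e4
    have key : ∀ z, z ∈ uIcc y y2 → z ≠ y → z ≠ y2 → z ∉ S' := by
      intro z hz hz1 hz2 hzS
      obtain ⟨r, hr, hrz⟩ := h.PW_between hty e4 hy2 hz
      rw [uIcc_of_ge e2.le] at hr
      have hr1 : r ≠ t := fun e => hz1 (by subst e; exact hrz.unique hty)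
      have hr3 : r ≠ u2 := fun e => hz2 (by subst e; exact hrz.unique hy2)
      have hr2 : r < t := lt_of_le_of_ne hr.2 hr1
      have hr4 : u2 < r := lt_of_le_of_ne hr.1 (Ne.symm hr3)
      have hGr : SG (A1 C) t r := e4.between ht hr.1 hr.2
      exact hu' r (e3.trans hr4) hr2 ((hS r z hGr hrz).mpr hzS)
    rcases h.incAt_or_decAt hty with hm | hm
    · left
      refine ⟨hy, y2, hm _ _ _ _ e4 ht hy2 hty e2, fun z hz1 hz2 => key z ?_ hz2.ne hz1.ne'⟩
      rw [mem_uIcc]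
      exact Or.inr ⟨hz1.le, hz2.le⟩
    · right
      refine ⟨hy, y2, hm _ _ _ _ e4 ht hy2 hty e2, fun z hz1 hz2 => key z ?_ hz1.ne' hz2.ne⟩
      rw [mem_uIcc]
      exact Or.inl ⟨hz1.le, hz2.le⟩
  · obtain ⟨u2, e2, e1⟩ := exists_between (lt_min hv hu1)
    have e3 : u2 < v := lt_of_lt_of_le e1 (min_le_left _ _)
    have e4 : SG (A1 C) t u2 := hsub ⟨hl1.trans e2, lt_of_lt_of_le e1 (min_le_right _ _)⟩
    obtain ⟨y2, hy2, hy2'⟩ := h.PW_gap hty e4
    have key : ∀ z, z ∈ uIcc y y2 → z ≠ y → z ≠ y2 → z ∉ S' := by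
      intro z hz hz1 hz2 hzS
      obtain ⟨r, hr, hrz⟩ := h.PW_between hty e4 hy2 hz
      rw [uIcc_of_le e2.le] at hr
      have hr1 : r ≠ t := fun e => hz1 (by subst e; exact hrz.unique hty)
      have hr3 : r ≠ u2 := fun e => hz2 (by subst e; exact hrz.unique hy2)
      have hr2 : t < r := lt_of_le_of_ne hr.1 (Ne.symm hr1)
      have hr4 : r < u2 := lt_of_le_of_ne hr.2 hr3
      have hGr : SG (A1 C) t r := ht.between e4 hr.1 hr.2
      exact hv' r hr2 (hr4.trans e3) ((hS r z hGr hrz).mpr hzS)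
    rcases h.incAt_or_decAt hty with hm | hm
    · right
      refine ⟨hy, y2, hm _ _ _ _ ht e4 hty hy2 e2, fun z hz1 hz2 => key z ?_ hz1.ne' hz2.ne⟩
      rw [mem_uIcc]
      exact Or.inl ⟨hz1.le, hz2.le⟩
    · left
      refine ⟨hy, y2, hm _ _ _ _ ht e4 hty hy2 e2, fun z hz1 hz2 => key z ?_ hz2.ne hz1.ne'⟩
      rw [mem_uIcc]
      exact Or.inr ⟨hz1.le, hz2.le⟩

theorem Adm.nws_inv (h : Adm C) {w : List Ltr} {t y : ℝ} (hty : PW C w t y) (ht : t ∈ NWS C) :
    y ∈ NWS C := by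
  intro u v hu hv hW
  obtain ⟨l', u', e1, e2, e3, e4⟩ := h.PW_cont hty hu hv
  refine ht l' u' e1 e2 ⟨fun s hs1 hs2 => (e3 s hs1 hs2).right, fun x s s' a1 a2 a3 a4 hx => ?_⟩
  obtain ⟨z, hz, b1, b2⟩ := e4 s a1.le a2.le
  obtain ⟨z', hz', b1', b2'⟩ := e4 s' a3.le a4.le
  have h1 : PW C (wi w ++ (x ++ w)) z z' :=
    PW_append.mpr ⟨s, PW_wi.mpr hz, PW_append.mpr ⟨s', hx, hz'⟩⟩
  have h2 := hW.2 _ z z' b1 b2 b1' b2' h1
  subst h2
  exact hz.inj hz'

theorem Adm.nws_iff (h : Adm C) {w : List Ltr} {t y : ℝ} (hty : PW C w t y) :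
    t ∈ NWS C ↔ y ∈ NWS C :=
  ⟨h.nws_inv hty, h.nws_inv (PW_wi.mpr hty)⟩

theorem fix_iff {w v : List Ltr} {t y : ℝ} (hty : PW C w t y) :
    PW C v t t ↔ PW C (wi w ++ (v ++ w)) y y := by
  constructor
  · intro hv
    exact PW_append.mpr ⟨t, PW_wi.mpr hty, PW_append.mpr ⟨t, hv, hty⟩⟩
  · intro hv
    obtain ⟨t', h1, h2⟩ := PW_append.mp hv
    obtain ⟨t'', h3, h4⟩ := PW_append.mp h2
    have e1 : t' = t := (PW_wi.mp h1).inj hty
    have e2 : t'' = t := h4.inj hty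
    subst e1 e2
    exact h3

theorem Adm.EE_inv (h : Adm C) {w : List Ltr} {t y : ℝ} (hty : PW C w t y)
    (ht : t ∈ EE (Fam2 C)) : y ∈ EE (Fam2 C) := by
  obtain ⟨S, hS, he⟩ := ht
  have htS : t ∈ S := by rcases he with he | he <;> exact he.1
  rcases hS with ((⟨e, he1, rfl⟩ | hS) | ⟨v, rfl⟩) | hS
  · exact absurd (E1_sub_A1 (mem_singleton_iff.mp htS ▸ he1)) hty.left
  · rw [mem_singleton_iff.mp hS] at htS
    exact absurd htS hty.left
  · refine ⟨FixS C (wi w ++ (v ++ w)), Fam2.fix _, h.end_transfer hty (fun s z hs hz => ?_) he⟩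
    constructor
    · rintro (h1 | h1)
      · exact absurd h1 hs.right
      · exact Or.inr ((fix_iff hz).mp h1)
    · rintro (h1 | h1)
      · exact absurd h1 hz.right
      · exact Or.inr ((fix_iff hz).mpr h1)
  · rw [mem_singleton_iff.mp hS] at he
    exact ⟨NWS C, Fam2.nws, h.end_transfer hty (fun s z _ hz => h.nws_iff hz) he⟩

theorem Adm.A2_inv' (h : Adm C) {w : List Ltr} {t y : ℝ} (hty : PW C w t y) (ht : t ∈ A2 C) :
    y ∈ A2 C := by
  show y ∈ closure (EE (Fam2 C))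
  rw [mem_closure_iff_nhds]
  intro U hU
  obtain ⟨l, u, ⟨h1, h2⟩, h3⟩ := mem_nhds_iff_exists_Ioo_subset.mp hU
  obtain ⟨l', u', e1, e2, e3, e4⟩ := h.PW_cont hty h1 h2
  obtain ⟨e, he, heE⟩ := mem_closure_iff.mp ht (Ioo l' u') isOpen_Ioo ⟨e1, e2⟩
  obtain ⟨z, hz, a1, a2⟩ := e4 e he.1.le he.2.le
  exact ⟨z, h3 ⟨a1, a2⟩, h.EE_inv hz heE⟩

theorem Adm.A2_inv (h : Adm C) {w : List Ltr} {t y : ℝ} (hty : PW C w t y) :
    t ∈ A2 C ↔ y ∈ A2 C := ⟨h.A2_inv' hty, h.A2_inv' (PW_wi.mpr hty)⟩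

theorem Adm.DZ_inv (h : Adm C) {w : List Ltr} {t y : ℝ} (hty : PW C w t y)
    (ht : t ∈ DZ (Fam2 C)) : y ∈ DZ (Fam2 C) := by
  rcases ht with ht | ht
  · exact Or.inl (h.EE_inv hty ht)
  · exact Or.inr (h.end_transfer hty (fun s z _ hz => h.A2_inv hz) ht)

theorem Adm.PW_gap2 (h : Adm C) {w : List Ltr} {t y s : ℝ} (hty : PW C w t y)
    (hG : SG (A2 C) t s) : ∃ z, PW C w s z ∧ SG (A2 C) y z := by
  obtain ⟨z, hz, _⟩ := h.PW_gap hty (sg21 hG)
  refine ⟨z, hz, fun x hx hxA => ?_⟩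
  obtain ⟨r, hr, hrx⟩ := h.PW_between hty (sg21 hG) hz hx
  exact hG r hr ((h.A2_inv hrx).mpr hxA)

/-! ### The group of a gap -/

open Classical in
/-- The value of a word. -/
noncomputable def vf (C : ℕ → Set (ℝ × ℝ)) (w : List Ltr) (t : ℝ) : ℝ :=
  if h : ∃ y, PW C w t y then h.choose else 0

theorem vf_spec {w : List Ltr} {t y : ℝ} (h : PW C w t y) : vf C w t = y := by
  have h' : ∃ y, PW C w t y := ⟨y, h⟩
  unfold vf
  rw [dif_pos h']
  exact h'.choose_spec.unique h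

theorem Adm.vf_cont (h : Adm C) {w : List Ltr} {t y : ℝ} (hty : PW C w t y) :
    ContinuousAt (vf C w) t := by
  rw [ContinuousAt, vf_spec hty]
  intro U hU
  obtain ⟨l, u, ⟨h1, h2⟩, h3⟩ := mem_nhds_iff_exists_Ioo_subset.mp hU
  obtain ⟨l', u', e1, e2, e3, e4⟩ := h.PW_cont hty h1 h2
  rw [Filter.mem_map]
  refine Filter.mem_of_superset (Ioo_mem_nhds e1 e2) fun s hs => ?_
  obtain ⟨z, hz, a1, a2⟩ := e4 s hs.1.le hs.2.le
  show vf C w s ∈ U
  rw [vf_spec hz]
  exact h3 ⟨a1, a2⟩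

/-- A word that maps a gap to itself preserves the order on the gap. -/
theorem Adm.stab_inc (h : Adm C) {w : List Ltr} {t y : ℝ} (hty : PW C w t y)
    (hG : SG (A2 C) t y) : IncAt C w t := by
  rcases h.incAt_or_decAt hty with hm | hm
  · exact hm
  exfalso
  -- a fixed point
  have hdef : ∀ s, SG (A2 C) t s → ∃ z, PW C w s z ∧ SG (A2 C) t z := by
    intro s hs
    obtain ⟨z, hz, hz'⟩ := h.PW_gap2 hty hs
    exact ⟨z, hz, hG.trans hz'⟩
  have hfix : ∃ c, SG (A2 C) t c ∧ PW C w c c := by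
    obtain ⟨y', hy', hy''⟩ := hdef y hG
    have hc : ContinuousOn (fun s : ℝ => vf C w s - s) (uIcc t y) := by
      intro s hs
      obtain ⟨z, hz, _⟩ := hdef s (hG.mem hs)
      exact ((h.vf_cont hz).sub continuousAt_id).continuousWithinAt
    have h0 : (0 : ℝ) ∈ uIcc (vf C w t - t) (vf C w y - y) := by
      rw [vf_spec hty, vf_spec hy', mem_uIcc]
      rcases lt_trichotomy t y with e | e | e
      · have := hm _ _ _ _ (SG.refl hty.left) (sg21 hG) hty hy' e
        exact Or.inr ⟨by linarith, by linarith⟩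
      · subst e
        have := hty.unique hy'
        exact Or.inl ⟨by linarith, by linarith⟩
      · have := hm _ _ _ _ (sg21 hG) (SG.refl hty.left) hy' hty e
        exact Or.inl ⟨by linarith, by linarith⟩
    obtain ⟨c, hc1, hc2⟩ := intermediate_value_uIcc hc h0
    have hcG : SG (A2 C) t c := hG.mem hc1
    obtain ⟨z, hz, _⟩ := hdef c hcG
    have : z = c := by
      have h1 := vf_spec hz
      have h2 : vf C w c - c = 0 := hc2
      linarith
    subst this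
    exact ⟨z, hcG, hz⟩
  obtain ⟨c, hcG, hc⟩ := hfix
  have hopen := isOpen_gap (isClosed_AA (Fam2 C)) t
  obtain ⟨l1, u1, ⟨hl1, hu1⟩, hsub⟩ := mem_nhds_iff_exists_Ioo_subset.mp
    (hopen.mem_nhds (show c ∈ {q | SG (A2 C) t q} from hcG))
  obtain ⟨d, hd1, hd2⟩ := exists_between hu1
  have hdG : SG (A2 C) t d := hsub ⟨hl1.trans hd1, hd2⟩
  have hd : PW C w d d := h.fix_const (hcG.symm.trans hdG) hc
  exact absurd (hm _ _ _ _ (sg21 hcG) (sg21 hdG) hc hd hd1) (not_lt.mpr hd1.le)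

/-- The group of the gap of `r`: the automorphisms of the line that are given by a word on the gap
and are the identity outside. -/
def KG (C : ℕ → Set (ℝ × ℝ)) (r : ℝ) : Subgroup (ℝ ≃o ℝ) where
  carrier := {f | (∀ t, ¬ SG (A2 C) r t → f t = t) ∧ ∃ w, ∀ t, SG (A2 C) r t → PW C w t (f t)}
  one_mem' := ⟨fun _ _ => rfl, [], fun t ht => ⟨rfl, (sg21 ht).right⟩⟩
  mul_mem' := by
    rintro f g ⟨f1, w, f2⟩ ⟨g1, v, g2⟩
    have hmap : ∀ (k : ℝ ≃o ℝ), (∀ t, ¬ SG (A2 C) r t → k t = t) → ∀ t, SG (A2 C) r t →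
        SG (A2 C) r (k t) := by
      intro k hk t ht
      by_contra hc
      have h1 := k.injective (hk _ hc)
      rw [h1] at hc
      exact hc ht
    refine ⟨fun t ht => by rw [mul_app, g1 t ht, f1 t ht], v ++ w, fun t ht => ?_⟩
    rw [mul_app]
    exact PW_append.mpr ⟨g t, g2 t ht, f2 _ (hmap g g1 t ht)⟩
  inv_mem' := by
    rintro f ⟨f1, w, f2⟩
    have hinv : ∀ t, ¬ SG (A2 C) r t → f⁻¹ t = t := by
      intro t ht
      have := congrArg (f⁻¹ : ℝ ≃o ℝ) (f1 t ht)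
      rw [inv_app_self] at this
      exact this.symm
    refine ⟨hinv, wi w, fun t ht => ?_⟩
    have h1 : SG (A2 C) r (f⁻¹ t) := by
      by_contra hc
      have h2 := f1 _ hc
      rw [app_inv_self] at h2
      rw [← h2] at hc
      exact hc ht
    have h2 := f2 _ h1
    rw [app_inv_self] at h2
    exact PW_wi.mpr h2

theorem KG.maps {r : ℝ} {f : ℝ ≃o ℝ} (hf : f ∈ KG C r) {t : ℝ} (ht : SG (A2 C) r t) :
    SG (A2 C) r (f t) := by
  by_contra hc
  have h1 := f.injective (hf.1 _ hc)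
  rw [h1] at hc
  exact hc ht

theorem Adm.gapG (h : Adm C) (r : ℝ) : GapG {t | SG (A2 C) r t} (KG C r) where
  op := isOpen_gap (isClosed_AA _) r
  oc := ordConnected_gap r
  maps f hf t ht := KG.maps hf ht
  fix f hf t ht s hs hft := by
    obtain ⟨w, hw⟩ := hf.2
    have h1 := hw t ht
    rw [hft] at h1
    have h2 := h.fix_const (SG.trans (SG.symm ht) hs) h1
    exact (hw s hs).unique h2

/-- The elements of the group of a gap are the words that map the gap to itself. -/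
theorem Adm.exists_KG (h : Adm C) {w : List Ltr} {r t y : ℝ} (hty : PW C w t y)
    (hrt : SG (A2 C) r t) (hry : SG (A2 C) r y) :
    ∃ f ∈ KG C r, f t = y ∧ ∀ s, SG (A2 C) r s → PW C w s (f s) := by
  classical
  have hG : SG (A2 C) t y := hrt.symm.trans hry
  have hinc := h.stab_inc hty hG
  have hdef : ∀ s, SG (A2 C) r s → ∃ z, PW C w s z ∧ SG (A2 C) r z := by
    intro s hs
    obtain ⟨z, hz, hz'⟩ := h.PW_gap2 hty (hrt.symm.trans hs)
    exact ⟨z, hz, hry.trans hz'⟩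
  have hdef' : ∀ s, SG (A2 C) r s → ∃ z, PW C w z s ∧ SG (A2 C) r z := by
    intro s hs
    obtain ⟨z, hz, hz'⟩ := h.PW_gap2 (PW_wi.mpr hty) (hry.symm.trans hs)
    exact ⟨z, PW_wi.mp hz, hrt.trans hz'⟩
  set g : ℝ → ℝ := fun s => if SG (A2 C) r s then vf C w s else s with hg
  have g1 : ∀ s, ¬ SG (A2 C) r s → g s = s := fun s hs => by simp only [hg]; rw [if_neg hs]
  have g2 : ∀ s, SG (A2 C) r s → PW C w s (g s) ∧ SG (A2 C) r (g s) := fun s hs => by
    obtain ⟨z, hz, hz'⟩ := hdef s hs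
    simp only [hg]
    rw [if_pos hs, vf_spec hz]
    exact ⟨hz, hz'⟩
  have hoc : OrdConnected {x | SG (A2 C) r x} := ordConnected_gap r
  have hmono : StrictMono g := by
    intro p q hpq
    by_cases hp : SG (A2 C) r p
    · by_cases hq : SG (A2 C) r q
      · exact hinc _ _ _ _ (sg21 (hrt.symm.trans hp)) (sg21 (hrt.symm.trans hq)) (g2 p hp).1
          (g2 q hq).1 hpq
      · rw [g1 q hq]
        by_contra hc
        exact hq (hoc.out hp (g2 p hp).2 ⟨hpq.le, not_lt.mp hc⟩)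
    · rw [g1 p hp]
      by_cases hq : SG (A2 C) r q
      · by_contra hc
        exact hp (hoc.out (g2 q hq).2 hq ⟨not_lt.mp hc, hpq.le⟩)
      · rwa [g1 q hq]
  have hsurj : Function.Surjective g := by
    intro s
    by_cases hs : SG (A2 C) r s
    · obtain ⟨z, hz, hz'⟩ := hdef' s hs
      exact ⟨z, (g2 z hz').1.unique hz⟩
    · exact ⟨s, g1 s hs⟩
  exact ⟨hmono.orderIsoOfSurjective g hsurj, ⟨fun s hs => g1 s hs, w, fun s hs => (g2 s hs).1⟩,
    (g2 t hrt).1.unique hty, fun s hs => (g2 s hs).1⟩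

/-- In a gap of nonwandering points every orbit is dense. -/
theorem Adm.minim (h : Adm C) {p a b : ℝ} (hp : p ∈ NWS C) (hab : a < b) (ha : SG (A2 C) p a)
    (hb : SG (A2 C) p b) : ∃ w z, PW C w p z ∧ a < z ∧ z < b := by
  obtain ⟨m, hm1, hm2⟩ := exists_between hab
  have hm : SG (A2 C) p m := ha.between hb hm1.le hm2.le
  have hmN : m ∈ NWS C := h.nws_const hm hp
  have hW := hmN a b hm1 hm2
  have hin : ∀ t, a ≤ t → t ≤ b → SG (A2 C) p t := fun t h1 h2 => ha.between hb h1 h2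
  have : ∃ w t t', a < t ∧ t < b ∧ a < t' ∧ t' < b ∧ PW C w t t' ∧ t < t' := by
    by_contra hc
    push Not at hc
    refine hW ⟨fun t h1 h2 => (sg21 (hin t h1 h2)).right, fun w t t' h1 h2 h3 h4 h5 => ?_⟩
    rcases lt_trichotomy t t' with e | e | e
    · exact absurd e (not_lt.mpr (hc w t t' h1 h2 h3 h4 h5))
    · exact e
    · exact absurd e (not_lt.mpr (hc (wi w) t' t h3 h4 h1 h2 (PW_wi.mpr h5)))
  obtain ⟨w, t, t', h1, h2, h3, h4, h5, h6⟩ := this
  have htG := hin t h1.le h2.le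
  obtain ⟨f, hf, hft, _⟩ := h.exists_KG h5 htG (hin t' h3.le h4.le)
  have hg := h.gapG p
  obtain ⟨n, hn1, hn2⟩ := hg.esc hf (show t ∈ {x | SG (A2 C) p x} from htG)
    (show p ∈ {x | SG (A2 C) p x} from SG.refl ha.left) (by rw [hft]; exact h6)
  have hk : ((f ^ n)⁻¹ : ℝ ≃o ℝ) ∈ KG C p := (KG C p).inv_mem ((KG C p).zpow_mem hf n)
  obtain ⟨v, hv⟩ := hk.2
  refine ⟨v, _, hv p (SG.refl ha.left), ?_, ?_⟩
  · exact lt_of_lt_of_le h1 (le_inv_app.mpr hn1)
  · refine lt_trans ?_ h4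
    rw [inv_app_lt, ← hft, ← mul_app, ← zpow_add_one]
    exact hn2

end Pool.Agent.H642.MR
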