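import Pool.Agent.H642.TV.Gap

set_option autoImplicit false

/-!
Sequences of closed monotone relations on the line: the first set of marked points, and the partial
action of words on its complement.
-/

open Set

namespace Pool.Agent.H642.MR

open Pool.Agent.H642.TV

/-- Increasing relations. -/
def Inc (R : ℝ → ℝ → Prop) : Prop := ∀ x y x' y', R x y → R x' y' → x < x' → y ≤ y'

/-- Decreasing relations. -/
def Dec (R : ℝ → ℝ → Prop) : Prop := ∀ x y x' y', R x y → R x' y' → x < x' → y' ≤ y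

/-- Letters. -/
abbrev Ltr : Type := ℕ × Bool

/-- The inverse of a letter. -/
def li (a : Ltr) : Ltr := (a.1, !a.2)

theorem li_li (a : Ltr) : li (li a) = a := by
  obtain ⟨n, b⟩ := a
  simp [li]

/-- The relation of a letter. -/
def RL (C : ℕ → Set (ℝ × ℝ)) : Ltr → ℝ → ℝ → Prop
  | (n, true), x, y => (x, y) ∈ C n
  | (n, false), x, y => (y, x) ∈ C n

variable {C : ℕ → Set (ℝ × ℝ)}

theorem RL_li (a : Ltr) (x y : ℝ) : RL C (li a) y x ↔ RL C a x y := by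
  obtain ⟨n, b⟩ := a
  cases b <;> exact Iff.rfl

/-- The relations are closed and monotone. -/
structure Adm (C : ℕ → Set (ℝ × ℝ)) : Prop where
  cl : ∀ n, IsClosed (C n)
  mono : ∀ n, Inc (fun x y => (x, y) ∈ C n) ∨ Dec (fun x y => (x, y) ∈ C n)

theorem inc_swap {R : ℝ → ℝ → Prop} (h : Inc R) : Inc fun x y => R y x := by
  intro x y x' y' h1 h2 hlt
  by_contra hc
  exact absurd (h _ _ _ _ h2 h1 (not_le.mp hc)) (not_le.mpr hlt)

theorem dec_swap {R : ℝ → ℝ → Prop} (h : Dec R) : Dec fun x y => R y x := by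
  intro x y x' y' h1 h2 hlt
  by_contra hc
  exact absurd (h _ _ _ _ h1 h2 (not_le.mp hc)) (not_le.mpr hlt)

theorem Adm.isClosed (h : Adm C) (a : Ltr) : IsClosed {p : ℝ × ℝ | RL C a p.1 p.2} := by
  obtain ⟨n, b⟩ := a
  cases b
  · exact (h.cl n).preimage continuous_swap
  · exact h.cl n

theorem Adm.inc_or_dec (h : Adm C) (a : Ltr) : Inc (RL C a) ∨ Dec (RL C a) := by
  obtain ⟨n, b⟩ := a
  cases b
  · rcases h.mono n with h1 | h1
    · exact Or.inl (inc_swap h1)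
    · exact Or.inr (dec_swap h1)
  · exact h.mono n

theorem Adm.isClosed_row (h : Adm C) (a : Ltr) (x : ℝ) : IsClosed {y | RL C a x y} :=
  (h.isClosed a).preimage (by fun_prop : Continuous fun y : ℝ => (x, y))

/-- The domain of a letter. -/
def dom (C : ℕ → Set (ℝ × ℝ)) (a : Ltr) : Set ℝ := {x | ∃ y, RL C a x y}

/-- Values at a point between two points lie between their values. -/
theorem Adm.between (h : Adm C) (a : Ltr) {x1 x2 x y1 y2 y : ℝ} (h1 : RL C a x1 y1)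
    (h2 : RL C a x2 y2) (hx : RL C a x y) (h3 : x1 < x) (h4 : x < x2) : y ∈ uIcc y1 y2 := by
  rw [mem_uIcc]
  rcases h.inc_or_dec a with hm | hm
  · exact Or.inl ⟨hm _ _ _ _ h1 hx h3, hm _ _ _ _ hx h2 h4⟩
  · exact Or.inr ⟨hm _ _ _ _ hx h2 h4, hm _ _ _ _ h1 hx h3⟩

theorem Adm.isClosed_proj (h : Adm C) (a : Ltr) (x1 x2 y1 y2 : ℝ) :
    IsClosed {x | x ∈ Icc x1 x2 ∧ ∃ y ∈ Icc y1 y2, RL C a x y} := by
  have h1 : IsCompact ({p : ℝ × ℝ | RL C a p.1 p.2} ∩ Icc x1 x2 ×ˢ Icc y1 y2) :=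
    (isCompact_Icc.prod isCompact_Icc).inter_left (h.isClosed a)
  have h2 : {x | x ∈ Icc x1 x2 ∧ ∃ y ∈ Icc y1 y2, RL C a x y} =
      Prod.fst '' ({p : ℝ × ℝ | RL C a p.1 p.2} ∩ Icc x1 x2 ×ˢ Icc y1 y2) := by
    ext x
    constructor
    · rintro ⟨hx, y, hy, hxy⟩
      exact ⟨(x, y), ⟨hxy, hx, hy⟩, rfl⟩
    · rintro ⟨⟨x', y⟩, ⟨hxy, hx, hy⟩, rfl⟩
      exact ⟨hx, y, hy, hxy⟩
  rw [h2]
  exact (h1.image continuous_fst).isClosed

/-- The domain contains the points of its closure that are between two of its points. -/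
theorem Adm.dom_between (h : Adm C) (a : Ltr) {x1 x2 t : ℝ} (h1 : x1 ∈ dom C a)
    (h2 : x2 ∈ dom C a) (h3 : x1 < t) (h4 : t < x2) (ht : t ∈ closure (dom C a)) :
    t ∈ dom C a := by
  obtain ⟨y1, hy1⟩ := h1
  obtain ⟨y2, hy2⟩ := h2
  have hcl := h.isClosed_proj a x1 x2 (min y1 y2) (max y1 y2)
  have hsub : dom C a ∩ Ioo x1 x2 ⊆
      {x | x ∈ Icc x1 x2 ∧ ∃ y ∈ Icc (min y1 y2) (max y1 y2), RL C a x y} := by
    rintro x ⟨⟨y, hy⟩, hx1, hx2⟩
    exact ⟨⟨hx1.le, hx2.le⟩, y, h.between a hy1 hy2 hy hx1 hx2, hy⟩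
  have htc : t ∈ closure (dom C a ∩ Ioo x1 x2) := by
    rw [mem_closure_iff]
    intro U hU htU
    obtain ⟨s, hs, hs'⟩ := mem_closure_iff.mp ht (U ∩ Ioo x1 x2) (hU.inter isOpen_Ioo)
      ⟨htU, h3, h4⟩
    exact ⟨s, hs.1, hs', hs.2⟩
  obtain ⟨_, y, _, hy⟩ := (hcl.closure_subset_iff.mpr hsub) htc
  exact ⟨y, hy⟩

theorem Adm.dom_end (h : Adm C) (a : Ltr) {t : ℝ} (ht : t ∈ closure (dom C a))
    (ht' : t ∉ dom C a) : LEnd (closure (dom C a)) t ∨ REnd (closure (dom C a)) t := by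
  by_cases h1 : ∃ x ∈ dom C a, x < t
  · by_cases h2 : ∃ x ∈ dom C a, t < x
    · obtain ⟨x1, hx1, hx1'⟩ := h1
      obtain ⟨x2, hx2, hx2'⟩ := h2
      exact absurd (h.dom_between a hx1 hx2 hx1' hx2' ht) ht'
    · right
      push Not at h2
      refine ⟨ht, t + 1, by linarith, fun s hs _ hsc => ?_⟩
      obtain ⟨x, hx, hx'⟩ := mem_closure_iff.mp hsc (Ioi t) isOpen_Ioi hs
      exact absurd hx (not_lt.mpr (h2 x hx'))
  · left
    push Not at h1
    refine ⟨ht, t - 1, by linarith, fun s _ hs hsc => ?_⟩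
    obtain ⟨x, hx, hx'⟩ := mem_closure_iff.mp hsc (Iio t) isOpen_Iio hs
    exact absurd hx (not_lt.mpr (h1 x hx'))

/-! ### The first marked points -/

/-- The stages of the first set of marked points. -/
def St (C : ℕ → Set (ℝ × ℝ)) : ℕ → Set ℝ
  | 0 => {x | ∃ a, (LEnd (closure (dom C a)) x ∨ REnd (closure (dom C a)) x) ∨
      ∃ y y', RL C a x y ∧ RL C a x y' ∧ y ≠ y'}
  | k + 1 => {y | ∃ a, ∃ x ∈ St C k, LEnd {z | RL C a x z} y ∨ REnd {z | RL C a x z} y}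

/-- The first set of marked points. -/
def E1 (C : ℕ → Set (ℝ × ℝ)) : Set ℝ := {x | ∃ k, x ∈ St C k}

/-- Its closure. -/
def A1 (C : ℕ → Set (ℝ × ℝ)) : Set ℝ := closure (E1 C)

theorem isClosed_A1 : IsClosed (A1 C) := isClosed_closure

theorem E1_sub_A1 {x : ℝ} (h : x ∈ E1 C) : x ∈ A1 C := subset_closure h

theorem E1.ofDom {a : Ltr} {x : ℝ} (h : LEnd (closure (dom C a)) x ∨ REnd (closure (dom C a)) x) :
    x ∈ E1 C := ⟨0, a, Or.inl h⟩

theorem E1.ofJump {a : Ltr} {x y y' : ℝ} (h : RL C a x y) (h' : RL C a x y') (hne : y ≠ y') :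
    x ∈ E1 C := ⟨0, a, Or.inr ⟨y, y', h, h', hne⟩⟩

theorem E1.img {a : Ltr} {x y : ℝ} (hx : x ∈ E1 C)
    (h : LEnd {z | RL C a x z} y ∨ REnd {z | RL C a x z} y) : y ∈ E1 C := by
  obtain ⟨k, hk⟩ := hx
  exact ⟨k + 1, a, x, hk, h⟩

theorem countable_jump (h : Adm C) (a : Ltr) :
    {x | ∃ y y', RL C a x y ∧ RL C a x y' ∧ y ≠ y'}.Countable := by
  have : ∀ x : {x | ∃ y y', RL C a x y ∧ RL C a x y' ∧ y ≠ y'}, ∃ q : ℚ, ∃ y y' : ℝ,
      RL C a x.1 y ∧ RL C a x.1 y' ∧ y < q ∧ (q : ℝ) < y' := by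
    rintro ⟨x, y, y', h1, h2, h3⟩
    rcases lt_or_gt_of_ne h3 with h4 | h4
    · obtain ⟨q, hq1, hq2⟩ := exists_rat_btwn h4
      exact ⟨q, y, y', h1, h2, hq1, hq2⟩
    · obtain ⟨q, hq1, hq2⟩ := exists_rat_btwn h4
      exact ⟨q, y', y, h2, h1, hq1, hq2⟩
  choose f z z' hf1 hf2 hf3 hf4 using this
  rw [← countable_coe_iff]
  have key : ∀ x x', f x = f x' → ¬ x.1 < x'.1 := by
    intro x x' hxx hlt
    have e1 := hf3 x
    have e2 := hf4 x
    have e3 := hf3 x'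
    have e4 := hf4 x'
    rw [← hxx] at e3 e4
    rcases h.inc_or_dec a with hm | hm
    · have := hm _ _ _ _ (hf2 x) (hf1 x') hlt
      linarith
    · have := hm _ _ _ _ (hf1 x) (hf2 x') hlt
      linarith
  refine Function.Injective.countable (f := f) fun x x' hxx => ?_
  rcases lt_trichotomy x.1 x'.1 with h1 | h1 | h1
  · exact absurd h1 (key x x' hxx)
  · exact Subtype.ext h1
  · exact absurd h1 (key x' x hxx.symm)

theorem countable_E1 (h : Adm C) : (E1 C).Countable := by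
  have hst : ∀ k, (St C k).Countable := by
    intro k
    induction k with
    | zero =>
      have h1 : St C 0 = ⋃ a : Ltr, ({x | LEnd (closure (dom C a)) x ∨ REnd (closure (dom C a)) x} ∪
          {x | ∃ y y', RL C a x y ∧ RL C a x y' ∧ y ≠ y'}) := by
        ext x
        simp only [mem_iUnion]
        exact Iff.rfl
      rw [h1]
      exact countable_iUnion fun a => (countable_ends _).union (countable_jump h a)
    | succ k ih =>
      have h1 : St C (k + 1) = ⋃ a : Ltr, ⋃ x ∈ St C k,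
          {y | LEnd {z | RL C a x z} y ∨ REnd {z | RL C a x z} y} := by
        ext y
        simp only [mem_iUnion, exists_prop]
        exact Iff.rfl
      rw [h1]
      exact countable_iUnion fun a => ih.biUnion fun x _ => countable_ends _
  have h1 : E1 C = ⋃ k, St C k := by
    ext x
    simp only [mem_iUnion]
    exact Iff.rfl
  rw [h1]
  exact countable_iUnion hst

/-! ### The letters on the gaps -/

theorem Adm.gap_dom (h : Adm C) {a : Ltr} {t s : ℝ} (hG : SG (A1 C) t s) (ht : t ∈ dom C a) :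
    s ∈ dom C a := by
  have h1 : s ∈ closure (dom C a) :=
    const isClosed_closure (fun x hx => E1_sub_A1 (E1.ofDom hx)) hG (subset_closure ht)
  by_contra hc
  exact hG.right (E1_sub_A1 (E1.ofDom (h.dom_end a h1 hc)))

theorem val_unique {a : Ltr} {t y y' : ℝ} (ht : t ∉ E1 C) (h1 : RL C a t y) (h2 : RL C a t y') :
    y = y' := by
  by_contra hne
  exact ht (E1.ofJump h1 h2 hne)

theorem Adm.const_val (h : Adm C) {a : Ltr} {t s y : ℝ} (hG : SG (A1 C) t s) (hty : RL C a t y)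
    (hy : y ∈ E1 C) : RL C a s y := by
  have h1 : t ∈ {z | RL C (li a) y z} := (RL_li a t y).mpr hty
  have h2 : s ∈ {z | RL C (li a) y z} :=
    const (h.isClosed_row (li a) y) (fun x hx => E1_sub_A1 (E1.img hy hx)) hG h1
  exact (RL_li a s y).mp h2

/-- The intermediate value theorem for closed monotone relations. -/
theorem Adm.ivt (h : Adm C) {a : Ltr} {s1 s2 z1 z2 z : ℝ} (hs : s1 ≤ s2) (h1 : RL C a s1 z1)
    (h2 : RL C a s2 z2) (hd : ∀ s ∈ Icc s1 s2, ∃ y, RL C a s y)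
    (hu : ∀ s ∈ Icc s1 s2, ∀ y y', RL C a s y → RL C a s y' → y = y')
    (hz : z ∈ uIcc z1 z2) : ∃ s ∈ Icc s1 s2, RL C a s z := by
  have hval : ∀ s ∈ Icc s1 s2, ∀ y, RL C a s y → y ∈ uIcc z1 z2 := by
    intro s hs' y hy
    rcases hs'.1.eq_or_lt with e | e
    · subst e
      rw [hu _ hs' _ _ hy h1]
      exact left_mem_uIcc
    · rcases hs'.2.eq_or_lt with e' | e'
      · subst e'
        rw [hu _ hs' _ _ hy h2]
        exact right_mem_uIcc
      · exact h.between a h1 h2 hy e e'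
  set m := min z1 z2
  set M := max z1 z2
  have hz' : m ≤ z ∧ z ≤ M := hz
  have hc1 := h.isClosed_proj a s1 s2 m z
  have hc2 := h.isClosed_proj a s1 s2 z M
  have hcov : Icc s1 s2 ⊆ {x | x ∈ Icc s1 s2 ∧ ∃ y ∈ Icc m z, RL C a x y} ∪
      {x | x ∈ Icc s1 s2 ∧ ∃ y ∈ Icc z M, RL C a x y} := by
    intro s hs'
    obtain ⟨y, hy⟩ := hd s hs'
    have hy' : m ≤ y ∧ y ≤ M := hval s hs' y hy
    rcases le_total y z with h3 | h3
    · exact Or.inl ⟨hs', y, ⟨hy'.1, h3⟩, hy⟩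
    · exact Or.inr ⟨hs', y, ⟨h3, hy'.2⟩, hy⟩
  have l1 : s1 ∈ Icc s1 s2 := left_mem_Icc.mpr hs
  have l2 : s2 ∈ Icc s1 s2 := right_mem_Icc.mpr hs
  have hne : (Icc s1 s2 ∩ {x | x ∈ Icc s1 s2 ∧ ∃ y ∈ Icc m z, RL C a x y}).Nonempty ∧
      (Icc s1 s2 ∩ {x | x ∈ Icc s1 s2 ∧ ∃ y ∈ Icc z M, RL C a x y}).Nonempty := by
    have e1 : m ≤ z1 ∧ z1 ≤ M := ⟨min_le_left _ _, le_max_left _ _⟩
    have e2 : m ≤ z2 ∧ z2 ≤ M := ⟨min_le_right _ _, le_max_right _ _⟩
    rcases le_total z1 z2 with h3 | h3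
    · have hm : m = z1 := min_eq_left h3
      have hM : M = z2 := max_eq_right h3
      exact ⟨⟨s1, l1, l1, z1, ⟨e1.1, by rw [← hm]; exact hz'.1⟩, h1⟩,
        ⟨s2, l2, l2, z2, ⟨by rw [← hM]; exact hz'.2, e2.2⟩, h2⟩⟩
    · have hm : m = z2 := min_eq_right h3
      have hM : M = z1 := max_eq_left h3
      exact ⟨⟨s2, l2, l2, z2, ⟨e2.1, by rw [← hm]; exact hz'.1⟩, h2⟩,
        ⟨s1, l1, l1, z1, ⟨by rw [← hM]; exact hz'.2, e1.2⟩, h1⟩⟩
  obtain ⟨s, hs', ⟨_, y, hy, hy'⟩, ⟨_, y', hy2, hy2'⟩⟩ :=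
    isPreconnected_closed_iff.mp (isPreconnected_Icc (a := s1) (b := s2)) _ _ hc1 hc2 hcov
      hne.1 hne.2
  have e := hu s hs' y y' hy' hy2'
  subst e
  have : y = z := le_antisymm hy.2 hy2.1
  subst this
  exact ⟨s, hs', hy'⟩

/-- A letter maps a gap onto a gap, if it does not map it to a marked point. -/
theorem Adm.key (h : Adm C) {a : Ltr} {t y s : ℝ} (hty : RL C a t y) (hy : y ∉ E1 C)
    (hG : SG (A1 C) t s) : ∃ z, RL C a s z ∧ SG (A1 C) y z := by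
  have hE : ∀ r, SG (A1 C) t r → ∃ z, RL C a r z ∧ z ∉ E1 C := by
    intro r hr
    obtain ⟨z, hz⟩ := h.gap_dom hr ⟨y, hty⟩
    refine ⟨z, hz, fun hzE => ?_⟩
    have h1 := h.const_val hr.symm hz hzE
    have h2 := val_unique (fun hc => hr.left (E1_sub_A1 hc)) h1 hty
    exact hy (h2 ▸ hzE)
  have hinj : ∀ r r' z, SG (A1 C) t r → RL C a r z → RL C a r' z → z ∉ E1 C → r = r' := by
    intro r r' z _ hz hz' hzE
    by_contra hne
    exact hzE (E1.ofJump ((RL_li a r z).mpr hz) ((RL_li a r' z).mpr hz') hne)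
  obtain ⟨z, hz, hzE⟩ := hE s hG
  refine ⟨z, hz, ?_⟩
  -- choose slightly larger points
  have hopen := isOpen_gap (isClosed_A1 (C := C)) t
  obtain ⟨l1, u1, ⟨hl1, hu1⟩, hsub1⟩ := mem_nhds_iff_exists_Ioo_subset.mp
    (hopen.mem_nhds (show t ∈ {q | SG (A1 C) t q} from SG.refl hG.left))
  obtain ⟨l2, u2, ⟨hl2, hu2⟩, hsub2⟩ := mem_nhds_iff_exists_Ioo_subset.mp
    (hopen.mem_nhds (show s ∈ {q | SG (A1 C) t q} from hG))
  obtain ⟨t1, ht1, ht1'⟩ := exists_between hl1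
  obtain ⟨t2, ht2, ht2'⟩ := exists_between hu1
  obtain ⟨s1, hs1, hs1'⟩ := exists_between hl2
  obtain ⟨s2, hs2, hs2'⟩ := exists_between hu2
  have gt1 : SG (A1 C) t t1 := hsub1 ⟨ht1, ht1'.trans hu1⟩
  have gt2 : SG (A1 C) t t2 := hsub1 ⟨hl1.trans ht2, ht2'⟩
  have gs1 : SG (A1 C) t s1 := hsub2 ⟨hs1, hs1'.trans hu2⟩
  have gs2 : SG (A1 C) t s2 := hsub2 ⟨hl2.trans hs2, hs2'⟩
  -- the lower and the upper end
  obtain ⟨p, hp, hpt, hps⟩ : ∃ p, SG (A1 C) t p ∧ p < t ∧ p < s := by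
    rcases le_total t1 s1 with e | e
    · exact ⟨t1, gt1, ht1', lt_of_le_of_lt e hs1'⟩
    · exact ⟨s1, gs1, lt_of_le_of_lt e ht1', hs1'⟩
  obtain ⟨q, hq, hqt, hqs⟩ : ∃ q, SG (A1 C) t q ∧ t < q ∧ s < q := by
    rcases le_total t2 s2 with e | e
    · exact ⟨s2, gs2, lt_of_lt_of_le ht2 e, hs2⟩
    · exact ⟨t2, gt2, ht2, lt_of_lt_of_le hs2 e⟩
  obtain ⟨zp, hzp, hzpE⟩ := hE p hp
  obtain ⟨zq, hzq, hzqE⟩ := hE q hq
  have hpq : p < q := hpt.trans hqt
  have hin : ∀ r ∈ Icc p q, SG (A1 C) t r := fun r hr => hp.between hq hr.1 hr.2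
  have hall : ∀ w ∈ uIcc zp zq, w ∉ E1 C := by
    intro w hw hwE
    obtain ⟨r, hr, hrw⟩ := h.ivt hpq.le hzp hzq
      (fun r hr => by obtain ⟨w', hw', _⟩ := hE r (hin r hr); exact ⟨w', hw'⟩)
      (fun r hr y1 y2 e1 e2 => val_unique (fun hc => (hin r hr).right (E1_sub_A1 hc)) e1 e2) hw
    obtain ⟨w', hw', hw'E⟩ := hE r (hin r hr)
    have : w = w' := val_unique (fun hc => (hin r hr).right (E1_sub_A1 hc)) hrw hw'
    exact hw'E (this ▸ hwE)
  -- strictness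
  have hy1 : y ≠ zp := fun e => by
    subst e
    exact hpt.ne (hinj p t _ hp hzp hty hy)
  have hy2 : y ≠ zq := fun e => by
    subst e
    exact hqt.ne (hinj t q _ (SG.refl hG.left) hty hzq hy)
  have hz1 : z ≠ zp := fun e => by
    subst e
    exact hps.ne (hinj p s _ hp hzp hz hzE)
  have hz2 : z ≠ zq := fun e => by
    subst e
    exact hqs.ne (hinj s q _ hG hz hzq hzE)
  have hyb : y ∈ Ioo (min zp zq) (max zp zq) := by
    have h1 : min zp zq ≤ y ∧ y ≤ max zp zq := h.between a hzp hzq hty hpt hqt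
    refine ⟨lt_of_le_of_ne h1.1 ?_, lt_of_le_of_ne h1.2 ?_⟩
    · rcases min_choice zp zq with e | e <;> rw [e]
      · exact hy1.symm
      · exact hy2.symm
    · rcases max_choice zp zq with e | e <;> rw [e]
      · exact hy1
      · exact hy2
  have hzb : z ∈ Ioo (min zp zq) (max zp zq) := by
    have h1 : min zp zq ≤ z ∧ z ≤ max zp zq := h.between a hzp hzq hz hps hqs
    refine ⟨lt_of_le_of_ne h1.1 ?_, lt_of_le_of_ne h1.2 ?_⟩
    · rcases min_choice zp zq with e | e <;> rw [e]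
      · exact hz1.symm
      · exact hz2.symm
    · rcases max_choice zp zq with e | e <;> rw [e]
      · exact hz1
      · exact hz2
  intro w hw hwA
  have hwb : w ∈ Ioo (min zp zq) (max zp zq) := ordConnected_Ioo.uIcc_subset hyb hzb hw
  obtain ⟨e, he, heE⟩ := mem_closure_iff.mp hwA _ isOpen_Ioo hwb
  exact hall e ⟨he.1.le, he.2.le⟩ heE

/-- A point that is not marked is mapped by a letter to a marked point or to a point outside of the
closure of the marked points. -/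
theorem Adm.not_A1 (h : Adm C) {a : Ltr} {t y : 
ℝ} (hty : RL C a t y) (ht : t ∉ A1 C) (hy : y ∉ E1 C) : y ∉ A1 C := by
  obtain ⟨z, _, hz⟩ := h.key hty hy (SG.refl ht)
  exact hz.left

/-! ### Words -/

/-- The partial action of a letter. -/
def PL (C : ℕ → Set (ℝ × ℝ)) (a : Ltr) (t y : ℝ) : Prop := RL C a t y ∧ t ∉ A1 C ∧ y ∉ A1 C

/-- The partial action of a word. -/
def PW (C : ℕ → Set (ℝ × ℝ)) : List Ltr → ℝ → ℝ → Prop
  | [], t, y => t = y ∧ t ∉ A1 C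
  | a :: w, t, y => ∃ z, PL C a t z ∧ PW C w z y

/-- The inverse of a word. -/
def wi (w : List Ltr) : List Ltr := (w.map li).reverse

theorem PL_li (a : Ltr) (t y : ℝ) : PL C (li a) y t ↔ PL C a t y := by
  unfold PL
  rw [RL_li]
  exact and_congr_right fun _ => and_comm

theorem PW.left {w : List Ltr} {t y : ℝ} (h : PW C w t y) : t ∉ A1 C := by
  cases w with
  | nil => exact h.2
  | cons a w =>
    obtain ⟨z, hz, _⟩ := h
    exact hz.2.1

theorem PW.right {w : List Ltr} {t y : ℝ} (h : PW C w t y) : y ∉ A1 C := by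
  induction w generalizing t with
  | nil => exact h.1 ▸ h.2
  | cons a w ih =>
    obtain ⟨z, _, hz⟩ := h
    exact ih hz

theorem PW_append {w v : List Ltr} {t y : ℝ} :
    PW C (w ++ v) t y ↔ ∃ z, PW C w t z ∧ PW C v z y := by
  induction w generalizing t with
  | nil =>
    constructor
    · intro h
      exact ⟨t, ⟨rfl, PW.left (w := v) h⟩, h⟩
    · rintro ⟨z, ⟨rfl, _⟩, h⟩
      exact h
  | cons a w ih =>
    constructor
    · rintro ⟨z, hz, h⟩
      obtain ⟨z', h1, h2⟩ := ih.mp h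
      exact ⟨z', ⟨z, hz, h1⟩, h2⟩
    · rintro ⟨z', ⟨z, hz, h1⟩, h2⟩
      exact ⟨z, hz, ih.mpr ⟨z', h1, h2⟩⟩

theorem PW_single {a : Ltr} {t y : ℝ} : PW C [a] t y ↔ PL C a t y := by
  constructor
  · rintro ⟨z, hz, rfl, _⟩
    exact hz
  · intro h
    exact ⟨y, h, rfl, h.2.2⟩

theorem PW_wi {w : List Ltr} {t y : ℝ} : PW C (wi w) y t ↔ PW C w t y := by
  induction w generalizing t with
  | nil =>
    constructor
    · rintro ⟨rfl, h⟩
      exact ⟨rfl, h⟩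
    · rintro ⟨rfl, h⟩
      exact ⟨rfl, h⟩
  | cons a w ih =>
    have h1 : wi (a :: w) = wi w ++ [li a] := by
      simp [wi]
    rw [h1, PW_append]
    constructor
    · rintro ⟨z, h2, h3⟩
      rw [PW_single, PL_li] at h3
      exact ⟨z, h3, ih.mp h2⟩
    · rintro ⟨z, h2, h3⟩
      exact ⟨z, ih.mpr h3, by rw [PW_single, PL_li]; exact h2⟩

theorem PL.unique {a : Ltr} {t y y' : ℝ} (h : PL C a t y) (h' : PL C a t y') : y = y' :=
  val_unique (fun hc => h.2.1 (E1_sub_A1 hc)) h.1 h'.1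

theorem PW.unique {w : List Ltr} {t y y' : ℝ} (h : PW C w t y) (h' : PW C w t y') : y = y' := by
  induction w generalizing t with
  | nil => rw [← h.1, ← h'.1]
  | cons a w ih =>
    obtain ⟨z, h1, h2⟩ := h
    obtain ⟨z', h1', h2'⟩ := h'
    have := h1.unique h1'
    subst this
    exact ih h2 h2'

theorem PW.inj {w : List Ltr} {t t' y : ℝ} (h : PW C w t y) (h' : PW C w t' y) : t = t' :=
  (PW_wi.mpr h).unique (PW_wi.mpr h')

theorem Adm.PL_gap (h : Adm C) {a : Ltr} {t y s : ℝ} (hty : PL C a t y) (hG : SG (A1 C) t s) :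
    ∃ z, PL C a s z ∧ SG (A1 C) y z := by
  obtain ⟨z, hz, hz'⟩ := h.key hty.1 (fun hc => hty.2.2 (E1_sub_A1 hc)) hG
  exact ⟨z, ⟨hz, hG.right, hz'.right⟩, hz'⟩

theorem Adm.PW_gap (h : Adm C) {w : List Ltr} {t y s : ℝ} (hty : PW C w t y)
    (hG : SG (A1 C) t s) : ∃ z, PW C w s z ∧ SG (A1 C) y z := by
  induction w generalizing t s with
  | nil =>
    obtain ⟨rfl, _⟩ := hty
    exact ⟨s, ⟨rfl, hG.right⟩, hG⟩
  | cons a w ih =>
    obtain ⟨z, h1, h2⟩ := hty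
    obtain ⟨z', h3, h4⟩ := h.PL_gap h1 hG
    obtain ⟨z'', h5, h6⟩ := ih h2 h4
    exact ⟨z'', ⟨z', h3, h5⟩, h6⟩

/-- A word preserves the order on the gap of `t`. -/
def IncAt (C : ℕ → Set (ℝ × ℝ)) (w : List Ltr) (t : ℝ) : Prop :=
  ∀ s s' z z', SG (A1 C) t s → SG (A1 C) t s' → PW C w s z → PW C w s' z' → s < s' → z < z'

/-- A word reverses the order on the gap of `t`. -/
def DecAt (C : ℕ → Set (ℝ × ℝ)) (w : List Ltr) (t : ℝ) : Prop :=
  ∀ s s' z z', SG (A1 C) t s → SG (A1 C) t s' → PW C w s z → PW C w s' z' → s < s' → z' < z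

theorem Adm.PL_lt (h : Adm C) (a : Ltr) :
    (∀ s s' z z', PL C a s z → PL C a s' z' → s < s' → z < z') ∨
    (∀ s s' z z', PL C a s z → PL C a s' z' → s < s' → z' < z) := by
  have hinj : ∀ s s' z z', PL C a s z → PL C a s' z' → s < s' → z ≠ z' := by
    intro s s' z z' h1 h2 hlt e
    subst e
    have := (PL_li a s z).mpr h1
    have h3 := (PL_li a s' z).mpr h2
    exact hlt.ne (this.unique h3)
  rcases h.inc_or_dec a with hm | hm
  · left
    intro s s' z z' h1 h2 hlt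
    exact lt_of_le_of_ne (hm _ _ _ _ h1.1 h2.1 hlt) (hinj s s' z z' h1 h2 hlt)
  · right
    intro s s' z z' h1 h2 hlt
    exact lt_of_le_of_ne (hm _ _ _ _ h1.1 h2.1 hlt) (hinj s s' z z' h1 h2 hlt).symm

theorem Adm.incAt_or_decAt (h : Adm C) {w : List Ltr} {t y : ℝ} (hty : PW C w t y) :
    IncAt C w t ∨ DecAt C w t := by
  induction w generalizing t with
  | nil =>
    left
    rintro s s' z z' _ _ ⟨rfl, _⟩ ⟨rfl, _⟩ hlt
    exact hlt
  | cons a w ih =>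
    obtain ⟨x, h1, h2⟩ := hty
    have hx : ∀ s z, SG (A1 C) t s → PL C a s z → SG (A1 C) x z := by
      intro s z hs hz
      obtain ⟨z', h3, h4⟩ := h.PL_gap h1 hs
      rw [hz.unique h3]
      exact h4
    rcases ih h2 with h3 | h3 <;> rcases h.PL_lt a with h4 | h4
    · left
      rintro s s' z z' hs hs' ⟨y1, e1, e2⟩ ⟨y2, e3, e4⟩ hlt
      exact h3 _ _ _ _ (hx _ _ hs e1) (hx _ _ hs' e3) e2 e4 (h4 _ _ _ _ e1 e3 hlt)
    · right
      rintro s s' z z' hs hs' ⟨y1, e1, e2⟩ ⟨y2, e3, e4⟩ hlt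
      exact h3 _ _ _ _ (hx _ _ hs' e3) (hx _ _ hs e1) e4 e2 (h4 _ _ _ _ e1 e3 hlt)
    · right
      rintro s s' z z' hs hs' ⟨y1, e1, e2⟩ ⟨y2, e3, e4⟩ hlt
      exact h3 _ _ _ _ (hx _ _ hs e1) (hx _ _ hs' e3) e2 e4 (h4 _ _ _ _ e1 e3 hlt)
    · left
      rintro s s' z z' hs hs' ⟨y1, e1, e2⟩ ⟨y2, e3, e4⟩ hlt
      exact h3 _ _ _ _ (hx _ _ hs' e3) (hx _ _ hs e1) e4 e2 (h4 _ _ _ _ e1 e3 hlt)

end Pool.Agent.H642.MR
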