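import Pool.Agent.H642.MR.Inf
import Pool.Agent.H642.MR.Code
import Pool.Graph.R_seed8.Y560.TC.All

set_option autoImplicit false

/-!
The dichotomy for the group of the automorphisms of the order of the rationals, acting on sequences
of monotone relations.
-/

open Set MeasureTheory

namespace Pool.Agent.H642.MR

open Pool.Agent.H642.TV hiding act
open Pool.Agent.Results.MP_5607ba_lc.PiecewiseMonotone (StrictLinear CountableOrPerfect Iso act)
open Pool.Agent.Y560.TC (code IsC isC_code isC_ex code_odd ex_rep uniq_rep T closed_T m_ev polC polT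
  pol_of pol_prod)
open Pool.Agent.Y560.TH (XB IsoB)

/-- Equivalence of codes. -/
def EqQ (s s' : Cod) : Prop := ∃ φ : ℚ ≃o ℚ, ∀ n p q, CQ s' n (φ p) (φ q) ↔ CQ s n p q

theorem EqQ.symm {s s' : Cod} (h : EqQ s s') : EqQ s' s := by
  obtain ⟨φ, hφ⟩ := h
  refine ⟨φ.symm, fun n p q => ?_⟩
  rw [← hφ, φ.apply_symm_apply, φ.apply_symm_apply]

/-- The structure on the natural numbers of a code. -/
noncomputable def stdB (s : Cod) : BStr := fun i v =>
  match i with
  | 0 => decide (en.symm (v 0) < en.symm (v 1))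
  | i + 1 => s i (v 0) (v 1)

theorem v2 (v : Fin 2 → ℕ) : v = ![v 0, v 1] := by
  funext i
  fin_cases i <;> rfl

theorem blt_std (s : Cod) (m n : ℕ) : blt (stdB s) m n ↔ en.symm m < en.symm n := by
  show decide (en.symm m < en.symm n) = true ↔ _
  rw [decide_eq_true_iff]

theorem brel_std (s : Cod) (i m n : ℕ) : brel (stdB s) i m n ↔ CQ s i (en.symm m) (en.symm n) := by
  show s i m n = true ↔ s i (en (en.symm m)) (en (en.symm n)) = true
  rw [Equiv.apply_symm_apply, Equiv.apply_symm_apply]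

theorem monoB_std {s : Cod} (h : MonoQ s) : MonoB (stdB s) := by
  refine ⟨⟨fun m => ?_, fun m n k => ?_, fun m n => ?_⟩, fun i => ?_⟩
  · rw [blt_std]
    exact lt_irrefl _
  · simp only [blt_std]
    exact lt_trans
  · simp only [blt_std]
    rcases lt_trichotomy (en.symm m) (en.symm n) with h1 | h1 | h1
    · exact Or.inr (Or.inl h1)
    · exact Or.inl (en.symm.injective h1)
    · exact Or.inr (Or.inr h1)
  · have key : ∀ m n, en.symm m ≤ en.symm n → m = n ∨ blt (stdB s) m n := by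
      intro m n h1
      rw [blt_std]
      rcases h1.eq_or_lt with h2 | h2
      · exact Or.inl (en.symm.injective h2)
      · exact Or.inr h2
    rcases h i with h1 | h1
    · left
      intro m n m' n' h2 h3 h4
      rw [brel_std] at h2 h3
      rw [blt_std] at h4
      exact key _ _ (h1 _ _ _ _ h2 h3 h4)
    · right
      intro m n m' n' h2 h3 h4
      rw [brel_std] at h2 h3
      rw [blt_std] at h4
      rcases key _ _ (h1 _ _ _ _ h2 h3 h4) with h5 | h5
      · exact Or.inl h5.symm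
      · exact Or.inr h5

theorem iso_act (σ : Equiv.Perm ℕ) (x : BStr) : Iso x (act σ x) := by
  refine ⟨σ, fun i v => ?_⟩
  have : ⇑σ.symm ∘ ⇑σ ∘ v = v := by
    funext j
    simp
  unfold act
  rw [this]

theorem iso_eq {x y : BStr} (h : Iso x y) : ∃ σ : Equiv.Perm ℕ, y = act σ x := by
  obtain ⟨σ, hσ⟩ := h
  refine ⟨σ, ?_⟩
  funext i v
  have : ⇑σ ∘ ⇑σ.symm ∘ v = v := by
    funext j
    simp
  unfold act
  rw [← hσ, this]

theorem act_act (σ τ : Equiv.Perm ℕ) (x : BStr) : act τ (act σ x) = act (σ.trans τ) x := rfl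

theorem iso_symm {x y : BStr} (h : Iso x y) : Iso y x := by
  obtain ⟨σ, hσ⟩ := h
  refine ⟨σ.symm, fun i v => ?_⟩
  rw [← hσ]
  congr 1
  funext j
  simp

theorem iso_trans {x y z : BStr} (h : Iso x y) (h' : Iso y z) : Iso x z := by
  obtain ⟨σ, hσ⟩ := h
  obtain ⟨τ, hτ⟩ := h'
  exact ⟨σ.trans τ, fun i v => (hτ i (⇑σ ∘ v)).trans (hσ i v)⟩

theorem monoB_act {x : BStr} (σ : Equiv.Perm ℕ) (h : MonoB x) : MonoB (act σ x) := by
  obtain ⟨⟨h1, h2, h3⟩, h4⟩ := h
  refine ⟨⟨fun m => ?_, fun m n k => ?_, fun m n => ?_⟩, fun i => ?_⟩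
  · obtain ⟨m, rfl⟩ := σ.surjective m
    rw [blt_act]
    exact h1 m
  · obtain ⟨m, rfl⟩ := σ.surjective m
    obtain ⟨n, rfl⟩ := σ.surjective n
    obtain ⟨k, rfl⟩ := σ.surjective k
    simp only [blt_act]
    exact h2 m n k
  · obtain ⟨m, rfl⟩ := σ.surjective m
    obtain ⟨n, rfl⟩ := σ.surjective n
    simp only [blt_act, σ.injective.eq_iff]
    exact h3 m n
  · rcases h4 i with h5 | h5
    · left
      intro m n m' n'
      obtain ⟨m, rfl⟩ := σ.surjective m
      obtain ⟨n, rfl⟩ := σ.surjective n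
      obtain ⟨m', rfl⟩ := σ.surjective m'
      obtain ⟨n', rfl⟩ := σ.surjective n'
      simp only [blt_act, brel_act, σ.injective.eq_iff]
      exact h5 m n m' n'
    · right
      intro m n m' n'
      obtain ⟨m, rfl⟩ := σ.surjective m
      obtain ⟨n, rfl⟩ := σ.surjective n
      obtain ⟨m', rfl⟩ := σ.surjective m'
      obtain ⟨n', rfl⟩ := σ.surjective n'
      simp only [blt_act, brel_act, σ.injective.eq_iff]
      exact h5 m n m' n'

theorem eqQ_of_iso {s s' : Cod} (h : Iso (stdB s) (stdB s')) : EqQ s s' := by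
  obtain ⟨σ, hσ⟩ := h
  have h0 : ∀ m n, en.symm (σ m) < en.symm (σ n) ↔ en.symm m < en.symm n := by
    intro m n
    have h1 := hσ 0 ![m, n]
    have h2 : ⇑σ ∘ ![m, n] = ![σ m, σ n] := by
      funext j
      fin_cases j <;> rfl
    rw [h2] at h1
    rw [← blt_std s', ← blt_std s]
    unfold blt
    rw [h1]
  have h1 : ∀ i m n, CQ s' i (en.symm (σ m)) (en.symm (σ n)) ↔ CQ s i (en.symm m) (en.symm n) := by
    intro i m n
    have h1 := hσ (i + 1) ![m, n]
    have h2 : ⇑σ ∘ ![m, n] = ![σ m, σ n] := by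
      funext j
      fin_cases j <;> rfl
    rw [h2] at h1
    rw [← brel_std s', ← brel_std s]
    unfold brel
    rw [h1]
  have h3 : ∀ p q : ℚ, en.symm (σ (en p)) < en.symm (σ (en q)) ↔ p < q := by
    intro p q
    rw [h0, Equiv.symm_apply_apply, Equiv.symm_apply_apply]
  refine ⟨OrderIso.ofRelIsoLT ⟨en.trans (σ.trans en.symm), fun {p q} => h3 p q⟩, fun n p q => ?_⟩
  show CQ s' n (en.symm (σ (en p))) (en.symm (σ (en q))) ↔ _
  rw [h1, Equiv.symm_apply_apply, Equiv.symm_apply_apply]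

theorem iso_of_eqQ {s s' : Cod} (h : EqQ s s') : Iso (stdB s) (stdB s') := by
  obtain ⟨φ, hφ⟩ := h
  refine ⟨en.symm.trans (φ.toEquiv.trans en), fun i v => ?_⟩
  cases i with
  | zero =>
    show decide (en.symm (en (φ (en.symm (v 0)))) < en.symm (en (φ (en.symm (v 1))))) =
      decide (en.symm (v 0) < en.symm (v 1))
    rw [Equiv.symm_apply_apply, Equiv.symm_apply_apply, decide_eq_decide]
    exact φ.lt_iff_lt
  | succ i =>
    have h1 := hφ i (en.symm (v 0)) (en.symm (v 1))
    unfold CQ at h1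
    rw [Equiv.apply_symm_apply, Equiv.apply_symm_apply] at h1
    exact Bool.eq_iff_iff.mpr h1

/-- The order of the rationals. -/
noncomputable def NN : XB Unit :=
  (fun _ m n => decide (en.symm m < en.symm n), fun _ m => m, fun _ _ => false)

theorem isoB_NN {σ : Equiv.Perm ℕ} : IsoB σ NN NN ↔
    ∀ m n, en.symm (σ m) < en.symm (σ n) ↔ en.symm m < en.symm n := by
  constructor
  · intro h m n
    have h1 : decide (en.symm (σ m) < en.symm (σ n)) = decide (en.symm m < en.symm n) := h.1 0 m n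
    exact decide_eq_decide.mp h1
  · intro h
    refine ⟨fun i m n => ?_, fun _ _ => rfl, fun _ _ => rfl⟩
    show decide (en.symm (σ m) < en.symm (σ n)) = decide (en.symm m < en.symm n)
    rw [decide_eq_decide]
    exact h m n

/-- The transport of a code by a code of a permutation. -/
noncomputable def Phi (p : (ℕ → ℕ) × Cod) : BStr := fun i v =>
  stdB p.2 i ![p.1 (2 * v 0 + 1), p.1 (2 * v 1 + 1)]

theorem Phi_code (σ : Equiv.Perm ℕ) (s : Cod) : Phi (code σ, s) = act σ (stdB s) := by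
  funext i v
  have h1 : ⇑σ.symm ∘ v = ![σ.symm (v 0), σ.symm (v 1)] := by
    funext j
    fin_cases j <;> rfl
  unfold Phi act
  simp only [code_odd]
  rw [h1]

theorem m_Phi : Measurable Phi := by
  have c0 : ∀ k, Measurable fun p : (ℕ → ℕ) × Cod => p.1 k := fun k =>
    (measurable_pi_apply k).comp measurable_fst
  have x1 : ∀ i m n, Measurable fun p : (ℕ → ℕ) × Cod => p.2 i m n := fun i m n =>
    (measurable_pi_apply n).comp ((measurable_pi_apply m).comp ((measurable_pi_apply i).comp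
      measurable_snd))
  refine measurable_pi_iff.2 fun i => measurable_pi_iff.2 fun v => ?_
  cases i with
  | zero =>
    show Measurable fun p : (ℕ → ℕ) × Cod =>
      decide (en.symm (p.1 (2 * v 0 + 1)) < en.symm (p.1 (2 * v 1 + 1)))
    exact m_ev (f := fun k (p : (ℕ → ℕ) × Cod) =>
        decide (en.symm k < en.symm (p.1 (2 * v 1 + 1)))) (c0 _)
      fun k => m_ev (f := fun l (_ : (ℕ → ℕ) × Cod) => decide (en.symm k < en.symm l)) (c0 _)
        fun l => measurable_const
  | succ i =>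
    show Measurable fun p : (ℕ → ℕ) × Cod => p.2 i (p.1 (2 * v 0 + 1)) (p.1 (2 * v 1 + 1))
    exact m_ev (f := fun k (p : (ℕ → ℕ) × Cod) => p.2 i k (p.1 (2 * v 1 + 1))) (c0 _)
      fun k => m_ev (f := fun l (p : (ℕ → ℕ) × Cod) => p.2 i k l) (c0 _)
        fun l => x1 _ _ _

theorem polCod : PolishSpace Cod := by
  have a0 : SecondCountableTopology (ℕ → Bool) := inferInstance
  have a1 : SecondCountableTopology (ℕ → ℕ → Bool) := inferInstance
  have a2 : SecondCountableTopology Cod := inferInstance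
  have b0 : TopologicalSpace.IsCompletelyMetrizableSpace (ℕ → Bool) := inferInstance
  have b1 : TopologicalSpace.IsCompletelyMetrizableSpace (ℕ → ℕ → Bool) := inferInstance
  have b2 : TopologicalSpace.IsCompletelyMetrizableSpace Cod := inferInstance
  exact pol_of

theorem polBStr : PolishSpace BStr := by
  have a0 : SecondCountableTopology ((Fin 2 → ℕ) → Bool) := inferInstance
  have a1 : SecondCountableTopology BStr := inferInstance
  have b0 : TopologicalSpace.IsCompletelyMetrizableSpace ((Fin 2 → ℕ) → Bool) := inferInstance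
  have b1 : TopologicalSpace.IsCompletelyMetrizableSpace BStr := inferInstance
  exact pol_of

theorem bsBStr : BorelSpace BStr := by
  have a0 : SecondCountableTopology ((Fin 2 → ℕ) → Bool) := inferInstance
  have a1 : BorelSpace ((Fin 2 → ℕ) → Bool) := inferInstance
  exact Pi.borelSpace

theorem bsCod : BorelSpace Cod := by
  have a0 : SecondCountableTopology (ℕ → Bool) := inferInstance
  have a1 : SecondCountableTopology (ℕ → ℕ → Bool) := inferInstance
  have a2 : BorelSpace (ℕ → Bool) := inferInstance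
  have a3 : BorelSpace (ℕ → ℕ → Bool) := inferInstance
  exact Pi.borelSpace

theorem sepBStr : MeasurableSpace.CountablySeparated BStr := by
  have h1 := polBStr
  have h2 := bsBStr
  have h3 : StandardBorelSpace BStr := standardBorel_of_polish
  have h4 : MeasurableSingletonClass BStr := inferInstance
  have h5 : MeasurableSpace.SeparatesPoints BStr := inferInstance
  have h6 : MeasurableSpace.CountablyGenerated BStr := inferInstance
  exact MeasurableSpace.countablySeparated_of_separatesPoints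

theorem stdB_inj {s s' : Cod} (h : stdB s = stdB s') : s = s' := by
  funext i m n
  exact congrFun (congrFun h (i + 1)) ![m, n]

theorem std_aut {s : Cod} {h : Equiv.Perm ℕ} (hh : IsoB h NN NN) :
    stdB s = act h (stdB fun i m n => s i (h m) (h n)) := by
  rw [isoB_NN] at hh
  funext i v
  cases i with
  | zero =>
    show decide (en.symm (v 0) < en.symm (v 1)) =
      decide (en.symm (h.symm (v 0)) < en.symm (h.symm (v 1)))
    rw [decide_eq_decide, ← hh (h.symm (v 0)) (h.symm (v 1)), h.apply_symm_apply,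
      h.apply_symm_apply]
  | succ i =>
    show s i (v 0) (v 1) = s i (h (h.symm (v 0))) (h (h.symm (v 1)))
    rw [h.apply_symm_apply, h.apply_symm_apply]

/-- The dichotomy for the group of the automorphisms of the order of the rationals, acting on
sequences of monotone relations. -/
theorem dich_codes (A : Set Cod) (hA : MeasurableSet A) (hm : ∀ s ∈ A, MonoQ s)
    (hi : ∀ s ∈ A, ∀ s', EqQ s s' → s' ∈ A) :
    (∃ f : ℕ → Cod, ∀ s ∈ A, ∃ n, f n ∈ A ∧ EqQ (f n) s) ∨
    (∃ c : (ℕ → Bool) → Cod, Continuous c ∧ (∀ a, c a ∈ A) ∧ ∀ a b, EqQ (c a) (c b) → a = b) := by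
  classical
  have b1 := bsCod
  have b2 := bsBStr
  have p1 := polCod
  have p2 := polBStr
  have s2 := sepBStr
  have p3' := polC
  have p4' := polT
  have p3 : PolishSpace ((ℕ → ℕ) × Cod) := pol_prod
  have b3 : BorelSpace ((ℕ → ℕ) × Cod) := Prod.borelSpace
  have p4 : PolishSpace ((ℕ → Bool) × ((ℕ → ℕ) × Cod)) := pol_prod
  have b4 : BorelSpace ((ℕ → Bool) × ((ℕ → ℕ) × Cod)) := Prod.borelSpace
  have hTm : MeasurableSet (T NN) := (closed_T NN).measurableSet
  have hinj : InjOn Phi (T NN ×ˢ A) := by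
    rintro ⟨c, s⟩ ⟨hc, hs⟩ ⟨c', s'⟩ ⟨hc', hs'⟩ he
    obtain ⟨σ, rfl⟩ := isC_ex hc.1
    obtain ⟨σ', rfl⟩ := isC_ex hc'.1
    rw [Phi_code, Phi_code] at he
    have h1 : IsoB (σ.trans σ'.symm) NN NN := by
      rw [isoB_NN]
      intro m n
      have h2 : blt (act σ (stdB s)) (σ m) (σ n) ↔ blt (act σ' (stdB s')) (σ m) (σ n) := by
        rw [he]
      rw [blt_act] at h2
      have h3 : blt (act σ' (stdB s')) (σ' (σ'.symm (σ m))) (σ' (σ'.symm (σ n))) ↔
          blt (stdB s') (σ'.symm (σ m)) (σ'.symm (σ n)) := blt_act _ _ _ _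
      rw [σ'.apply_symm_apply, σ'.apply_symm_apply] at h3
      rw [h3, blt_std, blt_std] at h2
      exact h2.symm
    have h2 : σ = σ' := uniq_rep h1 hc hc'
    subst h2
    have h3 : stdB s = stdB s' := by
      funext i v
      have h4 := congrFun (congrFun he i) (⇑σ ∘ v)
      have h5 : ⇑σ.symm ∘ ⇑σ ∘ v = v := by
        funext j
        simp
      unfold act at h4
      rw [h5] at h4
      exact h4
    rw [stdB_inj h3]
  have hB' : MeasurableSet (Phi '' (T NN ×ˢ A)) :=
    (hTm.prod hA).image_of_measurable_injOn m_Phi hinj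
  have hsat : ∀ s ∈ A, ∀ σ : Equiv.Perm ℕ, act σ (stdB s) ∈ Phi '' (T NN ×ˢ A) := by
    intro s hs σ
    obtain ⟨h, hh, hT⟩ := ex_rep NN σ
    have h1 := std_aut (s := s) hh
    have h2 : (fun i m n => s i (h m) (h n)) ∈ A := by
      refine hi s hs _ (eqQ_of_iso ?_)
      rw [h1]
      exact iso_symm (iso_act _ _)
    refine ⟨(code (h.trans σ), fun i m n => s i (h m) (h n)), ⟨hT, h2⟩, ?_⟩
    rw [Phi_code, ← act_act, ← h1]
  have hstd : ∀ s ∈ A, stdB s ∈ Phi '' (T NN ×ˢ A) := fun s hs => hsat s hs (Equiv.refl ℕ)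
  have hinv1 : ∀ x y : BStr, Iso x y → x ∈ Phi '' (T NN ×ˢ A) → y ∈ Phi '' (T NN ×ˢ A) := by
    rintro _ y hxy ⟨⟨c, s⟩, ⟨hc, hs⟩, rfl⟩
    obtain ⟨τ, rfl⟩ := isC_ex hc.1
    obtain ⟨σ, rfl⟩ := iso_eq hxy
    rw [Phi_code, act_act]
    exact hsat s hs _
  have hMono : ∀ x ∈ Phi '' (T NN ×ˢ A), MonoB x := by
    rintro _ ⟨⟨c, s⟩, ⟨hc, hs⟩, rfl⟩
    obtain ⟨τ, rfl⟩ := isC_ex hc.1
    rw [Phi_code]
    exact monoB_act _ (monoB_std (hm s hs))
  rcases dich_inf _ hB' (fun x y h => ⟨hinv1 x y h, hinv1 y x (iso_symm h)⟩) hMono with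
    ⟨f, hf⟩ | ⟨c, hc1, hc2, hc3⟩
  · left
    have h1 : ∀ n, ∃ s : Cod, (∃ s' ∈ A, Iso (f n) (stdB s')) → s ∈ A ∧ Iso (f n) (stdB s) := by
      intro n
      by_cases h : ∃ s' ∈ A, Iso (f n) (stdB s')
      · obtain ⟨s', hs', hσ⟩ := h
        exact ⟨s', fun _ => ⟨hs', hσ⟩⟩
      · exact ⟨fun _ _ _ => false, fun h' => absurd h' h⟩
    choose g hg using h1
    refine ⟨g, fun s hs => ?_⟩
    obtain ⟨n, hn⟩ := hf (stdB s) (hstd s hs)
    obtain ⟨h2, h3⟩ := hg n ⟨s, hs, hn⟩
    exact ⟨n, h2, eqQ_of_iso (iso_trans (iso_symm h3) hn)⟩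
  · right
    have hc2' : ∀ a, ∃ p : (ℕ → ℕ) × Cod, p ∈ T NN ×ˢ A ∧ Phi p = c a := fun a => hc2 a
    set Z : Set ((ℕ → Bool) × ((ℕ → ℕ) × Cod)) := {p | p.2 ∈ T NN ×ˢ A ∧ Phi p.2 = c p.1} with hZ
    have hZm : MeasurableSet Z := by
      refine (measurable_snd (hTm.prod hA)).inter ?_
      exact measurableSet_eq_fun (m_Phi.comp measurable_snd) (hc1.measurable.comp measurable_fst)
    have hE : Equivalence fun p q : (ℕ → Bool) × ((ℕ → ℕ) × Cod) => p.1 = q.1 :=
      ⟨fun _ => rfl, fun h => h.symm, fun h h' => h.trans h'⟩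
    have hEm : MeasurableSet {q : ((ℕ → Bool) × ((ℕ → ℕ) × Cod)) ×
        ((ℕ → Bool) × ((ℕ → ℕ) × Cod)) | q.1.1 = q.2.1} :=
      measurableSet_eq_fun (measurable_fst.comp measurable_fst)
        (measurable_fst.comp measurable_snd)
    rcases Pool.Agent.H579R3.SV.silver hE hEm hZm.analyticSet with
      ⟨S, hS1, hS2, hS3⟩ | ⟨h, hh1, hh2, hh3⟩
    · exfalso
      have h1 : (Set.univ : Set (ℕ → Bool)) ⊆ Prod.fst '' S := by
        intro a _
        obtain ⟨p, hp, he⟩ := hc2' a
        obtain ⟨q, hq, hq'⟩ := hS3 (a, p) ⟨hp, he⟩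
        exact ⟨q, hq, hq'.symm⟩
      exact Pool.Agent.H899R2.VP.not_countable_cantor
        (Set.countable_univ_iff.1 ((hS2.image _).mono h1))
    · refine ⟨fun b => (h b).2.2, (continuous_snd.comp continuous_snd).comp hh1,
        fun b => (hh2 b).1.2, fun b b' hbb => ?_⟩
      by_contra hne
      refine hh3 b b' hne (hc3 _ _ ?_)
      have h1 := hh2 b
      have h2 := hh2 b'
      obtain ⟨τ, hτ⟩ := isC_ex h1.1.1.1
      obtain ⟨τ', hτ'⟩ := isC_ex h2.1.1.1
      have h3 : Iso (stdB (h b).2.2) (c (h b).1) := by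
        rw [← h1.2]
        have e : (h b).2 = (code τ, (h b).2.2) := Prod.ext hτ rfl
        rw [e, Phi_code]
        exact iso_act _ _
      have h4 : Iso (stdB (h b').2.2) (c (h b').1) := by
        rw [← h2.2]
        have e : (h b').2 = (code τ', (h b').2.2) := Prod.ext hτ' rfl
        rw [e, Phi_code]
        exact iso_act _ _
      exact iso_trans (iso_symm h3) (iso_trans (iso_of_eqQ hbb) h4)

end Pool.Agent.H642.MR
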