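import Pool.Agent.H642.MR.Mark

set_option autoImplicit false

/-!
Good countable dense sets for a sequence of closed monotone relations, and their uniqueness.
-/

open Set

namespace Pool.Agent.H642.MR

open Pool.Agent.H642.TV

variable {C : ℕ → Set (ℝ × ℝ)} {D D' : Set ℝ}

/-- Good sets. -/
structure Good2 (C : ℕ → Set (ℝ × ℝ)) (D : Set ℝ) : Prop where
  sub : ∀ p ∈ DZ (Fam2 C), p ∈ D
  inter : ∀ p ∈ D, p ∈ A2 C → p ∈ DZ (Fam2 C)
  inv : ∀ w t y, PW C w t y → t ∈ D → y ∈ D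
  tr : ∀ p ∈ D, ∀ q ∈ D, p ∈ NWS C → SG (A2 C) p q → ∃ w, PW C w p q

theorem Good2.ofE1 (hD : Good2 C D) {e : ℝ} (he : e ∈ E1 C) : e ∈ D :=
  hD.sub e (Or.inl (E1_sub_EE he))

/-! ### The relations are determined by their restrictions to a good set -/

/-- Semicontinuity of the values at a point that is not marked. -/
theorem Adm.semi (h : Adm C) {a : Ltr} {x y l u : ℝ} (hx : x ∉ E1 C) (hxy : RL C a x y)
    (hl : l < y) (hu : y < u) : ∃ p q, p < x ∧ x < q ∧
      ∀ t z, p < t → t < q → RL C a t z → l < z ∧ z < u := by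
  have hxc : x ∈ closure (dom C a) := subset_closure ⟨y, hxy⟩
  -- points of the domain on both sides
  obtain ⟨x1, ⟨y1, hy1⟩, hx1⟩ : ∃ x1 ∈ dom C a, x1 < x := by
    by_contra hc
    push Not at hc
    refine hx (E1.ofDom (a := a) (Or.inl ⟨hxc, x - 1, by linarith, fun s _ hs hsc => ?_⟩))
    obtain ⟨z, hz, hz'⟩ := mem_closure_iff.mp hsc (Iio x) isOpen_Iio hs
    exact absurd hz (not_lt.mpr (hc z hz'))
  obtain ⟨x2, ⟨y2, hy2⟩, hx2⟩ : ∃ x2 ∈ dom C a, x < x2 := by
    by_contra hc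
    push Not at hc
    refine hx (E1.ofDom (a := a) (Or.inr ⟨hxc, x + 1, by linarith, fun s hs _ hsc => ?_⟩))
    obtain ⟨z, hz, hz'⟩ := mem_closure_iff.mp hsc (Ioi x) isOpen_Ioi hs
    exact absurd hz (not_lt.mpr (hc z hz'))
  have c1 := h.isClosed_proj a x1 x2 (min y1 y2) l
  have c2 := h.isClosed_proj a x1 x2 u (max y1 y2)
  have hx' : x ∈ ({t | t ∈ Icc x1 x2 ∧ ∃ z ∈ Icc (min y1 y2) l, RL C a t z} ∪
      {t | t ∈ Icc x1 x2 ∧ ∃ z ∈ Icc u (max y1 y2), RL C a t z})ᶜ := by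
    rintro (⟨_, z, hz, hz'⟩ | ⟨_, z, hz, hz'⟩)
    · have := val_unique hx hxy hz'
      subst this
      exact absurd hz.2 (not_le.mpr hl)
    · have := val_unique hx hxy hz'
      subst this
      exact absurd hz.1 (not_le.mpr hu)
  obtain ⟨p, q, ⟨hp, hq⟩, hsub⟩ := mem_nhds_iff_exists_Ioo_subset.mp
    ((c1.union c2).isOpen_compl.mem_nhds hx')
  refine ⟨max p x1, min q x2, max_lt hp hx1, lt_min hq hx2, fun t z ht1 ht2 htz => ?_⟩
  have e1 : p < t := lt_of_le_of_lt (le_max_left _ _) ht1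
  have e2 : x1 < t := lt_of_le_of_lt (le_max_right _ _) ht1
  have e3 : t < q := lt_of_lt_of_le ht2 (min_le_left _ _)
  have e4 : t < x2 := lt_of_lt_of_le ht2 (min_le_right _ _)
  have e5 : min y1 y2 ≤ z ∧ z ≤ max y1 y2 := h.between a hy1 hy2 htz e2 e4
  have e6 := hsub ⟨e1, e3⟩
  constructor
  · by_contra hc
    exact e6 (Or.inl ⟨⟨e2.le, e4.le⟩, z, ⟨e5.1, not_lt.mp hc⟩, htz⟩)
  · by_contra hc
    exact e6 (Or.inr ⟨⟨e2.le, e4.le⟩, z, ⟨not_lt.mp hc, e5.2⟩, htz⟩)

theorem A1_sub_NWS {t : ℝ} (ht : t ∈ A1 C) : t ∈ NWS C := fun _ _ hu hv hW =>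
  hW.1 t hu.le hv.le ht

/-- An unmarked point of a good set in the closure of the marked points is the end of a gap. -/
theorem Good2.side (hD : Good2 C D) {d : ℝ} (hd : d ∈ D) (hdA : d ∈ A1 C) (hdE : d ∉ E1 C) :
    (∃ u, u < d ∧ ∀ t, u < t → t < d → t ∉ A1 C) ∨
      ∃ v, d < v ∧ ∀ t, d < t → t < v → t ∉ A1 C := by
  have key : ∀ S : Set ℝ, A1 C ⊆ S → (LEnd S d ∨ REnd S d) →
      (∃ u, u < d ∧ ∀ t, u < t → t < d → t ∉ A1 C) ∨
        ∃ v, d < v ∧ ∀ t, d < t → t < v → t ∉ A1 C := by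
    rintro S hS (⟨_, u, h1, h2⟩ | ⟨_, v, h1, h2⟩)
    · exact Or.inl ⟨u, h1, fun t a b hc => h2 t a b (hS hc)⟩
    · exact Or.inr ⟨v, h1, fun t a b hc => h2 t a b (hS hc)⟩
  rcases hD.inter d hd (A1_sub_A2 hdA) with ⟨S, hS, he⟩ | he
  · rcases hS with ((⟨e, he1, rfl⟩ | hS) | ⟨w, rfl⟩) | hS
    · have : d ∈ ({e} : Set ℝ) := by rcases he with he | he <;> exact he.1
      exact absurd (mem_singleton_iff.mp this ▸ he1) hdE
    · rw [mem_singleton_iff.mp hS] at he
      exact key _ subset_rfl he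
    · exact key _ subset_union_left he
    · rw [mem_singleton_iff.mp hS] at he
      exact key _ (fun t ht => A1_sub_NWS ht) he
  · exact key _ (fun t ht => A1_sub_A2 ht) he

/-- A point of a good set in the domain of a letter with bounded values has a value in the good
set. -/
theorem Good2.val (h : Adm C) (hD : Good2 C D) {a : Ltr} {d e₀ m M : ℝ} (hd : d ∈ D)
    (hde : RL C a d e₀) (hb : ∀ e, RL C a d e → m ≤ e ∧ e ≤ M) : ∃ e ∈ D, RL C a d e := by
  by_cases hdE : d ∈ E1 C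
  · have hcl := h.isClosed_row a d
    have hbd : BddBelow {y | RL C a d y} := ⟨m, fun e he => (hb e he).1⟩
    have hs := hcl.csInf_mem ⟨e₀, hde⟩ hbd
    refine ⟨sInf {y | RL C a d y}, hD.ofE1 (E1.img hdE (a := a) (Or.inl ⟨hs,
      sInf {y | RL C a d y} - 1, by linarith, fun t _ ht htm => ?_⟩)), hs⟩
    exact absurd (csInf_le hbd htm) (not_le.mpr ht)
  · by_cases he : e₀ ∈ E1 C
    · exact ⟨e₀, hD.ofE1 he, hde⟩
    · by_cases hdA : d ∈ A1 C
      · refine ⟨e₀, ?_, hde⟩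
        have he₀A : e₀ ∈ A1 C := by
          by_contra hc
          exact h.not_A1 ((RL_li a d e₀).mpr hde) hc hdE hdA
        have hdc : d ∈ closure (dom C a) := subset_closure ⟨e₀, hde⟩
        -- a one sided neighbourhood without points of `A1`
        obtain ⟨T, t₀, hT0, hT1, hT2, hT3⟩ : ∃ (T : Set ℝ) (t₀ : ℝ), t₀ ∈ T ∧
            t₀ ∈ closure (dom C a) ∧ (∀ t ∈ T, SG (A1 C) t₀ t) ∧
            ∀ p q, p < d → d < q → ∃ t ∈ T, p < t ∧ t < q := by
          rcases hD.side hd hdA hdE with ⟨u, hu, hu'⟩ | ⟨v, hv, hv'⟩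
          · have : ∃ t₀ ∈ closure (dom C a), u < t₀ ∧ t₀ < d := by
              by_contra hc
              push Not at hc
              exact hdE (E1.ofDom (a := a) (Or.inl ⟨hdc, u, hu, fun t h1 h2 h3 =>
                absurd h2 (not_lt.mpr (hc t h3 h1))⟩))
            obtain ⟨t₀, h1, h2, h3⟩ := this
            refine ⟨Ioo u d, t₀, ⟨h2, h3⟩, h1, fun t ht s hs => ?_, fun p q hp _ => ?_⟩
            · have := ordConnected_Ioo.uIcc_subset ⟨h2, h3⟩ ht hs
              exact hu' s this.1 this.2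
            · obtain ⟨t, e1, e2⟩ := exists_between (max_lt hp hu)
              exact ⟨t, ⟨lt_of_le_of_lt (le_max_right _ _) e1, e2⟩,
                lt_of_le_of_lt (le_max_left _ _) e1, by linarith⟩
          · have : ∃ t₀ ∈ closure (dom C a), d < t₀ ∧ t₀ < v := by
              by_contra hc
              push Not at hc
              exact hdE (E1.ofDom (a := a) (Or.inr ⟨hdc, v, hv, fun t h1 h2 h3 =>
                absurd h2 (not_lt.mpr (hc t h3 h1))⟩))
            obtain ⟨t₀, h1, h2, h3⟩ := this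
            refine ⟨Ioo d v, t₀, ⟨h2, h3⟩, h1, fun t ht s hs => ?_, fun p q _ hq => ?_⟩
            · have := ordConnected_Ioo.uIcc_subset ⟨h2, h3⟩ ht hs
              exact hv' s this.1 this.2
            · obtain ⟨t, e1, e2⟩ := exists_between (lt_min hq hv)
              exact ⟨t, ⟨e1, lt_of_lt_of_le e2 (min_le_right _ _)⟩, by linarith,
                lt_of_lt_of_le e2 (min_le_left _ _)⟩
        have ht₀A : t₀ ∉ A1 C := (hT2 t₀ hT0).right
        obtain ⟨z₀, hz₀⟩ : t₀ ∈ dom C a := by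
          by_contra hc
          exact ht₀A (E1_sub_A1 (E1.ofDom (h.dom_end a hT1 hc)))
        by_cases hz₀E : z₀ ∈ E1 C
        · -- the letter is constant on the gap
          have h1 : RL C a d z₀ := by
            by_contra hc
            have hopen : IsOpen {t | ¬ RL C (li a) z₀ t} :=
              (h.isClosed_row (li a) z₀).isOpen_compl
            obtain ⟨p, q, ⟨hp, hq⟩, hsub⟩ := mem_nhds_iff_exists_Ioo_subset.mp
              (hopen.mem_nhds (show d ∈ {t | ¬ RL C (li a) z₀ t} from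
                fun hc' => hc ((RL_li a d z₀).mp hc')))
            obtain ⟨t, htT, h2, h3⟩ := hT3 p q hp hq
            exact hsub ⟨h2, h3⟩ ((RL_li a t z₀).mpr (h.const_val (hT2 t htT) hz₀ hz₀E))
          rw [val_unique hdE hde h1]
          exact hD.ofE1 hz₀E
        · have hz₀A : z₀ ∉ A1 C := h.not_A1 hz₀ ht₀A hz₀E
          -- the points between `z₀` and `e₀` are in the gap of `z₀`
          have hbet : ∀ w, w ∈ uIcc z₀ e₀ → w ≠ e₀ → w ∉ A1 C := by
            intro w hw hwe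
            obtain ⟨l, u, hl, hu, hlu⟩ : ∃ l u, l < e₀ ∧ e₀ < u ∧
                ∀ z, l < z → z < u → w ∈ uIcc z₀ z := by
              rw [mem_uIcc] at hw
              rcases hw with ⟨h1, h2⟩ | ⟨h1, h2⟩
              · refine ⟨w, e₀ + 1, lt_of_le_of_ne h2 hwe, by linarith, fun z hz _ => ?_⟩
                rw [mem_uIcc]
                exact Or.inl ⟨h1, hz.le⟩
              · refine ⟨e₀ - 1, w, by linarith, lt_of_le_of_ne h1 (Ne.symm hwe), fun z _ hz => ?_⟩
                rw [mem_uIcc]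
                exact Or.inr ⟨hz.le, h2⟩
            obtain ⟨p, q, hp, hq, hpq⟩ := h.semi hdE hde hl hu
            obtain ⟨t, htT, h2, h3⟩ := hT3 p q hp hq
            obtain ⟨z, hz, hz'⟩ := h.key hz₀ hz₀E (hT2 t htT)
            obtain ⟨h4, h5⟩ := hpq t z h2 h3 hz
            exact hz' w (hlu z h4 h5)
          have hend : LEnd (A1 C) e₀ ∨ REnd (A1 C) e₀ := by
            rcases lt_trichotomy z₀ e₀ with h1 | h1 | h1
            · left
              refine ⟨he₀A, z₀, h1, fun t h2 h3 => hbet t ?_ h3.ne⟩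
              rw [mem_uIcc]
              exact Or.inl ⟨h2.le, h3.le⟩
            · exact absurd (h1 ▸ he₀A) hz₀A
            · right
              refine ⟨he₀A, z₀, h1, fun t h2 h3 => hbet t ?_ h2.ne'⟩
              rw [mem_uIcc]
              exact Or.inr ⟨h2.le, h3.le⟩
          exact hD.sub e₀ (Or.inl ⟨A1 C, Fam2.a1, hend⟩)
      · exact ⟨e₀, hD.inv [a] d e₀ (PW_single.mpr ⟨hde, hdA, h.not_A1 hde hdA he⟩) hd, hde⟩

/-- Near every point outside of the marked points in the domain of a letter there are points of a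
good set in the domain. -/
theorem Good2.near (h : Adm C) (hD : Good2 C D) (dD : Dense D) {a : Ltr} {x y p q : ℝ}
    (hx : x ∉ E1 C) (hxy : RL C a x y) (hp : p < x) (hq : x < q) :
    ∃ d ∈ D, p < d ∧ d < q ∧ d ∈ dom C a := by
  have hxd : x ∈ dom C a := ⟨y, hxy⟩
  have hxc : x ∈ closure (dom C a) := subset_closure hxd
  have : ∃ t1 ∈ dom C a, p < t1 ∧ t1 < x := by
    by_contra hc
    push Not at hc
    refine hx (E1.ofDom (a := a) (Or.inl ⟨hxc, p, hp, fun s hs1 hs2 hsc => ?_⟩))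
    obtain ⟨z, hz, hz'⟩ := mem_closure_iff.mp hsc (Ioo p x) isOpen_Ioo ⟨hs1, hs2⟩
    exact absurd hz.2 (not_lt.mpr (hc z hz' hz.1))
  obtain ⟨t1, ht1, hpt1, ht1x⟩ := this
  by_cases hsub : ∀ s, t1 < s → s < x → s ∈ closure (dom C a)
  · obtain ⟨d, hd, h1, h2⟩ := dD.exists_between ht1x
    exact ⟨d, hd, hpt1.trans h1, h2.trans hq, h.dom_between a ht1 hxd h1 h2 (hsub d h1 h2)⟩
  · push Not at hsub
    obtain ⟨s, hs1, hs2, hs3⟩ := hsub
    -- there is an end point of the closure of the domain between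
    have : ∃ d ∈ uIcc t1 s, LEnd (closure (dom C a)) d ∨ REnd (closure (dom C a)) d := by
      by_contra hc
      push Not at hc
      refine hs3 (const (A := {d | LEnd (closure (dom C a)) d ∨ REnd (closure (dom C a)) d})
        isClosed_closure (fun t ht => ht) (fun d hd hd' => ?_) (subset_closure ht1))
      have h1 := hc d hd
      rcases hd' with h2 | h2
      · exact h1.1 h2
      · exact h1.2 h2
    obtain ⟨d, hd, hde⟩ := this
    rw [uIcc_of_le hs1.le] at hd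
    refine ⟨d, hD.ofE1 (E1.ofDom hde), lt_of_lt_of_le hpt1 hd.1,
      (lt_of_le_of_lt hd.2 hs2).trans hq, ?_⟩
    have hdc : d ∈ closure (dom C a) := by rcases hde with h1 | h1 <;> exact h1.1
    rcases hd.1.eq_or_lt with h1 | h1
    · rw [← h1]
      exact ht1
    · exact h.dom_between a ht1 hxd h1 (lt_of_le_of_lt hd.2 hs2) hdc

theorem Good2.approx (h : Adm C) (hD : Good2 C D) (dD : Dense D) {a : Ltr} {x y l u l' u' : ℝ}
    (hxy : RL C a x y) (hl : l < x) (hu : x < u) (hl' : l' < y) (hu' : y < u') :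
    ∃ d ∈ D, ∃ e ∈ D, RL C a d e ∧ l < d ∧ d < u ∧ l' < e ∧ e < u' := by
  have key : ∀ (a : Ltr) {x y l u l' u' : ℝ}, RL C a x y → x ∉ E1 C → l < x → x < u → l' < y →
      y < u' → ∃ d ∈ D, ∃ e ∈ D, RL C a d e ∧ l < d ∧ d < u ∧ l' < e ∧ e < u' := by
    intro a x y l u l' u' hxy hx hl hu hl' hu'
    obtain ⟨p, q, hp, hq, hpq⟩ := h.semi hx hxy hl' hu'
    obtain ⟨d, hd, h1, h2, e₀, he₀⟩ := hD.near h dD hx hxy (max_lt hl hp) (lt_min hu hq)
    have h3 : p < d := lt_of_le_of_lt (le_max_right _ _) h1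
    have h4 : d < q := lt_of_lt_of_le h2 (min_le_right _ _)
    obtain ⟨e, he, hde⟩ := hD.val h hd he₀ (m := l') (M := u') fun e he =>
      ⟨(hpq d e h3 h4 he).1.le, (hpq d e h3 h4 he).2.le⟩
    exact ⟨d, hd, e, he, hde, lt_of_le_of_lt (le_max_left _ _) h1,
      lt_of_lt_of_le h2 (min_le_left _ _), (hpq d e h3 h4 hde).1, (hpq d e h3 h4 hde).2⟩
  by_cases hx : x ∈ E1 C
  · by_cases hy : y ∈ E1 C
    · exact ⟨x, hD.ofE1 hx, y, hD.ofE1 hy, hxy, hl, hu, hl', hu'⟩
    · obtain ⟨e, he, d, hd, h1, h2, h3, h4, h5⟩ :=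
        key (li a) ((RL_li a x y).mpr hxy) hy hl' hu' hl hu
      exact ⟨d, hd, e, he, (RL_li a d e).mp h1, h4, h5, h2, h3⟩
  · exact key a hxy hx hl hu hl' hu'

/-- The relations are the closures of their restrictions to a good dense set. -/
theorem Good2.closure_eq (h : Adm C) (hD : Good2 C D) (dD : Dense D) (n : ℕ) :
    closure {p : ℝ × ℝ | p ∈ C n ∧ p.1 ∈ D ∧ p.2 ∈ D} = C n := by
  refine subset_antisymm ((h.cl n).closure_subset_iff.mpr fun p hp => hp.1) fun p hp => ?_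
  obtain ⟨x, y⟩ := p
  rw [mem_closure_iff_nhds]
  intro U hU
  rw [nhds_prod_eq, Filter.mem_prod_iff] at hU
  obtain ⟨V, hV, W, hW, hVW⟩ := hU
  obtain ⟨l, u, ⟨h1, h2⟩, h3⟩ := mem_nhds_iff_exists_Ioo_subset.mp hV
  obtain ⟨l', u', ⟨h1', h2'⟩, h3'⟩ := mem_nhds_iff_exists_Ioo_subset.mp hW
  obtain ⟨d, hd, e, he, hde, a1, a2, a3, a4⟩ :=
    hD.approx h dD (a := (n, true)) (show RL C (n, true) x y from hp) h1 h2 h1' h2'
  exact ⟨(d, e), hVW ⟨h3 ⟨a1, a2⟩, h3' ⟨a3, a4⟩⟩, hde, hd, he⟩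

/-! ### Representatives of orbits of gaps -/

/-- The orbit relation on gaps. -/
def RR2 (C : ℕ → Set (ℝ × ℝ)) (t t' : ℝ) : Prop :=
  t = t' ∨ ∃ w y, PW C w t y ∧ SG (A2 C) y t'

theorem RR2.equivalence (h : Adm C) : Equivalence (RR2 C) where
  refl _ := Or.inl rfl
  symm {x y} hxy := by
    rcases hxy with hxy | ⟨w, z, h1, h2⟩
    · exact Or.inl hxy.symm
    · right
      obtain ⟨z', h3, h4⟩ := h.PW_gap2 (PW_wi.mpr h1) h2
      exact ⟨wi w, z', h3, h4.symm⟩
  trans {x y z} h1 h2 := by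
    rcases h1 with rfl | ⟨w, y', h3, h4⟩
    · exact h2
    · rcases h2 with rfl | ⟨v, z', h5, h6⟩
      · exact Or.inr ⟨w, y', h3, h4⟩
      · right
        obtain ⟨z'', h7, h8⟩ := h.PW_gap2 h5 h4.symm
        exact ⟨w ++ v, z'', PW_append.mpr ⟨y', h3, h7⟩, h8.symm.trans h6⟩

/-- The orbit relation on gaps, as a setoid. -/
def gapSetoid2 (h : Adm C) : Setoid ℝ where
  r := RR2 C
  iseqv := RR2.equivalence h

/-- A chosen representative. -/
noncomputable def rep2 (h : Adm C) (t : ℝ) : ℝ := (Quotient.mk (gapSetoid2 h) t).out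

theorem rep2_rel (h : Adm C) (t : ℝ) : RR2 C (rep2 h t) t :=
  Quotient.mk_out (s := gapSetoid2 h) t

theorem rep2_eq (h : Adm C) {t t' : ℝ} (ht : RR2 C t t') : rep2 h t = rep2 h t' := by
  have : Quotient.mk (gapSetoid2 h) t = Quotient.mk (gapSetoid2 h) t' := Quotient.sound ht
  unfold rep2
  rw [this]

theorem rep2_spec (h : Adm C) {t : ℝ} (ht : t ∉ A2 C) :
    ∃ w y, PW C w t y ∧ SG (A2 C) y (rep2 h t) := by
  rcases (RR2.equivalence h).symm (rep2_rel h t) with h1 | h1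
  · refine ⟨[], t, ⟨rfl, fun hc => ht (A1_sub_A2 hc)⟩, ?_⟩
    rw [← h1]
    exact SG.refl ht
  · exact h1

/-! ### Uniqueness -/

theorem exists_tau2 (h : Adm C) (hD : Good2 C D) (hD' : Good2 C D') (cD : D.Countable)
    (dD : Dense D) (cD' : D'.Countable) (dD' : Dense D') {r : ℝ} (hr : r ∉ A2 C) :
    ∃ τ, TauK {t | SG (A2 C) r t} (KG C r) D D' τ := by
  have hr0 : SG (A2 C) r r := SG.refl hr
  refine exists_tauK (h.gapG r) ⟨r, hr0⟩ ?_ ?_ cD dD cD' dD' ?_
  · intro f hf d hd hdJ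
    obtain ⟨w, hw⟩ := hf.2
    exact hD.inv w d _ (hw d hdJ) hd
  · intro f hf d hd hdJ
    obtain ⟨w, hw⟩ := hf.2
    exact hD'.inv w d _ (hw d hdJ) hd
  · by_cases hN : r ∈ NWS C
    · left
      constructor
      · intro p hp q hq hpJ hqJ
        have hpJ : SG (A2 C) r p := hpJ
        have hqJ : SG (A2 C) r q := hqJ
        obtain ⟨w, hw⟩ := hD.tr p hp q hq (h.nws_const hpJ hN) (hpJ.symm.trans hqJ)
        obtain ⟨f, hf, hf', _⟩ := h.exists_KG hw hpJ hqJ
        exact ⟨f, hf, hf'⟩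
      · intro p hp q hq hpJ hqJ
        have hpJ : SG (A2 C) r p := hpJ
        have hqJ : SG (A2 C) r q := hqJ
        obtain ⟨w, hw⟩ := hD'.tr p hp q hq (h.nws_const hpJ hN) (hpJ.symm.trans hqJ)
        obtain ⟨f, hf, hf', _⟩ := h.exists_KG hw hpJ hqJ
        exact ⟨f, hf, hf'⟩
    · right
      intro s hs
      have hs : SG (A2 C) r s := hs
      have h1 : ¬ ∀ u v, u < s → s < v → ¬ WI2 C u v := fun hc => hN (h.nws_const hs.symm hc)
      push Not at h1
      obtain ⟨u, v, hu, hv, hW⟩ := h1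
      refine ⟨u, v, hu, hv, fun f hf t ht h2 h3 h4 h5 => ?_⟩
      obtain ⟨w, hw⟩ := hf.2
      exact (hW.2 w t (f t) h2 h3 h4 h5 (hw t ht)).symm

/-- Two good countable dense sets for the same relations differ by an automorphism. -/
theorem uniq2 (h : Adm C) (hD : Good2 C D) (hD' : Good2 C D') (cD : D.Countable)
    (dD : Dense D) (cD' : D'.Countable) (dD' : Dense D') :
    ∃ k : ℝ ≃o ℝ, (∀ n x y, (x, y) ∈ C n ↔ (k x, k y) ∈ C n) ∧
      (∀ d ∈ D, k d ∈ D') ∧ SurjOn k D D' := by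
  classical
  have hτ' : ∀ r : ℝ, ∃ τ, r ∉ A2 C → TauK {t | SG (A2 C) r t} (KG C r) D D' τ := fun r => by
    by_cases hr : r ∈ A2 C
    · exact ⟨id, fun h => absurd hr h⟩
    · obtain ⟨τ, hτ⟩ := exists_tau2 h hD hD' cD dD cD' dD' hr
      exact ⟨τ, fun _ => hτ⟩
  choose τ hτ using hτ'
  have hrepA : ∀ d, d ∉ A2 C → rep2 h d ∉ A2 C := fun d hd => by
    obtain ⟨_, _, _, h2⟩ := rep2_spec h hd
    exact h2.right
  -- the definition of the isomorphism
  have hex : ∀ d : ℝ, ∃ z : ℝ, (d ∈ A2 C → z = d) ∧ (d ∉ A2 C → d ∈ D → ∃ w y, PW C w d y ∧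
      SG (A2 C) (rep2 h d) y ∧ PW C w z (τ (rep2 h d) y)) := by
    intro d
    by_cases hdA : d ∈ A2 C
    · exact ⟨d, fun _ => rfl, fun hc => absurd hdA hc⟩
    · by_cases hdD : d ∈ D
      · obtain ⟨w, y, h1, h2⟩ := rep2_spec h hdA
        have hyD : y ∈ D := hD.inv w d y h1 hdD
        obtain ⟨_, h4⟩ := (hτ _ (hrepA d hdA)).maps y hyD h2.symm
        have h4 : SG (A2 C) (rep2 h d) (τ (rep2 h d) y) := h4
        obtain ⟨z, h5, _⟩ := h.PW_gap2 (PW_wi.mpr h1) (h2.trans h4)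
        exact ⟨z, fun hc => absurd hc hdA, fun _ _ => ⟨w, y, h1, h2.symm, PW_wi.mp h5⟩⟩
      · exact ⟨d, fun _ => rfl, fun _ hc => absurd hc hdD⟩
  choose σ hσA hσ using hex
  have key : ∀ d ∈ D, d ∉ A2 C → ∀ w y, PW C w d y → SG (A2 C) (rep2 h d) y →
      PW C w (σ d) (τ (rep2 h d) y) := by
    intro d hd hdA w y h1 h2
    obtain ⟨w₀, y₀, a1, a2, a3⟩ := hσ d hdA hd
    have b1 : PW C (wi w₀ ++ w) y₀ y := PW_append.mpr ⟨d, PW_wi.mpr a1, h1⟩
    obtain ⟨f, hf, b2, b3⟩ := h.exists_KG b1 a2 h2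
    have hT := hτ _ (hrepA d hdA)
    have hy₀D : y₀ ∈ D := hD.inv w₀ d y₀ a1 hd
    have b4 := hT.equi f hf y₀ hy₀D a2
    rw [b2] at b4
    have b5 : SG (A2 C) (rep2 h d) (τ (rep2 h d) y₀) := (hT.maps y₀ hy₀D a2).2
    have b6 := b3 _ b5
    rw [← b4] at b6
    obtain ⟨x, c1, c2⟩ := PW_append.mp b6
    have c3 : x = σ d := (PW_wi.mp c1).inj a3
    rwa [c3] at c2
  have hmem : ∀ d ∈ D, d ∉ A2 C → σ d ∈ D' ∧ SG (A2 C) d (σ d) := by
    intro d hd hdA
    obtain ⟨w, y, h1, h2⟩ := rep2_spec h hdA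
    have h3 := key d hd hdA w y h1 h2.symm
    obtain ⟨h4, h5⟩ := (hτ _ (hrepA d hdA)).maps y (hD.inv w d y h1 hd) h2.symm
    have h5 : SG (A2 C) (rep2 h d) (τ (rep2 h d) y) := h5
    refine ⟨hD'.inv (wi w) _ _ (PW_wi.mpr h3) h4, ?_⟩
    obtain ⟨z, h6, h7⟩ := h.PW_gap2 (PW_wi.mpr h1) (h2.trans h5)
    rwa [h6.unique (PW_wi.mpr h3)] at h7
  have hmono : StrictMonoOn σ D := by
    intro x hx y hy hxy
    by_cases hxA : x ∈ A2 C
    · rw [hσA x hxA]
      by_cases hyA : y ∈ A2 C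
      · rwa [hσA y hyA]
      · by_contra hcon
        have h1 := (hmem y hy hyA).2
        refine h1 x ?_ hxA
        rw [mem_uIcc]
        exact Or.inr ⟨not_lt.mp hcon, hxy.le⟩
    · have hx1 := hmem x hx hxA
      by_cases hyA : y ∈ A2 C
      · rw [hσA y hyA]
        by_contra hcon
        refine hx1.2 y ?_ hyA
        rw [mem_uIcc]
        exact Or.inl ⟨hxy.le, not_lt.mp hcon⟩
      · have hy1 := hmem y hy hyA
        by_cases hxyG : SG (A2 C) x y
        · obtain ⟨w, z, h1, h2⟩ := rep2_spec h hxA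
          obtain ⟨z', h3, h4⟩ := h.PW_gap2 h1 hxyG
          have hrep : rep2 h x = rep2 h y := rep2_eq h (Or.inr ⟨[], x,
            ⟨rfl, (sg21 hxyG).left⟩, hxyG⟩)
          have h5 := key x hx hxA w z h1 h2.symm
          have h6 := key y hy hyA w z' h3 (by rw [← hrep]; exact h2.symm.trans h4)
          rw [← hrep] at h6
          have hT := hτ _ (hrepA x hxA)
          have hzD := hD.inv w x z h1 hx
          have hzD' := hD.inv w y z' h3 hy
          have hz'G : SG (A2 C) (rep2 h x) z' := h2.symm.trans h4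
          have g0 : SG (A1 C) x x := SG.refl (sg21 hxyG).left
          have g1 : SG (A1 C) x y := sg21 hxyG
          have g2 : SG (A1 C) x (σ x) := sg21 hx1.2
          have g3 : SG (A1 C) x (σ y) := sg21 (hxyG.trans hy1.2)
          rcases h.incAt_or_decAt h1 with hm | hm
          · have e1 := hm _ _ _ _ g0 g1 h1 h3 hxy
            have e2 := hT.mono z hzD z' hzD' h2.symm hz'G e1
            by_contra hc
            rcases (not_lt.mp hc).eq_or_lt with e3 | e3
            · rw [e3] at h6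
              exact e2.ne (h5.unique h6)
            · exact absurd (hm _ _ _ _ g3 g2 h6 h5 e3) (not_lt.mpr e2.le)
          · have e1 := hm _ _ _ _ g0 g1 h1 h3 hxy
            have e2 := hT.mono z' hzD' z hzD hz'G h2.symm e1
            by_contra hc
            rcases (not_lt.mp hc).eq_or_lt with e3 | e3
            · rw [e3] at h6
              exact e2.ne (h6.unique h5)
            · exact absurd (hm _ _ _ _ g3 g2 h6 h5 e3) (not_lt.mpr e2.le)
        · have : ∃ a ∈ A2 C, x < a ∧ a < y := by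
            by_contra hcon
            push Not at hcon
            refine hxyG fun s hs hsA => ?_
            rw [uIcc_of_le hxy.le] at hs
            have h1 : x ≠ s := fun h => hxA (h ▸ hsA)
            have h2 : s ≠ y := fun h => hyA (h ▸ hsA)
            exact absurd (lt_of_le_of_ne hs.2 h2) (not_lt.mpr (hcon s hsA
              (lt_of_le_of_ne hs.1 h1)))
          obtain ⟨a, ha, h1, h2⟩ := this
          have h3 : σ x < a := by
            by_contra hcon
            refine hx1.2 a ?_ ha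
            rw [mem_uIcc]
            exact Or.inl ⟨h1.le, not_lt.mp hcon⟩
          have h4 : a < σ y := by
            by_contra hcon
            refine hy1.2 a ?_ ha
            rw [mem_uIcc]
            exact Or.inr ⟨not_lt.mp hcon, h2.le⟩
          exact h3.trans h4
  have hmaps : ∀ d ∈ D, σ d ∈ D' := by
    intro d hd
    by_cases hdA : d ∈ A2 C
    · rw [hσA d hdA]
      exact hD'.sub d (hD.inter d hd hdA)
    · exact (hmem d hd hdA).1
  have hsurj : SurjOn σ D D' := by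
    intro z hz
    by_cases hzA : z ∈ A2 C
    · exact ⟨z, hD.sub z (hD'.inter z hz hzA), hσA z hzA⟩
    · obtain ⟨w, y, h1, h2⟩ := rep2_spec h hzA
      have hT := hτ _ (hrepA z hzA)
      obtain ⟨e, he1, he2, he3⟩ := hT.surj y (hD'.inv w z y h1 hz) h2.symm
      have he2 : SG (A2 C) (rep2 h z) e := he2
      obtain ⟨d, h3, h4⟩ := h.PW_gap2 (PW_wi.mpr h1) (h2.trans he2)
      have h3' : PW C w d e := PW_wi.mp h3
      have hdD : d ∈ D := hD.inv (wi w) e d h3 he1
      have hdA : d ∉ A2 C := h4.right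
      have hrep : rep2 h z = rep2 h d := rep2_eq h (Or.inr ⟨[], z, ⟨rfl, (sg21 h4).left⟩, h4⟩)
      refine ⟨d, hdD, ?_⟩
      have h5 := key d hdD hdA w e h3' (by rw [← hrep]; exact he2)
      rw [← hrep, he3] at h5
      exact h5.inj h1
  have hequi : ∀ v, ∀ d ∈ D, d ∉ A2 C → ∀ e, PW C v d e → PW C v (σ d) (σ e) := by
    intro v d hd hdA e hde
    have heA : e ∉ A2 C := fun hc => hdA ((h.A2_inv hde).mpr hc)
    have heD : e ∈ D := hD.inv v d e hde hd
    obtain ⟨w, y, h1, h2⟩ := rep2_spec h heA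
    have hrep : rep2 h d = rep2 h e := rep2_eq h (Or.inr ⟨v, e, hde, SG.refl heA⟩)
    have h3 := key d hd hdA (v ++ w) y (PW_append.mpr ⟨e, hde, h1⟩)
      (by rw [hrep]; exact h2.symm)
    obtain ⟨x, h4, h5⟩ := PW_append.mp h3
    have h6 := key e heD heA w y h1 h2.symm
    rw [hrep] at h5
    rwa [h5.inj h6] at h4
  -- the letters are preserved
  have hfwd : ∀ (a : Ltr), ∀ d ∈ D, ∀ e ∈ D, d ∉ A2 C → RL C a d e → RL C a (σ d) (σ e) := by
    intro a d hd e he hdA hde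
    by_cases heE : e ∈ E1 C
    · rw [hσA e (A1_sub_A2 (E1_sub_A1 heE))]
      exact h.const_val (sg21 (hmem d hd hdA).2) hde heE
    · have hdA1 : d ∉ A1 C := fun hc => hdA (A1_sub_A2 hc)
      have h1 := hequi [a] d hd hdA e (PW_single.mpr ⟨hde, hdA1, h.not_A1 hde hdA1 heE⟩)
      exact (PW_single.mp h1).1
  have hbwd : ∀ (a : Ltr), ∀ d ∈ D, ∀ e ∈ D, d ∉ A2 C → RL C a (σ d) (σ e) → RL C a d e := by
    intro a d hd e he hdA hde
    have hdG := (hmem d hd hdA).2
    by_cases heE : σ e ∈ E1 C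
    · have heA : e ∈ A2 C := by
        by_contra hc
        exact (hmem e he hc).2.right (A1_sub_A2 (E1_sub_A1 heE))
      rw [hσA e heA] at hde heE
      exact h.const_val (sg21 hdG.symm) hde heE
    · have h1 : σ d ∉ A1 C := (sg21 hdG).right
      have h2 : PW C [a] (σ d) (σ e) := PW_single.mpr ⟨hde, h1, h.not_A1 hde h1 heE⟩
      obtain ⟨e', h3, _⟩ := h.PW_gap2 h2 hdG.symm
      have h5 := hequi [a] d hd hdA e' h3
      have h6 := hmono.injOn (hD.inv _ _ _ h3 hd) he (h5.unique h2)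
      rw [h6] at h3
      exact (PW_single.mp h3).1
  have hRL : ∀ (a : Ltr), ∀ d ∈ D, ∀ e ∈ D, RL C a d e ↔ RL C a (σ d) (σ e) := by
    intro a d hd e he
    by_cases hdA : d ∈ A2 C
    · by_cases heA : e ∈ A2 C
      · rw [hσA d hdA, hσA e heA]
      · constructor
        · intro h1
          have h2 := hfwd (li a) e he d hd heA ((RL_li a d e).mpr h1)
          exact (RL_li a _ _).mp h2
        · intro h1
          exact (RL_li a d e).mp (hbwd (li a) e he d hd heA ((RL_li a _ _).mpr h1))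
    · exact ⟨hfwd a d hd e he hdA, hbwd a d hd e he hdA⟩
  obtain ⟨k, hk⟩ := ext_dense dD dD' σ hmono hsurj
  have hkinv : ∀ d ∈ D, (k⁻¹ : ℝ ≃o ℝ) (σ d) = d := fun d hd => by
    rw [← hk d hd, inv_app_self]
  have hkmaps : ∀ d ∈ D, k d ∈ D' := fun d hd => by
    rw [hk d hd]
    exact hmaps d hd
  refine ⟨k, fun n x y => ⟨fun hxy => ?_, fun hxy => ?_⟩, hkmaps, fun z hz => ?_⟩
  · have hcl : IsClosed {p : ℝ × ℝ | (k p.1, k p.2) ∈ C n} :=
      (h.cl n).preimage ((k.continuous.comp continuous_fst).prodMk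
        (k.continuous.comp continuous_snd))
    have hsub : C n ⊆ {p : ℝ × ℝ | (k p.1, k p.2) ∈ C n} := by
      refine (hD.closure_eq h dD n).ge.trans (hcl.closure_subset_iff.mpr ?_)
      rintro ⟨d, e⟩ ⟨h1, h2, h3⟩
      show (k d, k e) ∈ C n
      rw [hk d h2, hk e h3]
      exact (hRL (n, true) d h2 e h3).mp h1
    exact hsub hxy
  · have hcl : IsClosed {p : ℝ × ℝ | ((k⁻¹ : ℝ ≃o ℝ) p.1, (k⁻¹ : ℝ ≃o ℝ) p.2) ∈ C n} :=
      (h.cl n).preimage (((k⁻¹ : ℝ ≃o ℝ).continuous.comp continuous_fst).prodMk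
        ((k⁻¹ : ℝ ≃o ℝ).continuous.comp continuous_snd))
    have hsub : C n ⊆ {p : ℝ × ℝ | ((k⁻¹ : ℝ ≃o ℝ) p.1, (k⁻¹ : ℝ ≃o ℝ) p.2) ∈ C n} := by
      refine (hD'.closure_eq h dD' n).ge.trans (hcl.closure_subset_iff.mpr ?_)
      rintro ⟨d', e'⟩ ⟨h1, h2, h3⟩
      obtain ⟨d, hd, rfl⟩ := hsurj h2
      obtain ⟨e, he, rfl⟩ := hsurj h3
      show ((k⁻¹ : ℝ ≃o ℝ) (σ d), (k⁻¹ : ℝ ≃o ℝ) (σ e)) ∈ C n
      rw [hkinv d hd, hkinv e he]
      exact (hRL (n, true) d hd e he).mpr h1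
    have h1 : ((k⁻¹ : ℝ ≃o ℝ) (k x), (k⁻¹ : ℝ ≃o ℝ) (k y)) ∈ C n := hsub hxy
    rwa [inv_app_self, inv_app_self] at h1
  · obtain ⟨d, hd, hd'⟩ := hsurj hz
    exact ⟨d, hd, by rw [hk d hd, hd']⟩

end Pool.Agent.H642.MR
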